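import Pool.Agent.H.MP_cd3d06_an.K.Iface

/-! MP_cd3d06_an, part D: continuous arguments on the universal cover of a punctured disc. -/

namespace Pool.Agent.HK

open Polynomial Complex Set Metric Filter Topology
open scoped ComplexConjugate

/-- the coordinate `t = sqrt ρ * exp (i φ / 2)`, `t ^ 2 = ρ exp (i φ)` -/
noncomputable def tt (ρ φ : ℝ) : ℂ := (Real.sqrt ρ : ℂ) * Complex.exp (((φ / 2 : ℝ) : ℂ) * Complex.I)

theorem pol_eq (ζ0 : ℂ) {ρ : ℝ} (hρ : 0 ≤ ρ) (φ : ℝ) : pol ζ0 ρ φ = ζ0 + tt ρ φ ^ 2 := by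
  have h1 : ((Real.sqrt ρ : ℝ) : ℂ) ^ 2 = (ρ : ℂ) := by
    rw [← Complex.ofReal_pow, Real.sq_sqrt hρ]
  have h2 : Complex.exp (((φ / 2 : ℝ) : ℂ) * Complex.I) ^ 2 = Complex.exp (φ * Complex.I) := by
    rw [← Complex.exp_nat_mul]
    congr 1
    push_cast
    ring
  rw [pol, tt, mul_pow, h1, h2]

theorem norm_tt (ρ φ : ℝ) : ‖tt ρ φ‖ = Real.sqrt ρ := by
  rw [tt, norm_mul, Complex.norm_exp_ofReal_mul_I, mul_one, Complex.norm_real, Real.norm_eq_abs,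
    abs_of_nonneg (Real.sqrt_nonneg _)]

theorem tt_ne_zero {ρ : ℝ} (hρ : 0 < ρ) (φ : ℝ) : tt ρ φ ≠ 0 := by
  rw [← norm_ne_zero_iff, norm_tt]
  exact (Real.sqrt_pos.2 hρ).ne'

theorem tt_add (ρ φ : ℝ) : tt ρ (φ + 2 * Real.pi) = -tt ρ φ := by
  have h1 : Complex.exp ((((φ + 2 * Real.pi) / 2 : ℝ) : ℂ) * Complex.I) =
      -Complex.exp (((φ / 2 : ℝ) : ℂ) * Complex.I) := by
    have h2 : ((((φ + 2 * Real.pi) / 2 : ℝ) : ℂ) * Complex.I) =
        ((φ / 2 : ℝ) : ℂ) * Complex.I + Real.pi * Complex.I := by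
      push_cast
      ring
    rw [h2, Complex.exp_add, Complex.exp_pi_mul_I]
    ring
  rw [tt, tt, h1]
  ring

theorem continuous_tt : Continuous (fun u : ℝ × ℝ => tt u.1 u.2) := by
  unfold tt
  fun_prop

/-- the continuous argument of `D (tt ρ φ)`, `D t ~ c t ^ k` -/
noncomputable def thet (D : ℂ → ℂ) (k : ℕ) (c : ℂ) (ρ φ : ℝ) : ℝ :=
  k * φ / 2 + Complex.arg c + Complex.arg (D (tt ρ φ) / (c * tt ρ φ ^ k))

/-- The leading term of an analytic function.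

Proof. `AnalyticAt.exists_eventuallyEq_pow_smul_nonzero_iff` (or `analyticOrderAt`): near `0`
`D t = t ^ k * u t`, `u` analytic at `0`, `u 0 = c ≠ 0`. -/
theorem dlead {D : ℂ → ℂ} (hD : AnalyticAt ℂ D 0) (hne : ∀ᶠ t in 𝓝[≠] (0 : ℂ), D t ≠ 0) :
    ∃ (k : ℕ) (u : ℂ → ℂ), AnalyticAt ℂ u 0 ∧ u 0 ≠ 0 ∧ ∀ᶠ t in 𝓝 (0 : ℂ), D t = t ^ k * u t := by
  have h0 : ¬ ∀ᶠ z in 𝓝 (0 : ℂ), D z = 0 := by
    intro h
    have h1 : ∀ᶠ t in 𝓝[≠] (0 : ℂ), D t = 0 := h.filter_mono nhdsWithin_le_nhds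
    obtain ⟨t, h2, h3⟩ := (h1.and hne).exists
    exact h3 h2
  obtain ⟨k, u, hu, hu0, h⟩ := hD.exists_eventuallyEq_pow_smul_nonzero_iff.mpr h0
  refine ⟨k, u, hu, hu0, ?_⟩
  filter_upwards [h] with t ht
  rw [ht, sub_zero, smul_eq_mul]

/-- an eventual property near `0` holds at `tt ρ φ` for small `ρ` -/
theorem eventually_tt {P : ℂ → Prop} (h : ∀ᶠ t in 𝓝 (0 : ℂ), P t) :
    ∃ δ > 0, ∀ ρ ∈ Ioo 0 δ, ∀ φ : ℝ, P (tt ρ φ) := by
  obtain ⟨r, hr, h1⟩ := Metric.eventually_nhds_iff.mp h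
  refine ⟨r ^ 2, by positivity, fun ρ hρ φ => h1 ?_⟩
  rw [dist_zero_right, norm_tt]
  calc Real.sqrt ρ < Real.sqrt (r ^ 2) := Real.sqrt_lt_sqrt hρ.1.le hρ.2
    _ = r := Real.sqrt_sq hr.le

/-- the parity of the order -/
theorem parity_order {D : ℂ → ℂ} {k : ℕ} {u : ℂ → ℂ} (hu : AnalyticAt ℂ u 0) (hu0 : u 0 ≠ 0)
    (hDu : ∀ᶠ t in 𝓝 (0 : ℂ), D t = t ^ k * u t) {s : ℂ}
    (hs : ∀ᶠ t in 𝓝 (0 : ℂ), D (-t) = s * D t) : (-1 : ℂ) ^ k = s := by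
  have hneg : Tendsto (fun t : ℂ => -t) (𝓝[≠] 0) (𝓝 0) := by
    have := (continuous_neg (G := ℂ)).tendsto 0
    rw [neg_zero] at this
    exact this.mono_left nhdsWithin_le_nhds
  have h1 : ∀ᶠ t in 𝓝[≠] (0 : ℂ), (-1 : ℂ) ^ k * u (-t) = s * u t := by
    filter_upwards [self_mem_nhdsWithin, hDu.filter_mono nhdsWithin_le_nhds,
      hs.filter_mono nhdsWithin_le_nhds, hneg.eventually hDu] with t h0 h2 h3 h4
    have h5 : t ^ k ≠ 0 := pow_ne_zero k h0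
    apply mul_left_cancel₀ h5
    rw [h2, h4, neg_pow] at h3
    linear_combination h3
  have h2 : Tendsto (fun t => (-1 : ℂ) ^ k * u (-t)) (𝓝[≠] 0) (𝓝 ((-1 : ℂ) ^ k * u 0)) :=
    (hu.continuousAt.tendsto.comp hneg).const_mul _
  have h3 : Tendsto (fun t => s * u t) (𝓝[≠] 0) (𝓝 (s * u 0)) :=
    (hu.continuousAt.tendsto.mono_left nhdsWithin_le_nhds).const_mul _
  have h4 := tendsto_nhds_unique h2 ((tendsto_congr' h1).mpr h3)
  exact mul_right_cancel₀ hu0 h4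

/-- what is needed about `D` in the local models -/
structure DArg (D : ℂ → ℂ) (k : ℕ) (c : ℂ) : Prop where
  hc : c ≠ 0
  lim : Tendsto (fun t => D t / t ^ k) (𝓝[≠] 0) (𝓝 c)
  bd : ∃ C : ℝ, ∀ᶠ t in 𝓝 (0 : ℂ), ‖D t‖ ≤ C * ‖t‖ ^ k
  even : (∀ᶠ t in 𝓝 (0 : ℂ), D (-t) = D t) → Even k
  odd : (∀ᶠ t in 𝓝 (0 : ℂ), D (-t) = -D t) → Odd k
  one : D 0 = 0 → deriv D 0 ≠ 0 → k = 1
  loc : ∀ᶠ δ in 𝓝[>] (0 : ℝ), ContinuousOn (fun u : ℝ × ℝ => thet D k c u.1 u.2) (Ioo 0 δ ×ˢ univ) ∧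
    ∀ ρ ∈ Ioo 0 δ, ∀ φ : ℝ,
      D (tt ρ φ) = (‖D (tt ρ φ)‖ : ℂ) * Complex.exp (thet D k c ρ φ * Complex.I) ∧
      thet D k c ρ (φ + 2 * Real.pi) = thet D k c ρ φ + k * Real.pi ∧
      ‖D (tt ρ φ) / (c * tt ρ φ ^ k) - 1‖ < 1

/-- The continuous argument.

Proof. `dlead`: `D t = t ^ k * u t`; `c = u 0`. For small `t ≠ 0` `D t / (c t ^ k) = u t / u 0` is within
distance `< 1` of `1`, so it has positive real part, is in the slit plane, and `arg` is continuous there;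
`D t = c * t ^ k * (u t / u 0)`, and `x = ‖x‖ exp (i arg x)` for `c` and `u t / u 0`,
`t ^ k = ‖t‖ ^ k * exp (i k φ / 2)`. Period: `tt ρ (φ + 2 π) = - tt ρ φ` and `D (-t) / (c (-t) ^ k) =
D t / (c t ^ k)`, because `D (-t) = (-1) ^ k D t`: if `D` is even then comparing the limits of
`D t / t ^ k` and `D (-t) / (-t) ^ k = (-1) ^ k D t / t ^ k` gives `(-1) ^ k = 1`, `k` even; if `D` is odd
then `k` is odd. `one`: `D 0 = 0` gives `k ≥ 1`, and `deriv D 0 = lim D t / t`, which is `0` if `k ≥ 2`. -/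
theorem darg {D : ℂ → ℂ} (hD : AnalyticAt ℂ D 0) (hne : ∀ᶠ t in 𝓝[≠] (0 : ℂ), D t ≠ 0)
    (hpar : (∀ᶠ t in 𝓝 (0 : ℂ), D (-t) = D t) ∨ ∀ᶠ t in 𝓝 (0 : ℂ), D (-t) = -D t) :
    ∃ (k : ℕ) (c : ℂ), DArg D k c := by
  obtain ⟨k, u, hu, hu0, hDu⟩ := dlead hD hne
  have hneg : Tendsto (fun t : ℂ => -t) (𝓝 0) (𝓝 0) := by
    have := (continuous_neg (G := ℂ)).tendsto 0
    rwa [neg_zero] at this
  have hsgn : ∀ᶠ t in 𝓝 (0 : ℂ), D (-t) = (-1 : ℂ) ^ k * D t := by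
    rcases hpar with h | h
    · have h1 : ∀ᶠ t in 𝓝 (0 : ℂ), D (-t) = 1 * D t := by
        filter_upwards [h] with t ht
        rw [ht, one_mul]
      rw [parity_order hu hu0 hDu h1]
      exact h1
    · have h1 : ∀ᶠ t in 𝓝 (0 : ℂ), D (-t) = (-1) * D t := by
        filter_upwards [h] with t ht
        rw [ht]; ring
      rw [parity_order hu hu0 hDu h1]
      exact h1
  refine ⟨k, u 0, hu0, ?_, ?_, ?_, ?_, ?_, ?_⟩
  · -- `lim`
    have h1 : Tendsto u (𝓝[≠] 0) (𝓝 (u 0)) := hu.continuousAt.tendsto.mono_left nhdsWithin_le_nhds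
    refine (tendsto_congr' ?_).mpr h1
    filter_upwards [self_mem_nhdsWithin, hDu.filter_mono nhdsWithin_le_nhds] with t h0 h2
    rw [h2, mul_div_cancel_left₀ _ (pow_ne_zero k h0)]
  · -- `bd`
    refine ⟨‖u 0‖ + 1, ?_⟩
    have h1 : ∀ᶠ t in 𝓝 (0 : ℂ), ‖u t‖ < ‖u 0‖ + 1 :=
      (hu.continuousAt.norm).eventually_lt_const (lt_add_one _)
    filter_upwards [hDu, h1] with t h2 h3
    rw [h2, norm_mul, norm_pow, mul_comm]
    exact mul_le_mul_of_nonneg_right h3.le (pow_nonneg (norm_nonneg t) k)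
  · -- `even`
    intro h
    have h1 : ∀ᶠ t in 𝓝 (0 : ℂ), D (-t) = 1 * D t := by
      filter_upwards [h] with t ht
      rw [ht, one_mul]
    have h2 := parity_order hu hu0 hDu h1
    rwa [neg_one_pow_eq_one_iff_even (by norm_num)] at h2
  · -- `odd`
    intro h
    have h1 : ∀ᶠ t in 𝓝 (0 : ℂ), D (-t) = (-1) * D t := by
      filter_upwards [h] with t ht
      rw [ht]; ring
    have h2 := parity_order hu hu0 hDu h1
    rwa [neg_one_pow_eq_neg_one_iff_odd (by norm_num)] at h2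
  · -- `one`
    intro h1 h2
    have h3 : k ≠ 0 := by
      rintro rfl
      have h4 := hDu.self_of_nhds
      rw [pow_zero, one_mul, h1] at h4
      exact hu0 h4.symm
    by_contra h4
    have h5 : D =ᶠ[𝓝 0] fun t => t ^ k * u t := hDu
    apply h2
    rw [h5.deriv_eq]
    have h6 : HasDerivAt (fun t : ℂ => t ^ k * u t)
        ((k : ℂ) * (0 : ℂ) ^ (k - 1) * u 0 + (0 : ℂ) ^ k * deriv u 0) 0 :=
      (hasDerivAt_pow k 0).mul hu.differentiableAt.hasDerivAt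
    rw [h6.deriv, zero_pow h3, zero_pow (by omega)]
    ring
  · -- `loc`
    have hcont : ∀ᶠ t in 𝓝 (0 : ℂ), ContinuousAt u t :=
      hu.eventually_analyticAt.mono fun t ht => ht.continuousAt
    have hball : ∀ᶠ t in 𝓝 (0 : ℂ), ‖u t / u 0 - 1‖ < 1 := by
      have h1 : ContinuousAt (fun t => ‖u t / u 0 - 1‖) 0 :=
        ((hu.continuousAt.div_const _).sub continuousAt_const).norm
      apply h1.eventually_lt_const
      show ‖u 0 / u 0 - 1‖ < 1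
      rw [div_self hu0, sub_self, norm_zero]
      exact one_pos
    obtain ⟨δ0, hδ0, hall⟩ := eventually_tt (hDu.and (hcont.and (hball.and (hsgn.and
      (hcont.and (hneg.eventually hDu))))))
    -- the quotient at `tt ρ φ`
    have hquo : ∀ ρ ∈ Ioo 0 δ0, ∀ φ : ℝ,
        D (tt ρ φ) / (u 0 * tt ρ φ ^ k) = u (tt ρ φ) / u 0 := by
      intro ρ hρ φ
      have h1 := (hall ρ hρ φ).1
      have h2 : tt ρ φ ^ k ≠ 0 := pow_ne_zero k (tt_ne_zero hρ.1 φ)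
      rw [h1]
      field_simp
    have hslit : ∀ z : ℂ, ‖z - 1‖ < 1 → z ∈ Complex.slitPlane := by
      intro z hz
      apply Complex.ball_one_subset_slitPlane
      rwa [mem_ball, dist_eq_norm]
    filter_upwards [Ioo_mem_nhdsGT hδ0] with δ hδ
    have hsub : ∀ ρ, ρ ∈ Ioo 0 δ → ρ ∈ Ioo 0 δ0 := fun ρ h => ⟨h.1, h.2.trans hδ.2⟩
    refine ⟨?_, fun ρ hρ φ => ⟨?_, ?_, ?_⟩⟩
    · have h7 : ContinuousOn (fun v : ℝ × ℝ => (k : ℝ) * v.2 / 2 + Complex.arg (u 0) +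
          Complex.arg (u (tt v.1 v.2) / u 0)) (Ioo 0 δ ×ˢ univ) := by
        rintro ⟨ρ, φ⟩ ⟨hρ, -⟩
        obtain ⟨-, h2, h3, -, -⟩ := hall ρ (hsub ρ hρ) φ
        apply ContinuousAt.continuousWithinAt
        have h4 : ContinuousAt (fun v : ℝ × ℝ => u (tt v.1 v.2) / u 0) (ρ, φ) := by
          apply ContinuousAt.div_const
          exact ContinuousAt.comp (f := fun v : ℝ × ℝ => tt v.1 v.2) (x := (ρ, φ)) h2
            continuous_tt.continuousAt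
        have h5 : ContinuousAt (fun v : ℝ × ℝ => Complex.arg (u (tt v.1 v.2) / u 0)) (ρ, φ) :=
          ContinuousAt.comp (f := fun v : ℝ × ℝ => u (tt v.1 v.2) / u 0) (x := (ρ, φ))
            (Complex.continuousAt_arg (hslit _ h3)) h4
        have h6 : ContinuousAt (fun v : ℝ × ℝ => (k : ℝ) * v.2 / 2 + Complex.arg (u 0))
            (ρ, φ) := by
          fun_prop
        exact h6.add h5
      refine h7.congr ?_
      rintro ⟨ρ, φ⟩ ⟨hρ, -⟩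
      show thet D k (u 0) ρ φ = _
      rw [thet, hquo ρ (hsub ρ hρ) φ]
    · obtain ⟨h1, -, h3, -, -⟩ := hall ρ (hsub ρ hρ) φ
      rw [thet, hquo ρ (hsub ρ hρ) φ]
      have e1 : u (tt ρ φ) = u 0 * (u (tt ρ φ) / u 0) := by field_simp
      have e2 : D (tt ρ φ) = (Real.sqrt ρ : ℂ) ^ k *
          Complex.exp ((k * φ / 2 : ℝ) * Complex.I) *
          ((‖u 0‖ : ℂ) * Complex.exp (Complex.arg (u 0) * Complex.I) *
          ((‖u (tt ρ φ) / u 0‖ : ℂ) *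
            Complex.exp (Complex.arg (u (tt ρ φ) / u 0) * Complex.I))) := by
        rw [Complex.norm_mul_exp_arg_mul_I, Complex.norm_mul_exp_arg_mul_I, ← e1, h1]
        congr 1
        unfold tt
        rw [mul_pow, ← Complex.exp_nat_mul]
        congr 2
        push_cast
        ring
      have e3 : ‖D (tt ρ φ)‖ = Real.sqrt ρ ^ k * (‖u 0‖ * ‖u (tt ρ φ) / u 0‖) := by
        rw [h1, norm_mul, norm_pow, norm_tt, norm_div]
        congr 1
        rw [mul_div_cancel₀]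
        exact norm_ne_zero_iff.mpr hu0
      rw [e3, e2]
      push_cast
      rw [add_mul, add_mul, Complex.exp_add, Complex.exp_add]
      ring
    · obtain ⟨h1, -, -, h4, -, h5⟩ := hall ρ (hsub ρ hρ) φ
      have hune : u (-tt ρ φ) = u (tt ρ φ) := by
        rw [h5, h1, neg_pow, mul_assoc] at h4
        have h6 : ((-1 : ℂ) ^ k) ≠ 0 := pow_ne_zero _ (by norm_num)
        exact mul_left_cancel₀ (pow_ne_zero k (tt_ne_zero hρ.1 φ)) (mul_left_cancel₀ h6 h4)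
      rw [thet, thet, hquo ρ (hsub ρ hρ) φ, hquo ρ (hsub ρ hρ) _, tt_add, hune]
      ring
    · rw [hquo ρ (hsub ρ hρ) φ]
      exact (hall ρ (hsub ρ hρ) φ).2.2.1

end Pool.Agent.HK
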