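import Pool.Agent.H.MP_cd3d06_an.K.Iface

/-!
MP_cd3d06_an, part D: common definitions, the mirror symmetry of `PtsOf` and the far part.
-/

namespace Pool.Agent.HK

open Polynomial Complex Set Metric
open scoped ComplexConjugate

/-- the points over special parameters: critical points, nodes, collisions with the mirror image -/
def Bad (H S : ℂ[X]) (z : ℂ) : Prop :=
  H.derivative.eval z = 0 ∨ (∃ w, w ≠ z ∧ H.eval w = H.eval z ∧ S.eval w = S.eval z) ∨
    ∃ w, H.eval z = conj (H.eval w) ∧ S.eval z = -conj (S.eval w)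

/-- the points of the plane over `ζ` or over `conj ζ` -/
noncomputable def fib2 (H : ℂ[X]) (ζ : ℂ) : Finset ℂ :=
  (H - C ζ).roots.toFinset ∪ (H - C (conj ζ)).roots.toFinset

/-- the number of roots of `R` over `ζ` and `conj ζ` -/
noncomputable def EEof (H R : ℂ[X]) (ζ : ℂ) : ℕ := ∑ z ∈ fib2 H ζ, R.rootMultiplicity z

theorem mem_fib2 {H : ℂ[X]} (hn : 1 ≤ H.natDegree) {ζ z : ℂ} :
    z ∈ fib2 H ζ ↔ H.eval z = ζ ∨ H.eval z = conj ζ := by
  have hne : ∀ c : ℂ, H - C c ≠ 0 := by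
    intro c h0
    have h1 : H = C c := sub_eq_zero.mp h0
    rw [h1, natDegree_C] at hn
    exact absurd hn (by norm_num)
  unfold fib2
  rw [Finset.mem_union, Multiset.mem_toFinset, Multiset.mem_toFinset, mem_roots (hne _),
    mem_roots (hne _), IsRoot.def, IsRoot.def, eval_sub, eval_sub, eval_C, eval_C, sub_eq_zero,
    sub_eq_zero]

/-! ### the mirror image -/

theorem PtsOf_conj (H S : ℂ[X]) (ζ : ℂ) : PtsOf H S (conj ζ) = mir '' PtsOf H S ζ := by
  have key : ∀ ζ : ℂ, mir '' PtsOf H S ζ ⊆ PtsOf H S (conj ζ) := by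
    intro ζ
    rintro _ ⟨a, (⟨z, hz, rfl⟩ | ⟨z, hz, rfl⟩), rfl⟩
    · right
      refine ⟨z, by rw [Complex.conj_conj]; exact hz, ?_⟩
      show ((-conj (S.eval z), (1 : ZMod 2) + 1) : TP) = _
      have : (1 : ZMod 2) + 1 = 0 := by decide
      rw [this]
    · left
      refine ⟨z, hz, ?_⟩
      show ((-conj (-conj (S.eval z)), (0 : ZMod 2) + 1) : TP) = _
      rw [map_neg, neg_neg, Complex.conj_conj, zero_add]
  have hmm : ∀ a : TP, mir (mir a) = a := by
    rintro ⟨a, t⟩
    show ((-conj (-conj a), t + 1 + 1) : TP) = _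
    have h2 : t + 1 + 1 = t := by
      have : (1 : ZMod 2) + 1 = 0 := by decide
      rw [add_assoc, this, add_zero]
    rw [map_neg, neg_neg, Complex.conj_conj, h2]
  apply Subset.antisymm
  · intro a ha
    refine ⟨mir a, ?_, hmm a⟩
    have h1 := key (conj ζ) ⟨a, ha, rfl⟩
    rwa [Complex.conj_conj] at h1
  · exact key ζ

/-! ### the far part -/

theorem isFar_PtsOf {p q H S : ℂ[X]} (hpq : q.degree < p.degree) (hH : H = p - q)
    (hS : S = p + q) : IsFar (PtsOf H S) := by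
  have hdeg : q.degree < H.degree := by
    rw [hH, degree_sub_eq_left_of_degree_lt hpq]; exact hpq
  have hlo := Polynomial.isLittleO_cobounded_of_degree_lt hdeg
  have h20 : ∀ᶠ z : ℂ in Bornology.cobounded ℂ, ‖q.eval z‖ ≤ 1 / 20 * ‖H.eval z‖ :=
    hlo.bound (by norm_num)
  rw [← comap_norm_atTop, Filter.eventually_comap] at h20
  obtain ⟨r, hr⟩ := Filter.eventually_atTop.mp h20
  obtain ⟨M, hM⟩ := (isCompact_closedBall (0 : ℂ) r).exists_bound_of_continuousOn
    (f := fun z => H.eval z) H.continuous.continuousOn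
  have key : ∀ z : ℂ, M + 1 ≤ ‖H.eval z‖ → ‖2 * q.eval z‖ ≤ ‖H.eval z‖ / 10 := by
    intro z hz
    have hzr : r ≤ ‖z‖ := by
      by_contra hlt
      have h1 := hM z (by rw [mem_closedBall, dist_zero_right]; exact (not_le.mp hlt).le)
      have h2 : ‖H.eval z‖ ≤ M := h1
      linarith
    have h3 := hr ‖z‖ hzr z rfl
    rw [norm_mul, Complex.norm_ofNat]
    linarith
  have hSH : ∀ z, S.eval z - H.eval z = 2 * q.eval z := by
    intro z
    rw [hS, hH, eval_add, eval_sub]; ring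
  refine ⟨M + 1, fun ζ hζ a ha => ?_⟩
  rcases ha with ⟨z, hz, rfl⟩ | ⟨z, hz, rfl⟩
  · refine ⟨fun _ => ?_, fun h => ?_⟩
    · show ‖S.eval z - ζ‖ ≤ ‖ζ‖ / 10
      rw [← hz, hSH]
      exact key z (by rw [hz]; exact hζ)
    · have h' : (1 : ZMod 2) = 0 := h
      exact absurd h' (by decide)
  · refine ⟨fun h => ?_, fun _ => ?_⟩
    · have h' : (0 : ZMod 2) = 1 := h
      exact absurd h' (by decide)
    · show ‖-conj (S.eval z) + ζ‖ ≤ ‖ζ‖ / 10
      have hz' : ζ = conj (H.eval z) := by rw [hz, Complex.conj_conj]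
      have e1 : -conj (S.eval z) + ζ = -conj (2 * q.eval z) := by
        rw [← hSH, map_sub, ← hz']; ring
      have e2 : ‖ζ‖ = ‖H.eval z‖ := by rw [hz', Complex.norm_conj]
      rw [e1, norm_neg, Complex.norm_conj, e2]
      exact key z (by rw [← e2]; exact hζ)

end Pool.Agent.HK
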