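import Pool.Agent.H.MP_cd3d06_an.K.D.Base

/-!
MP_cd3d06_an, part D: the special parameters and the count.
-/

namespace Pool.Agent.HK

open Polynomial Complex Set Metric
open scoped ComplexConjugate

theorem Gen.deriv_ne {p q H S : ℂ[X]} (hG : Gen p q H S) : H.derivative ≠ 0 := by
  intro h0
  have h1 := (hG.g1 0 (by rw [h0, eval_zero])).1
  rw [h0, derivative_zero, eval_zero] at h1
  exact h1 rfl

theorem bad_finite {p q H S : ℂ[X]} (hG : Gen p q H S) : {z | Bad H S z}.Finite := by
  have h1 : {z | H.derivative.eval z = 0}.Finite := by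
    apply (H.derivative.roots.toFinset.finite_toSet).subset
    intro z hz
    have hz' : H.derivative.eval z = 0 := hz
    rw [Finset.mem_coe, Multiset.mem_toFinset, mem_roots hG.deriv_ne, IsRoot.def]
    exact hz'
  exact (h1.union (hG.fin_nodes.union hG.fin_coll)).subset (fun z hz => hz)

theorem exists_Sp {p q H S : ℂ[X]} (hG : Gen p q H S) : ∃ Sp : Finset ℂ, ∀ ζ, ζ ∈ Sp ↔
    0 ≤ ζ.im ∧ ∃ z, Bad H S z ∧ (H.eval z = ζ ∨ H.eval z = conj ζ) := by
  classical
  have hf := bad_finite hG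
  refine ⟨((hf.toFinset.image (fun z => H.eval z)) ∪
    (hf.toFinset.image (fun z => conj (H.eval z)))).filter (fun ζ => 0 ≤ ζ.im), fun ζ => ?_⟩
  rw [Finset.mem_filter, Finset.mem_union, Finset.mem_image, Finset.mem_image]
  constructor
  · rintro ⟨h1, h2⟩
    refine ⟨h2, ?_⟩
    rcases h1 with ⟨z, hz, rfl⟩ | ⟨z, hz, rfl⟩
    · exact ⟨z, hf.mem_toFinset.mp hz, Or.inl rfl⟩
    · exact ⟨z, hf.mem_toFinset.mp hz, Or.inr (by rw [Complex.conj_conj])⟩
  · rintro ⟨h1, z, hz, h2⟩
    refine ⟨?_, h1⟩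
    rcases h2 with h2 | h2
    · exact Or.inl ⟨z, hf.mem_toFinset.mpr hz, h2⟩
    · exact Or.inr ⟨z, hf.mem_toFinset.mpr hz, by rw [h2, Complex.conj_conj]⟩

theorem sum_EEof_le {H R : ℂ[X]} (hn : 1 ≤ H.natDegree) (Sp : Finset ℂ)
    (hSp : ∀ ζ ∈ Sp, 0 < ζ.im) : ∑ ζ ∈ Sp, EEof H R ζ ≤ R.natDegree := by
  classical
  have hdisj : (Sp : Set ℂ).PairwiseDisjoint (fib2 H) := by
    intro ζ hζ ζ' hζ' hne
    rw [Function.onFun, Finset.disjoint_left]
    intro z hz hz'
    rw [mem_fib2 hn] at hz hz'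
    have i1 := hSp ζ hζ
    have i2 := hSp ζ' hζ'
    rcases hz with hz | hz <;> rcases hz' with hz' | hz'
    · exact hne (hz.symm.trans hz')
    · have h3 : ζ = conj ζ' := hz.symm.trans hz'
      have h4 : ζ.im = (conj ζ').im := by rw [h3]
      rw [Complex.conj_im] at h4
      linarith
    · have h3 : conj ζ = ζ' := hz.symm.trans hz'
      have h4 : (conj ζ).im = ζ'.im := by rw [h3]
      rw [Complex.conj_im] at h4
      linarith
    · have h3 : conj ζ = conj ζ' := hz.symm.trans hz'
      exact hne (star_injective h3)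
  unfold EEof
  rw [← Finset.sum_biUnion hdisj]
  calc ∑ z ∈ Sp.biUnion (fib2 H), R.rootMultiplicity z
      ≤ ∑ z ∈ Sp.biUnion (fib2 H) ∪ R.roots.toFinset, R.rootMultiplicity z :=
        Finset.sum_le_sum_of_subset Finset.subset_union_left
    _ = ∑ z ∈ Sp.biUnion (fib2 H) ∪ R.roots.toFinset, R.roots.count z := by
        apply Finset.sum_congr rfl
        intro z _
        rw [count_roots]
    _ = Multiset.card R.roots := by
        apply Multiset.sum_count_eq_card
        intro a ha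
        exact Finset.mem_union_right _ (Multiset.mem_toFinset.mpr ha)
    _ ≤ R.natDegree := card_roots' R

/-- zeros of `p + conj q` are collisions of the curve with its mirror image over the real axis -/
theorem zero_bad {p q H S : ℂ[X]} (hG : Gen p q H S) {z : ℂ}
    (hz : p.eval z + conj (q.eval z) = 0) : (H.eval z).im = 0 ∧ Bad H S z := by
  have hp : p.eval z = -conj (q.eval z) := eq_neg_of_add_eq_zero_left hz
  have hH : H.eval z = -conj (q.eval z) - q.eval z := by rw [hG.hH, eval_sub, hp]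
  have hS : S.eval z = -conj (q.eval z) + q.eval z := by rw [hG.hS, eval_add, hp]
  have hHc : H.eval z = conj (H.eval z) := by
    rw [hH, map_sub, map_neg, Complex.conj_conj]; ring
  refine ⟨Complex.conj_eq_iff_im.mp hHc.symm, Or.inr (Or.inr ⟨z, hHc, ?_⟩)⟩
  rw [hS, map_add, map_neg, Complex.conj_conj]; ring

/-- a collision over the real axis is a zero of `p + conj q` -/
theorem zero_of_coll {p q H S : ℂ[X]} (hG : Gen p q H S) {z w : ℂ}
    (h1 : H.eval z = conj (H.eval w)) (h2 : S.eval z = -conj (S.eval w))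
    (h3 : (H.eval z).im = 0) : w = z ∧ p.eval z + conj (q.eval z) = 0 := by
  have hzw : z = w := by
    by_contra hne
    exact (hG.g3 z w h1 h2).2.1 hne h3
  subst hzw
  refine ⟨rfl, ?_⟩
  rw [hG.hH, eval_sub] at h1
  rw [hG.hS, eval_add] at h2
  rw [map_sub] at h1
  rw [map_add] at h2
  have h4 : 2 * (p.eval z + conj (q.eval z)) = 0 := by linear_combination h1 + h2
  rcases mul_eq_zero.mp h4 with h5 | h5
  · norm_num at h5
  · exact h5

/-- `Bad` points over the real axis are zeros of `p + conj q` -/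
theorem zero_of_bad {p q H S : ℂ[X]} (hG : Gen p q H S) {z : ℂ} (hb : Bad H S z)
    (h3 : (H.eval z).im = 0) : p.eval z + conj (q.eval z) = 0 := by
  rcases hb with h | ⟨w, hw, h1, h2⟩ | ⟨w, h1, h2⟩
  · exact absurd h3 (hG.g1 z h).2.2
  · exact absurd h3 (hG.g2 z w hw.symm h1.symm h2.symm).2.1
  · exact (zero_of_coll hG h1 h2 h3).2

end Pool.Agent.HK
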