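import Pool.Agent.H.MP_cd3d06_an.K.D.RegA

/-! MP_cd3d06_an, part D: regular parameters. -/

namespace Pool.Agent.HK

open Polynomial Complex Set Metric Filter Topology
open scoped ComplexConjugate

/-- Regular parameters.

Proof. `exists_reg` at `ζ0` (branches `g i`) and at `conj ζ0` (branches `g' i`), as `hb` excludes
critical points over `ζ0` and `conj ζ0`. Sections: `S (g i ζ)` of type `1` and `- conj (S (g' i (conj ζ)))`
of type `0`, indexed by `Fin n ⊕ Fin n ≃ Fin (2 * n)`. They are continuous on a ball around `ζ0`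
(analytic functions are continuous near the point, `AnalyticAt.eventually_continuousAt`); the values at
`ζ0` are different by `hb` (node: `S z = S w`, `z ≠ w` over `ζ0` or over `conj ζ0`; collision:
`S z = - conj (S w)`, `H z = ζ0 = conj (H w)`), hence the values are different for `ζ` near `ζ0` (finitely
many pairs, continuity). The set `PtsOf H S ζ` is the range of the typed sections by the last clause of
`exists_reg`. -/
theorem isRegPt_of {p q H S : ℂ[X]} (_hG : Gen p q H S) {n : ℕ} (hn : H.natDegree = n)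
    (hn1 : 1 ≤ n) {ζ0 : ℂ} (hb : ∀ z, Bad H S z → H.eval z ≠ ζ0 ∧ H.eval z ≠ conj ζ0) :
    IsRegPt n (PtsOf H S) ζ0 := by
  obtain ⟨g, hga, hg⟩ := exists_reg hn hn1 ζ0 (fun z hz h0 => (hb z (Or.inl h0)).1 hz)
  obtain ⟨g', hga', hg'⟩ := exists_reg hn hn1 (conj ζ0) (fun z hz h0 => (hb z (Or.inl h0)).2 hz)
  set s : Fin n ⊕ Fin n → ℂ → ℂ :=
    Sum.elim (fun i ζ => S.eval (g i ζ)) (fun i ζ => -conj (S.eval (g' i (conj ζ)))) with hs
  set ty : Fin n ⊕ Fin n → ZMod 2 := Sum.elim (fun _ => 1) (fun _ => 0) with hty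
  have hconj : Tendsto (fun ζ : ℂ => conj ζ) (𝓝 ζ0) (𝓝 (conj ζ0)) :=
    Complex.continuous_conj.tendsto ζ0
  have hgc : ∀ i, ∀ᶠ ζ in 𝓝 ζ0, ContinuousAt (g i) ζ := fun i =>
    (hga i).eventually_analyticAt.mono (fun _ h => h.continuousAt)
  have hgc' : ∀ i, ∀ᶠ ζ in 𝓝 ζ0, ContinuousAt (g' i) (conj ζ) := fun i =>
    (hconj.eventually (hga' i).eventually_analyticAt).mono (fun _ h => h.continuousAt)
  have hsc : ∀ a, ∀ᶠ ζ in 𝓝 ζ0, ContinuousAt (s a) ζ := by
    rintro (i | i)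
    · filter_upwards [hgc i] with ζ h
      exact S.continuous.continuousAt.comp h
    · filter_upwards [hgc' i] with ζ h
      have h1 : ContinuousAt (fun ζ : ℂ => g' i (conj ζ)) ζ :=
        ContinuousAt.comp (f := fun ζ : ℂ => conj ζ) (g := g' i) h
          Complex.continuous_conj.continuousAt
      have h2 : ContinuousAt (fun ζ : ℂ => S.eval (g' i (conj ζ))) ζ :=
        ContinuousAt.comp (f := fun ζ : ℂ => g' i (conj ζ)) (g := fun z => S.eval z)
          S.continuous.continuousAt h1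
      exact (Complex.continuous_conj.continuousAt.comp h2).neg
  have h0 := hg.self_of_nhds
  have h0' := hg'.self_of_nhds
  have hne : ∀ a b, a ≠ b → s a ζ0 ≠ s b ζ0 := by
    have hLR : ∀ i j, s (Sum.inl i) ζ0 ≠ s (Sum.inr j) ζ0 := by
      intro i j h
      refine (hb (g i ζ0) (Or.inr (Or.inr ⟨g' j (conj ζ0), ?_, h⟩))).1 (h0.1 i)
      rw [h0.1 i, h0'.1 j, Complex.conj_conj]
    rintro (i | i) (j | j) hab h
    · have hij : i ≠ j := fun h => hab (by rw [h])
      refine (hb (g i ζ0) (Or.inr (Or.inl ⟨g j ζ0, fun h1 => hij (h0.2.1 h1).symm, ?_, h.symm⟩))).1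
        (h0.1 i)
      rw [h0.1 i, h0.1 j]
    · exact hLR i j h
    · exact hLR j i h.symm
    · have hij : i ≠ j := fun h => hab (by rw [h])
      have h1 : S.eval (g' i (conj ζ0)) = S.eval (g' j (conj ζ0)) := by
        have h2 : -conj (S.eval (g' i (conj ζ0))) = -conj (S.eval (g' j (conj ζ0))) := h
        exact (starRingEnd ℂ).injective (neg_injective h2)
      refine (hb (g' i (conj ζ0)) (Or.inr (Or.inl ⟨g' j (conj ζ0),
        fun h1 => hij (h0'.2.1 h1).symm, ?_, h1.symm⟩))).2 (h0'.1 i)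
      rw [h0'.1 i, h0'.1 j]
  have hne' : ∀ᶠ ζ in 𝓝 ζ0, ∀ a b, a ≠ b → s a ζ ≠ s b ζ := by
    rw [eventually_all]
    intro a
    rw [eventually_all]
    intro b
    by_cases hab : a = b
    · exact Eventually.of_forall (fun _ h => absurd hab h)
    · have h1 : ContinuousAt (fun ζ => s a ζ - s b ζ) ζ0 :=
        (hsc a).self_of_nhds.sub (hsc b).self_of_nhds
      have h2 : s a ζ0 - s b ζ0 ≠ 0 := sub_ne_zero.mpr (hne a b hab)
      filter_upwards [h1.eventually_ne h2] with ζ h3 _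
      exact sub_ne_zero.mp h3
  have hall : ∀ᶠ ζ in 𝓝 ζ0, (∀ a, ContinuousAt (s a) ζ) ∧ Function.Injective (fun a => s a ζ) ∧
      PtsOf H S ζ = range (fun a => (s a ζ, ty a)) := by
    have hsc' : ∀ᶠ ζ in 𝓝 ζ0, ∀ a, ContinuousAt (s a) ζ := eventually_all.mpr hsc
    filter_upwards [hsc', hne', hg, hconj.eventually hg'] with ζ h1 h2 h3 h4
    refine ⟨h1, ?_, ?_⟩
    · intro a b hab
      by_contra hcon
      exact h2 a b hcon hab
    · ext a
      constructor
      · rintro (⟨z, hz, rfl⟩ | ⟨z, hz, rfl⟩)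
        · obtain ⟨i, rfl⟩ := h3.2.2 z hz
          exact ⟨Sum.inl i, rfl⟩
        · obtain ⟨i, rfl⟩ := h4.2.2 z hz
          exact ⟨Sum.inr i, rfl⟩
      · rintro ⟨(i | i), rfl⟩
        · exact Or.inl ⟨g i ζ, h3.1 i, rfl⟩
        · exact Or.inr ⟨g' i (conj ζ), h4.1 i, rfl⟩
  obtain ⟨δ, hδ, hball⟩ := Metric.eventually_nhds_iff_ball.mp hall
  let e : Fin (2 * n) ≃ Fin n ⊕ Fin n := (finCongr (two_mul n)).trans finSumFinEquiv.symm
  refine ⟨δ, fun i => s (e i), fun i => ty (e i), hδ, ?_, ?_⟩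
  · intro i ζ hζ
    exact ((hball ζ hζ).1 (e i)).continuousWithinAt
  · intro ζ hζ
    obtain ⟨-, h2, h3⟩ := hball ζ hζ
    refine ⟨fun i j hij => e.injective (h2 hij), ?_⟩
    rw [h3]
    exact (e.surjective.range_comp (fun a => (s a ζ, ty a))).symm

end Pool.Agent.HK
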