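import Pool.Agent.H.MP_cd3d06_an.K.D.Count

/-! MP_cd3d06_an, part D: the local family of typed points as analytic functions of `t`: definition. -/

namespace Pool.Agent.HK

open Polynomial Complex Set Metric Filter Topology
open scoped ComplexConjugate

/-- The family `PtsOf H S (ζ0 + t ^ 2)` as typed analytic functions `f i` of `t`; `b i t` is the point of
the source: `H (b i t) = ζ0 + t ^ 2` for type `1`, `H (b i t) = conj (ζ0 + t ^ 2)` for type `0`. -/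
structure Fam (H S : ℂ[X]) (ι : Type) (ζ0 : ℂ) where
  f : ι → ℂ → ℂ
  ty : ι → ZMod 2
  b : ι → ℂ → ℂ
  an : ∀ i, AnalyticAt ℂ (f i) 0
  bc : ∀ i, ContinuousAt (b i) 0
  b1 : ∀ i, ty i = 1 → ∀ᶠ t in 𝓝 (0 : ℂ), H.eval (b i t) = ζ0 + t ^ 2 ∧ f i t = S.eval (b i t)
  b0 : ∀ i, ty i = 0 → ∀ᶠ t in 𝓝 (0 : ℂ), H.eval (b i t) = conj (ζ0 + t ^ 2) ∧
    f i t = -conj (S.eval (b i t))
  inj : ∀ᶠ t in 𝓝[≠] (0 : ℂ), Function.Injective (fun i => f i t)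
  pts : ∀ᶠ t in 𝓝[≠] (0 : ℂ), PtsOf H S (ζ0 + t ^ 2) = range (fun i => (f i t, ty i))
  surj1 : ∀ z, H.eval z = ζ0 → ∃ i, ty i = 1 ∧ b i 0 = z
  surj0 : ∀ z, H.eval z = conj ζ0 → ∃ i, ty i = 0 ∧ b i 0 = z
  two : ∀ i j k, f i 0 = f j 0 → f i 0 = f k 0 → i ≠ j → i ≠ k → j = k
  /-- a pair of coinciding limits: branch pair (the difference is odd with nonzero derivative), or node
  or collision pair (the difference is even) -/
  par : ∀ i j, i ≠ j → f i 0 = f j 0 →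
    (ty i = ty j ∧ b i 0 = b j 0 ∧ H.derivative.eval (b i 0) = 0 ∧
      (∀ᶠ t in 𝓝 (0 : ℂ), f j (-t) - f i (-t) = -(f j t - f i t)) ∧
      deriv (fun t => f j t - f i t) 0 ≠ 0) ∨
    ((ty i ≠ ty j ∨ b i 0 ≠ b j 0) ∧ H.derivative.eval (b i 0) ≠ 0 ∧
      H.derivative.eval (b j 0) ≠ 0 ∧
      ∀ᶠ t in 𝓝 (0 : ℂ), f j (-t) - f i (-t) = f j t - f i t)

/-- transport along an equivalence of the index sets -/
theorem Fam.map {H S : ℂ[X]} {ι κ : Type} {ζ0 : ℂ} (e : κ ≃ ι) (F : Fam H S ι ζ0) :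
    Nonempty (Fam H S κ ζ0) := by
  refine ⟨⟨fun i => F.f (e i), fun i => F.ty (e i), fun i => F.b (e i), fun i => F.an _,
    fun i => F.bc _, fun i => F.b1 _, fun i => F.b0 _, ?_, ?_, ?_, ?_, ?_, ?_⟩⟩
  · filter_upwards [F.inj] with t ht
    exact ht.comp e.injective
  · filter_upwards [F.pts] with t ht
    rw [ht]
    ext a
    constructor
    · rintro ⟨i, rfl⟩
      exact ⟨e.symm i, by simp⟩
    · rintro ⟨i, rfl⟩
      exact ⟨e i, rfl⟩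
  · intro z hz
    obtain ⟨i, hi⟩ := F.surj1 z hz
    exact ⟨e.symm i, by simpa using hi⟩
  · intro z hz
    obtain ⟨i, hi⟩ := F.surj0 z hz
    exact ⟨e.symm i, by simpa using hi⟩
  · intro i j k h1 h2 h3 h4
    exact e.injective (F.two _ _ _ h1 h2 (fun h => h3 (e.injective h)) fun h => h4 (e.injective h))
  · intro i j h1 h2
    exact F.par _ _ (fun h => h1 (e.injective h)) h2

theorem famA_zm (a : ZMod 2) : a = 0 ∨ a = 1 := by
  revert a; decide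

theorem famA_zm2 (a b : ZMod 2) : a = b ∨ (a = 0 ∧ b = 1) ∨ (a = 1 ∧ b = 0) := by
  revert a b; decide

theorem famA_zm3 (a b c : ZMod 2) : a = b ∨ c = a ∨ c = b := by
  revert a b c; decide

theorem famA_conj_eq {a b : ℂ} (h : -conj a = b) : a = -conj b := by
  rw [← h, map_neg, Complex.conj_conj, neg_neg]

/-- two sheets of the same type -/
theorem famA_same {H S : ℂ[X]} {ζ0 : ℂ} {σ : ℂ} {P : Set (ℂ × ZMod 2)}
    (hP1 : ∀ z, (z, 1) ∈ P → H.eval z = ζ0 ∧ S.eval z = σ)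
    (hP0 : ∀ z, (z, 0) ∈ P → H.eval z = conj ζ0 ∧ -conj (S.eval z) = σ)
    {z w : ℂ} {a : ZMod 2} (hz : (z, a) ∈ P) (hw : (w, a) ∈ P) :
    H.eval z = H.eval w ∧ S.eval z = S.eval w := by
  have ha : a = 0 ∨ a = 1 := famA_zm a
  rcases ha with rfl | rfl
  · obtain ⟨h1, h2⟩ := hP0 z hz
    obtain ⟨h3, h4⟩ := hP0 w hw
    exact ⟨h1.trans h3.symm, by rw [famA_conj_eq h2, famA_conj_eq h4]⟩
  · obtain ⟨h1, h2⟩ := hP1 z hz
    obtain ⟨h3, h4⟩ := hP1 w hw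
    exact ⟨h1.trans h3.symm, h2.trans h4.symm⟩

/-- two sheets of different types -/
theorem famA_diff {H S : ℂ[X]} {ζ0 : ℂ} {σ : ℂ} {P : Set (ℂ × ZMod 2)}
    (hP1 : ∀ z, (z, 1) ∈ P → H.eval z = ζ0 ∧ S.eval z = σ)
    (hP0 : ∀ z, (z, 0) ∈ P → H.eval z = conj ζ0 ∧ -conj (S.eval z) = σ)
    {z w : ℂ} {a b : ZMod 2} (hab : a ≠ b) (hz : (z, a) ∈ P) (hw : (w, b) ∈ P) :
    H.eval z = conj (H.eval w) ∧ S.eval z = -conj (S.eval w) := by
  have h : (a = 0 ∧ b = 1) ∨ (a = 1 ∧ b = 0) := (famA_zm2 a b).resolve_left hab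
  rcases h with ⟨rfl, rfl⟩ | ⟨rfl, rfl⟩
  · obtain ⟨h1, h2⟩ := hP0 z hz
    obtain ⟨h3, h4⟩ := hP1 w hw
    exact ⟨by rw [h1, h3], by rw [famA_conj_eq h2, h4]⟩
  · obtain ⟨h1, h2⟩ := hP1 z hz
    obtain ⟨h3, h4⟩ := hP0 w hw
    exact ⟨by rw [h1, h3, Complex.conj_conj], by rw [h2, h4]⟩

/-- No triple coincidences. `i, j, k` are three sheets: types `a, b, c` and base points.

Proof. See `exists_fam`. This is the abstract part: points `z, w, u` with types. -/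
theorem no_triple {p q H S : ℂ[X]} (hG : Gen p q H S) {ζ0 : ℂ} {σ : ℂ} (P : Set (ℂ × ZMod 2))
    (hP1 : ∀ z, (z, 1) ∈ P → H.eval z = ζ0 ∧ S.eval z = σ)
    (hP0 : ∀ z, (z, 0) ∈ P → H.eval z = conj ζ0 ∧ -conj (S.eval z) = σ)
    {x y u : ℂ × ZMod 2} (hx : x ∈ P) (hy : y ∈ P) (hu : u ∈ P) (hxy : x ≠ y) :
    (H.derivative.eval x.1 ≠ 0) ∧ (u = x ∨ u = y) := by
  obtain ⟨z, a⟩ := x
  obtain ⟨w, b⟩ := y
  obtain ⟨v, c⟩ := u
  by_cases hab : a = b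
  · subst hab
    have hzw : z ≠ w := fun h => hxy (by rw [h])
    obtain ⟨h1, h2⟩ := famA_same hP1 hP0 hx hy
    obtain ⟨g1, -, g2⟩ := hG.g2 z w hzw h1 h2
    refine ⟨g1, ?_⟩
    by_cases hca : c = a
    · subst hca
      obtain ⟨h3, h4⟩ := famA_same hP1 hP0 hu hx
      rcases g2 v h3 h4 with h | h
      · exact Or.inl (by rw [h])
      · exact Or.inr (by rw [h])
    · obtain ⟨h3, h4⟩ := famA_diff hP1 hP0 (Ne.symm hca) hx hu
      exact absurd h2.symm ((hG.g3 z v h3 h4).2.2 w (Ne.symm hzw) h1.symm)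
  · obtain ⟨h1, h2⟩ := famA_diff hP1 hP0 hab hx hy
    obtain ⟨h1', h2'⟩ := famA_diff hP1 hP0 (Ne.symm hab) hy hx
    refine ⟨(hG.g3 z w h1 h2).1, ?_⟩
    have hc : c = a ∨ c = b := (famA_zm3 a b c).resolve_left hab
    rcases hc with rfl | rfl
    · left
      by_contra hne
      have hvz : v ≠ z := fun h => hne (by rw [h])
      obtain ⟨h3, h4⟩ := famA_same hP1 hP0 hu hx
      exact (hG.g3 z w h1 h2).2.2 v hvz h3 h4
    · right
      by_contra hne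
      have hvw : v ≠ w := fun h => hne (by rw [h])
      obtain ⟨h3, h4⟩ := famA_same hP1 hP0 hu hy
      exact (hG.g3 w z h1' h2').2.2 v hvw h3 h4

end Pool.Agent.HK
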