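import Pool.Agent.H.MP_cd3d06_an.K.D.Puis
import Pool.Agent.H.MP_cd3d06_an.K.D.FamA

/-! MP_cd3d06_an, part D: existence of the local family. -/

namespace Pool.Agent.HK

open Polynomial Complex Set Metric Filter Topology
open scoped ComplexConjugate

theorem z10 : (1 : ZMod 2) ≠ 0 := by decide

theorem z01 : (0 : ZMod 2) ≠ 1 := by decide

theorem tendsto_neg_zero : Tendsto (fun t : ℂ => -t) (𝓝 0) (𝓝 0) := by
  have h := (continuous_neg (G := ℂ)).tendsto 0
  rwa [neg_zero] at h

theorem tendsto_conj_zero : Tendsto (fun t : ℂ => conj t) (𝓝 0) (𝓝 0) := by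
  have h := Complex.continuous_conj.tendsto 0
  rwa [map_zero] at h

theorem tendsto_conj_ne_zero : Tendsto (fun t : ℂ => conj t) (𝓝[≠] 0) (𝓝[≠] 0) := by
  apply tendsto_nhdsWithin_of_tendsto_nhds_of_eventually_within
  · exact tendsto_conj_zero.mono_left nhdsWithin_le_nhds
  · filter_upwards [self_mem_nhdsWithin] with t ht
    intro h
    apply ht
    exact (map_eq_zero (starRingEnd ℂ)).1 h

/-- facts about a pair of branches with the same base point -/
theorem puis_pair {H S : ℂ[X]} {n : ℕ} {ζ0 : ℂ} (A : Puis H n ζ0)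
    (g1 : ∀ z, H.derivative.eval z = 0 → S.derivative.eval z ≠ 0) {i j : Fin n} (hij : i ≠ j)
    (h0 : A.G i 0 = A.G j 0) :
    H.derivative.eval (A.G i 0) = 0 ∧
      (∀ᶠ t in 𝓝 (0 : ℂ), S.eval (A.G j (-t)) - S.eval (A.G i (-t)) =
        -(S.eval (A.G j t) - S.eval (A.G i t))) ∧
      deriv (fun t => S.eval (A.G j t) - S.eval (A.G i t)) 0 ≠ 0 := by
  have hc : H.derivative.eval (A.G i 0) = 0 := by
    by_contra h
    exact hij (A.inj0 i j h h0.symm).symm
  have hbr := A.br i j hij h0.symm
  refine ⟨hc, ?_, ?_⟩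
  · filter_upwards [hbr, tendsto_neg_zero.eventually hbr] with t h1 h2
    rw [neg_neg] at h2
    rw [h1, h2]
    ring
  · have hd1 : HasDerivAt (A.G i) (deriv (A.G i) 0) 0 := (A.an i).differentiableAt.hasDerivAt
    have hd2 : HasDerivAt (A.G j) (-deriv (A.G i) 0) 0 := by
      have h1 : HasDerivAt (fun t => A.G i (-t)) (deriv (A.G i) 0 * -1) 0 := by
        apply HasDerivAt.comp (0 : ℂ) (h₂ := A.G i) (h := fun t : ℂ => -t)
        · rw [neg_zero]
          exact hd1
        · exact hasDerivAt_neg 0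
      rw [mul_neg, mul_one] at h1
      exact h1.congr_of_eventuallyEq hbr
    have hs1 : HasDerivAt (fun t => S.eval (A.G i t))
        (S.derivative.eval (A.G i 0) * deriv (A.G i) 0) 0 :=
      (S.hasDerivAt (A.G i 0)).comp 0 hd1
    have hs2 : HasDerivAt (fun t => S.eval (A.G j t))
        (S.derivative.eval (A.G j 0) * -deriv (A.G i) 0) 0 :=
      (S.hasDerivAt (A.G j 0)).comp 0 hd2
    have hs3 : HasDerivAt (fun t => S.eval (A.G j t) - S.eval (A.G i t))
        (S.derivative.eval (A.G j 0) * -deriv (A.G i) 0 -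
          S.derivative.eval (A.G i 0) * deriv (A.G i) 0) 0 := hs2.sub hs1
    rw [hs3.deriv, ← h0]
    have e : S.derivative.eval (A.G i 0) * -deriv (A.G i) 0 -
        S.derivative.eval (A.G i 0) * deriv (A.G i) 0 =
        -2 * (S.derivative.eval (A.G i 0) * deriv (A.G i) 0) := by ring
    rw [e]
    exact mul_ne_zero (by norm_num) (mul_ne_zero (g1 _ hc) (A.brd i hc))

theorem eventually_ne_sq (ζ0 v : ℂ) : ∀ᶠ t in 𝓝[≠] (0 : ℂ), ζ0 + t ^ 2 ≠ v := by
  by_cases hv : ζ0 = v
  · filter_upwards [self_mem_nhdsWithin] with t ht h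
    have ht : t ≠ 0 := ht
    rw [hv] at h
    have h1 : t ^ 2 = 0 := by linear_combination h
    exact ht (pow_eq_zero_iff (two_ne_zero) |>.1 h1)
  · apply Filter.Eventually.filter_mono nhdsWithin_le_nhds
    have h1 : Tendsto (fun t : ℂ => ζ0 + t ^ 2) (𝓝 0) (𝓝 (ζ0 + 0 ^ 2)) := by
      have : Continuous (fun t : ℂ => ζ0 + t ^ 2) := by fun_prop
      exact this.tendsto 0
    have h2 : ζ0 + (0 : ℂ) ^ 2 ≠ v := by simpa using hv
    exact h1.eventually_ne h2

/-- The local family of a generic pair.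

Proof. `A = Puis` at `ζ0`, `A'` = `Puis` at `conj ζ0` (`exists_puis`, critical points are simple by
`hG.g1`). Index set `Fin n ⊕ Fin n`; `inl i`: type `1`, `b = A.G i t`, `f = S (A.G i t)`; `inr i`: type `0`,
`b = A'.G i (conj t)`, `f = - conj (S (A'.G i (conj t)))` (analytic: `analyticAt_cc`).
`pts`: by `A.fib` and `A'.fib` (at `conj t`). `inj`: if `f i t = f j t`, `i ≠ j`, for `t` small and `≠ 0`, then
`b i t` is a node (same type: `b i t ≠ b j t` by injectivity in `fib`) or a collision point (different types: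
`H (b i t) = conj (H (b j t))`, `S (b i t) = - conj (S (b j t))`), and these are finitely many
(`hG.fin_nodes`, `hG.fin_coll`); the finitely many values `H z` of these points are different from
`ζ0 + t ^ 2` and from `conj ζ0 + conj t ^ 2` for small `t ≠ 0`.
`par`, same type and same base point: then `H'(b) = 0` by `inj0`, `A.G j t = A.G i (-t)` near `0` by `br`, so
the difference is odd, and its derivative at `0` is `S'(b) * (- 2) * deriv (A.G i) 0 ≠ 0` by `g1`, `brd`.
`par`, other cases, and `two`: `no_triple`; then `H' ≠ 0` at both base points, so `A.G i`, `A.G j` are even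
near `0` (`even`), and so is the difference. `two`: if all base points with types are different use
`no_triple`; if two of the three have the same type and base point, then this base point is a critical
point, the third one has the same base point and type (`no_triple` gives `H' ≠ 0` otherwise), and `br2`. -/
theorem exists_fam {p q H S : ℂ[X]} (hG : Gen p q H S) {n : ℕ} (hn : H.natDegree = n)
    (hn1 : 1 ≤ n) (ζ0 : ℂ) : Nonempty (Fam H S (Fin n ⊕ Fin n) ζ0) := by
  obtain ⟨A⟩ := exists_puis hn hn1 ζ0 fun z _ h => (hG.g1 z h).1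
  obtain ⟨A'⟩ := exists_puis hn hn1 (conj ζ0) fun z _ h => (hG.g1 z h).1
  have g1S : ∀ z, H.derivative.eval z = 0 → S.derivative.eval z ≠ 0 := fun z h => (hG.g1 z h).2.1
  -- the data
  let ty : Fin n ⊕ Fin n → ZMod 2 := Sum.elim (fun _ => 1) (fun _ => 0)
  let b : Fin n ⊕ Fin n → ℂ → ℂ := Sum.elim (fun i t => A.G i t) (fun i t => A'.G i (conj t))
  let f : Fin n ⊕ Fin n → ℂ → ℂ := Sum.elim (fun i t => S.eval (A.G i t))
    (fun i t => -conj (S.eval (A'.G i (conj t))))
  have hS : ∀ z, AnalyticAt ℂ (fun z => S.eval z) z := fun z =>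
    AnalyticOnNhd.eval_polynomial S z (mem_univ z)
  have hSA : ∀ i, AnalyticAt ℂ (fun t => S.eval (A.G i t)) 0 := fun i =>
    AnalyticAt.fun_comp (g := fun z => S.eval z) (hS _) (A.an i)
  have hSA' : ∀ i, AnalyticAt ℂ (fun t => S.eval (A'.G i t)) 0 := fun i =>
    AnalyticAt.fun_comp (g := fun z => S.eval z) (hS _) (A'.an i)
  have hcs : ∀ t : ℂ, conj ζ0 + conj t ^ 2 = conj (ζ0 + t ^ 2) := by
    intro t
    rw [map_add, map_pow]
  have eq1 : ∀ i, ∀ᶠ t in 𝓝 (0 : ℂ), H.eval (A.G i t) = ζ0 + t ^ 2 := A.eq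
  have eq0 : ∀ i, ∀ᶠ t in 𝓝 (0 : ℂ), H.eval (A'.G i (conj t)) = conj (ζ0 + t ^ 2) := by
    intro i
    filter_upwards [tendsto_conj_zero.eventually (A'.eq i)] with t ht
    rw [ht, hcs]
  -- the points at `0`
  have hH1 : ∀ i, H.eval (A.G i 0) = ζ0 := by
    intro i
    have := (A.eq i).self_of_nhds
    simpa using this
  have hH0 : ∀ i, H.eval (A'.G i 0) = conj ζ0 := by
    intro i
    have := (A'.eq i).self_of_nhds
    simpa using this
  let pt : Fin n ⊕ Fin n → ℂ × ZMod 2 := fun i => (b i 0, ty i)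
  have hpt : ∀ i j, i ≠ j → pt i = pt j → H.derivative.eval (b i 0) = 0 ∧
      ∀ k, i ≠ k → pt i = pt k → j = k := by
    rintro (i | i) (j | j) hij h
    · have h1 : A.G i 0 = A.G j 0 := congrArg Prod.fst h
      have hij' : i ≠ j := fun h => hij (by rw [h])
      refine ⟨(puis_pair A g1S hij' h1).1, ?_⟩
      rintro (k | k) hik hk
      · have h2 : A.G i 0 = A.G k 0 := congrArg Prod.fst hk
        have hik' : i ≠ k := fun h => hik (by rw [h])
        rw [A.br2 i j k hij' hik' h1.symm h2.symm]
      · exact absurd (congrArg Prod.snd hk) z10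
    · exact absurd (congrArg Prod.snd h) z10
    · exact absurd (congrArg Prod.snd h) z01
    · have h1 : A'.G i 0 = A'.G j 0 := by
        have : A'.G i (conj 0) = A'.G j (conj 0) := congrArg Prod.fst h
        rwa [map_zero] at this
      have hij' : i ≠ j := fun h => hij (by rw [h])
      refine ⟨?_, ?_⟩
      · show H.derivative.eval (A'.G i (conj 0)) = 0
        rw [map_zero]
        exact (puis_pair A' g1S hij' h1).1
      rintro (k | k) hik hk
      · exact absurd (congrArg Prod.snd hk) z01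
      · have h2 : A'.G i 0 = A'.G k 0 := by
          have : A'.G i (conj 0) = A'.G k (conj 0) := congrArg Prod.fst hk
          rwa [map_zero] at this
        have hik' : i ≠ k := fun h => hik (by rw [h])
        rw [A'.br2 i j k hij' hik' h1.symm h2.symm]
  have hnt : ∀ i j k, f i 0 = f j 0 → f i 0 = f k 0 → pt i ≠ pt j →
      H.derivative.eval (b i 0) ≠ 0 ∧ (pt k = pt i ∨ pt k = pt j) := by
    intro i j k h1 h2 h3
    let P : Set (ℂ × ZMod 2) := {x | (x.2 = 1 → H.eval x.1 = ζ0 ∧ S.eval x.1 = f i 0) ∧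
      (x.2 = 0 → H.eval x.1 = conj ζ0 ∧ -conj (S.eval x.1) = f i 0)}
    have hmem : ∀ l, f i 0 = f l 0 → pt l ∈ P := by
      rintro (l | l) hl
      · refine ⟨fun _ => ⟨hH1 l, hl.symm⟩, fun h => ?_⟩
        exact absurd h (by show (1 : ZMod 2) ≠ 0; decide)
      · refine ⟨fun h => ?_, fun _ => ⟨?_, hl.symm⟩⟩
        · exact absurd h (by show (0 : ZMod 2) ≠ 1; decide)
        · show H.eval (A'.G l (conj 0)) = conj ζ0
          rw [map_zero]
          exact hH0 l
    exact no_triple hG (ζ0 := ζ0) (σ := f i 0) P (fun z hz => hz.1 rfl) (fun z hz => hz.2 rfl)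
      (hmem i rfl) (hmem j h1) (hmem k h2) h3
  have hev : ∀ i, H.derivative.eval (b i 0) ≠ 0 → ∀ᶠ t in 𝓝 (0 : ℂ), f i (-t) = f i t := by
    rintro (i | i) hi
    · filter_upwards [A.even i hi] with t ht
      show S.eval (A.G i (-t)) = S.eval (A.G i t)
      rw [ht]
    · have hi' : H.derivative.eval (A'.G i (conj 0)) ≠ 0 := hi
      rw [map_zero] at hi'
      filter_upwards [tendsto_conj_zero.eventually (A'.even i hi')] with t ht
      show -conj (S.eval (A'.G i (conj (-t)))) = -conj (S.eval (A'.G i (conj t)))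
      rw [map_neg, ht]
  refine ⟨⟨f, ty, b, ?_, ?_, ?_, ?_, ?_, ?_, ?_, ?_, ?_, ?_⟩⟩
  · rintro (i | i)
    · exact hSA i
    · have h1 : AnalyticAt ℂ (fun t => S.eval (A'.G i t)) (conj 0) := by
        rw [map_zero]
        exact hSA' i
      exact (analyticAt_cc h1).neg
  · rintro (i | i)
    · exact (A.an i).continuousAt
    · have h1 : ContinuousAt (A'.G i) (conj 0) := by
        rw [map_zero]
        exact (A'.an i).continuousAt
      exact ContinuousAt.comp (f := fun t : ℂ => conj t) h1 Complex.continuous_conj.continuousAt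
  · rintro (i | i) hi
    · filter_upwards [eq1 i] with t ht
      exact ⟨ht, rfl⟩
    · exact absurd hi (by show (0 : ZMod 2) ≠ 1; decide)
  · rintro (i | i) hi
    · exact absurd hi (by show (1 : ZMod 2) ≠ 0; decide)
    · filter_upwards [eq0 i] with t ht
      exact ⟨ht, rfl⟩
  · -- injectivity
    have hV : ∀ᶠ t in 𝓝[≠] (0 : ℂ),
        (∀ z, (∃ w, w ≠ z ∧ H.eval w = H.eval z ∧ S.eval w = S.eval z) →
          ζ0 + t ^ 2 ≠ H.eval z ∧ ζ0 + t ^ 2 ≠ conj (H.eval z)) ∧
        (∀ z, (∃ w, H.eval z = conj (H.eval w) ∧ S.eval z = -conj (S.eval w)) →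
          ζ0 + t ^ 2 ≠ H.eval z ∧ ζ0 + t ^ 2 ≠ conj (H.eval z)) := by
      apply Filter.Eventually.and
      · have := (eventually_all_finite hG.fin_nodes
          (p := fun z t => ζ0 + t ^ 2 ≠ H.eval z ∧ ζ0 + t ^ 2 ≠ conj (H.eval z))
          (l := 𝓝[≠] (0 : ℂ))).2 fun z _ => (eventually_ne_sq _ _).and (eventually_ne_sq _ _)
        exact this
      · have := (eventually_all_finite hG.fin_coll
          (p := fun z t => ζ0 + t ^ 2 ≠ H.eval z ∧ ζ0 + t ^ 2 ≠ conj (H.eval z))
          (l := 𝓝[≠] (0 : ℂ))).2 fun z _ => (eventually_ne_sq _ _).and (eventually_ne_sq _ _)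
        exact this
    have hE1 : ∀ᶠ t in 𝓝[≠] (0 : ℂ), ∀ i, H.eval (A.G i t) = ζ0 + t ^ 2 := by
      rw [eventually_all]
      intro i
      exact (eq1 i).filter_mono nhdsWithin_le_nhds
    have hE0 : ∀ᶠ t in 𝓝[≠] (0 : ℂ), ∀ i, H.eval (A'.G i (conj t)) = conj (ζ0 + t ^ 2) := by
      rw [eventually_all]
      intro i
      exact (eq0 i).filter_mono nhdsWithin_le_nhds
    filter_upwards [hV, hE1, hE0, A.fib, tendsto_conj_ne_zero.eventually A'.fib] with
      t hV h1 h0 hf1 hf0
    rintro (i | i) (j | j) hij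
    · have hij : S.eval (A.G i t) = S.eval (A.G j t) := hij
      by_cases h : A.G i t = A.G j t
      · rw [hf1.1 h]
      · exfalso
        refine (hV.1 (A.G j t) ⟨A.G i t, h, ?_, hij⟩).1 ?_
        · rw [h1, h1]
        · rw [h1]
    · exfalso
      have hij : S.eval (A.G i t) = -conj (S.eval (A'.G j (conj t))) := hij
      refine (hV.2 (A.G i t) ⟨A'.G j (conj t), ?_, hij⟩).1 ?_
      · rw [h1, h0, Complex.conj_conj]
      · rw [h1]
    · exfalso
      have hij : -conj (S.eval (A'.G i (conj t))) = S.eval (A.G j t) := hij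
      refine (hV.2 (A.G j t) ⟨A'.G i (conj t), ?_, hij.symm⟩).1 ?_
      · rw [h1, h0, Complex.conj_conj]
      · rw [h1]
    · have hij : -conj (S.eval (A'.G i (conj t))) = -conj (S.eval (A'.G j (conj t))) := hij
      have hij' : S.eval (A'.G i (conj t)) = S.eval (A'.G j (conj t)) :=
        (starRingEnd ℂ).injective (neg_injective hij)
      by_cases h : A'.G i (conj t) = A'.G j (conj t)
      · rw [hf0.1 h]
      · exfalso
        refine (hV.1 (A'.G j (conj t)) ⟨A'.G i (conj t), h, ?_, hij'⟩).2 ?_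
        · rw [h0, h0]
        · rw [h0, Complex.conj_conj]
  · -- the points
    have hE1 : ∀ᶠ t in 𝓝[≠] (0 : ℂ), ∀ i, H.eval (A.G i t) = ζ0 + t ^ 2 := by
      rw [eventually_all]
      intro i
      exact (eq1 i).filter_mono nhdsWithin_le_nhds
    have hE0 : ∀ᶠ t in 𝓝[≠] (0 : ℂ), ∀ i, H.eval (A'.G i (conj t)) = conj (ζ0 + t ^ 2) := by
      rw [eventually_all]
      intro i
      exact (eq0 i).filter_mono nhdsWithin_le_nhds
    filter_upwards [hE1, hE0, A.fib, tendsto_conj_ne_zero.eventually A'.fib] with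
      t h1 h0 hf1 hf0
    ext a
    constructor
    · rintro (⟨z, hz, rfl⟩ | ⟨z, hz, rfl⟩)
      · obtain ⟨i, rfl⟩ := hf1.2 z hz
        exact ⟨Sum.inl i, rfl⟩
      · obtain ⟨i, rfl⟩ := hf0.2 z (by rw [hz, hcs])
        exact ⟨Sum.inr i, rfl⟩
    · rintro ⟨(i | i), rfl⟩
      · exact Or.inl ⟨A.G i t, h1 i, rfl⟩
      · exact Or.inr ⟨A'.G i (conj t), h0 i, rfl⟩
  · intro z hz
    obtain ⟨i, hi⟩ := A.surj z hz
    exact ⟨Sum.inl i, rfl, hi⟩
  · intro z hz
    obtain ⟨i, hi⟩ := A'.surj z hz
    refine ⟨Sum.inr i, rfl, ?_⟩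
    show A'.G i (conj 0) = z
    rw [map_zero]
    exact hi
  · -- two
    intro i j k h1 h2 hij hik
    by_cases hxy : pt i = pt j
    · obtain ⟨h3, h4⟩ := hpt i j hij hxy
      by_cases hxu : pt i = pt k
      · exact h4 k hik hxu
      · exact absurd h3 (hnt i k j h2 h1 hxu).1
    · obtain ⟨h3, h4⟩ := hnt i j k h1 h2 hxy
      rcases h4 with h4 | h4
      · exact absurd (hpt i k hik h4.symm).1 h3
      · by_contra hjk
        have h5 := (hpt j k hjk h4.symm).1
        exact (hnt j i k h1.symm (h1.symm.trans h2) (Ne.symm hxy)).1 h5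
  · -- pairs
    intro i j hij h0
    by_cases hxy : pt i = pt j
    · left
      obtain ⟨h3, -⟩ := hpt i j hij hxy
      refine ⟨congrArg Prod.snd hxy, congrArg Prod.fst hxy, h3, ?_⟩
      rcases i with i | i <;> rcases j with j | j
      · have h1 : A.G i 0 = A.G j 0 := congrArg Prod.fst hxy
        have hij' : i ≠ j := fun h => hij (by rw [h])
        exact (puis_pair A g1S hij' h1).2
      · exact absurd (congrArg Prod.snd hxy) z10
      · exact absurd (congrArg Prod.snd hxy) z01
      · have h1 : A'.G i 0 = A'.G j 0 := by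
          have : A'.G i (conj 0) = A'.G j (conj 0) := congrArg Prod.fst hxy
          rwa [map_zero] at this
        have hij' : i ≠ j := fun h => hij (by rw [h])
        obtain ⟨-, h4, h5⟩ := puis_pair A' g1S hij' h1
        constructor
        · filter_upwards [tendsto_conj_zero.eventually h4] with t ht
          show -conj (S.eval (A'.G j (conj (-t)))) - -conj (S.eval (A'.G i (conj (-t)))) =
            -(-conj (S.eval (A'.G j (conj t))) - -conj (S.eval (A'.G i (conj t))))
          have h6 := congrArg (starRingEnd ℂ) ht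
          rw [map_sub, map_neg, map_sub] at h6
          rw [map_neg]
          linear_combination -h6
        · have h6 : HasDerivAt (fun t => S.eval (A'.G j t) - S.eval (A'.G i t))
              (deriv (fun t => S.eval (A'.G j t) - S.eval (A'.G i t)) 0) 0 :=
            ((hSA' j).differentiableAt.sub (hSA' i).differentiableAt).hasDerivAt
          have h7 : HasDerivAt (fun t => S.eval (A'.G j t) - S.eval (A'.G i t))
              (deriv (fun t => S.eval (A'.G j t) - S.eval (A'.G i t)) 0) (conj 0) := by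
            rw [map_zero]
            exact h6
          have h8 := h7.conj_conj
          rw [map_zero (starRingEnd ℂ), map_zero (starRingEnd ℂ)] at h8
          have h9 : HasDerivAt (fun t => f (Sum.inr j) t - f (Sum.inr i) t)
              (-conj (deriv (fun t => S.eval (A'.G j t) - S.eval (A'.G i t)) 0)) 0 := by
            apply h8.neg.congr_of_eventuallyEq
            filter_upwards with t
            show -conj (S.eval (A'.G j (conj t))) - -conj (S.eval (A'.G i (conj t))) =
              -conj (S.eval (A'.G j (conj t)) - S.eval (A'.G i (conj t)))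
            rw [map_sub]
            ring
          rw [h9.deriv]
          intro h10
          rw [neg_eq_zero, map_eq_zero] at h10
          exact h5 h10
    · right
      have h3 := (hnt i j i h0 rfl hxy).1
      have h4 := (hnt j i j h0.symm rfl (Ne.symm hxy)).1
      refine ⟨?_, h3, h4, ?_⟩
      · by_contra h5
        rw [not_or, not_not, not_not] at h5
        exact hxy (Prod.ext h5.2 h5.1)
      · filter_upwards [hev i h3, hev j h4] with t h5 h6
        rw [h5, h6]

theorem exists_fam' {p q H S : ℂ[X]} (hG : Gen p q H S) {n : ℕ} (hn : H.natDegree = n)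
    (hn1 : 1 ≤ n) (ζ0 : ℂ) : Nonempty (Fam H S (Fin (2 * n)) ζ0) := by
  obtain ⟨F⟩ := exists_fam hG hn hn1 ζ0
  exact F.map ((finCongr (by ring)).trans finSumFinEquiv.symm)

end Pool.Agent.HK
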