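import Pool.Agent.H.MP_cd3d06_an.K.D.FamA
import Pool.Agent.H.MP_cd3d06_an.K.D.ArgT

/-! MP_cd3d06_an, part D: from the analytic family to the local model `LMod`. -/

namespace Pool.Agent.HK

open Polynomial Complex Set Metric Filter Topology
open scoped ComplexConjugate

variable {H S : ℂ[X]} {n : ℕ} {ζ0 : ℂ}

/-- the difference of two sections -/
def Fam.dif (F : Fam H S (Fin (2 * n)) ζ0) (i j : Fin (2 * n)) (t : ℂ) : ℂ := F.f j t - F.f i t

theorem eventually_tt_nhds {P : ℂ → Prop} (h : ∀ᶠ t in 𝓝 (0 : ℂ), P t) :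
    ∀ᶠ δ in 𝓝[>] (0 : ℝ), ∀ ρ ∈ Ioo 0 δ, ∀ φ : ℝ, P (tt ρ φ) := by
  obtain ⟨r, hr, h1⟩ := Metric.eventually_nhds_iff.mp h
  have h2 : ∀ᶠ δ in 𝓝[>] (0 : ℝ), δ < r ^ 2 :=
    mem_nhdsWithin_of_mem_nhds (Iio_mem_nhds (by positivity))
  filter_upwards [h2] with δ hδ ρ hρ φ
  apply h1
  rw [dist_zero_right, norm_tt]
  calc Real.sqrt ρ < Real.sqrt (r ^ 2) := Real.sqrt_lt_sqrt hρ.1.le (hρ.2.trans hδ)
    _ = r := Real.sqrt_sq hr.le

theorem eventually_tt_ne {P : ℂ → Prop} (h : ∀ᶠ t in 𝓝[≠] (0 : ℂ), P t) :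
    ∀ᶠ δ in 𝓝[>] (0 : ℝ), ∀ ρ ∈ Ioo 0 δ, ∀ φ : ℝ, P (tt ρ φ) := by
  rw [eventually_nhdsWithin_iff] at h
  filter_upwards [eventually_tt_nhds h] with δ hδ ρ hρ φ
  exact hδ ρ hρ φ (tt_ne_zero hρ.1 φ)

theorem Fam.exists_darg (F : Fam H S (Fin (2 * n)) ζ0) {i j : Fin (2 * n)} (hij : i ≠ j)
    (h0 : F.f i 0 = F.f j 0) : ∃ (k : ℕ) (c : ℂ), DArg (F.dif i j) k c := by
  apply darg
  · exact (F.an j).sub (F.an i)
  · filter_upwards [F.inj] with t ht h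
    exact hij (ht (sub_eq_zero.mp h).symm)
  · rcases F.par i j hij h0 with h | h
    · right
      exact h.2.2.2.1
    · left
      exact h.2.2.2

/-- The local model.

Proof. The pairs: `P = {(i, j) : i < j, f i 0 = f j 0}`, `np = P.card`, `x a = (e a).1`, `y a = (e a).2` with
`e : Fin np ≃ P` (`Finset.equivFin`). For each pair the difference `D = F.dif i j` satisfies `darg`: analytic,
`D t ≠ 0` for small `t ≠ 0` by `F.inj`, odd or even near `0` by `F.par`; this gives `k a`, `c a` (choice) and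
`θ a = thet D (k a) (c a)`. `s i ρ φ = F.f i (tt ρ φ)`, `S0 i = F.f i 0`. `δ`: so small that for all `t` with
`0 < ‖t‖ < sqrt δ` `F.inj`, `F.pts` hold, that `F.f i` is continuous on `ball 0 (sqrt δ)`, that
`DArg.loc` holds for all pairs, and that `ev ρ` holds for `0 < ρ < δ`. `inj`, `pts` (`pol_eq`, `norm_tt`), `cont`
(`continuous_tt`), `lim` (continuity of `F.f i` at `0`, `‖tt ρ φ‖ = sqrt ρ`), `θcont`, `θarg`, `θper` from
`DArg.loc`. `xinj, yinj, xy, S0inj` from `F.two` and `x a < y a`. -/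
theorem Fam.exists_lmod (F : Fam H S (Fin (2 * n)) ζ0) (ev : ℝ → Prop)
    (hev : ∀ᶠ ρ in 𝓝[>] (0 : ℝ), ev ρ) :
    ∃ L : LMod n (PtsOf H S) ζ0, L.ty = F.ty ∧ (∀ i, L.S0 i = F.f i 0) ∧
      (∀ ρ ∈ Ioo 0 L.δ, ev ρ) ∧
      (∀ i j, i < j → F.f i 0 = F.f j 0 → ∃ a, L.x a = i ∧ L.y a = j) ∧
      ∀ a, L.x a < L.y a ∧ F.f (L.x a) 0 = F.f (L.y a) 0 ∧
        ∃ c : ℂ, DArg (F.dif (L.x a) (L.y a)) (L.k a) c ∧
          L.θ a = thet (F.dif (L.x a) (L.y a)) (L.k a) c ∧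
          ∀ ρ ∈ Ioo 0 L.δ, ∀ φ : ℝ,
            ‖F.dif (L.x a) (L.y a) (tt ρ φ) / (c * tt ρ φ ^ (L.k a)) - 1‖ < 1 := by
  classical
  let P : Finset (Fin (2 * n) × Fin (2 * n)) :=
    Finset.univ.filter fun p => p.1 < p.2 ∧ F.f p.1 0 = F.f p.2 0
  have hP : ∀ p : Fin (2 * n) × Fin (2 * n), p ∈ P ↔ p.1 < p.2 ∧ F.f p.1 0 = F.f p.2 0 := by
    intro p
    simp [P]
  have hk : ∀ p : P, ∃ (k : ℕ) (c : ℂ), DArg (F.dif p.1.1 p.1.2) k c := by
    intro p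
    have h1 := (hP p.1).1 p.2
    exact F.exists_darg h1.1.ne h1.2
  choose k c hkc using hk
  -- the radius
  have e1 : ∀ᶠ δ in 𝓝[>] (0 : ℝ), ∀ ρ ∈ Ioo 0 δ, ev ρ := by
    obtain ⟨u, hu, h1⟩ := mem_nhdsGT_iff_exists_Ioo_subset.1 hev
    have h2 : ∀ᶠ δ in 𝓝[>] (0 : ℝ), δ < u := mem_nhdsWithin_of_mem_nhds (Iio_mem_nhds hu)
    filter_upwards [h2] with δ hδ ρ hρ
    exact h1 ⟨hρ.1, hρ.2.trans hδ⟩
  have e2 := eventually_tt_ne F.inj
  have e3 := eventually_tt_ne F.pts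
  have e4 : ∀ᶠ δ in 𝓝[>] (0 : ℝ), ∀ ρ ∈ Ioo 0 δ, ∀ φ : ℝ, ∀ i, ContinuousAt (F.f i) (tt ρ φ) := by
    apply eventually_tt_nhds (P := fun t => ∀ i, ContinuousAt (F.f i) t)
    rw [eventually_all]
    intro i
    exact (F.an i).eventually_analyticAt.mono fun t ht => ht.continuousAt
  have e5 : ∀ᶠ δ in 𝓝[>] (0 : ℝ), ∀ p : P,
      ContinuousOn (fun u : ℝ × ℝ => thet (F.dif p.1.1 p.1.2) (k p) (c p) u.1 u.2)
        (Ioo 0 δ ×ˢ univ) ∧
      ∀ ρ ∈ Ioo 0 δ, ∀ φ : ℝ,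
        F.dif p.1.1 p.1.2 (tt ρ φ) = (‖F.dif p.1.1 p.1.2 (tt ρ φ)‖ : ℂ) *
          Complex.exp (thet (F.dif p.1.1 p.1.2) (k p) (c p) ρ φ * Complex.I) ∧
        thet (F.dif p.1.1 p.1.2) (k p) (c p) ρ (φ + 2 * Real.pi) =
          thet (F.dif p.1.1 p.1.2) (k p) (c p) ρ φ + (k p) * Real.pi ∧
        ‖F.dif p.1.1 p.1.2 (tt ρ φ) / (c p * tt ρ φ ^ (k p)) - 1‖ < 1 := by
    rw [eventually_all]
    intro p
    exact (hkc p).loc
  obtain ⟨δ, ⟨⟨⟨⟨⟨d1, d2⟩, d3⟩, d4⟩, d5⟩, d0⟩⟩ :=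
    (((((e1.and e2).and e3).and e4).and e5).and self_mem_nhdsWithin).exists
  have d0 : 0 < δ := d0
  let e : P ≃ Fin P.card := P.equivFin
  have hlt : ∀ a : Fin P.card, (e.symm a).1.1 < (e.symm a).1.2 ∧
      F.f (e.symm a).1.1 0 = F.f (e.symm a).1.2 0 := fun a => (hP _).1 (e.symm a).2
  have hinj : ∀ a b : Fin P.card, (e.symm a).1.1 = (e.symm b).1.1 →
      (e.symm a).1.2 = (e.symm b).1.2 → a = b := by
    intro a b h1 h2
    apply e.symm.injective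
    apply Subtype.ext
    exact Prod.ext h1 h2
  refine ⟨{ δ := δ
            hδ := d0
            s := fun i ρ φ => F.f i (tt ρ φ)
            ty := F.ty
            S0 := fun i => F.f i 0
            np := P.card
            x := fun a => (e.symm a).1.1
            y := fun a => (e.symm a).1.2
            k := fun a => k (e.symm a)
            θ := fun a => thet (F.dif (e.symm a).1.1 (e.symm a).1.2) (k (e.symm a)) (c (e.symm a))
            cont := ?_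
            inj := ?_
            pts := ?_
            lim := ?_
            xinj := ?_
            yinj := ?_
            xy := ?_
            S0xy := ?_
            S0inj := ?_
            θcont := ?_
            θarg := ?_
            θper := ?_ }, rfl, fun _ => rfl, d1, ?_, ?_⟩
  · rintro i ⟨ρ, φ⟩ ⟨hρ, -⟩
    apply ContinuousAt.continuousWithinAt
    exact ContinuousAt.comp (f := fun v : ℝ × ℝ => tt v.1 v.2) (x := (ρ, φ)) (d4 ρ hρ φ i)
      continuous_tt.continuousAt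
  · intro ρ hρ φ
    exact d2 ρ hρ φ
  · intro ρ hρ φ
    rw [pol_eq ζ0 hρ.1.le φ]
    exact d3 ρ hρ φ
  · intro ε hε
    have h1 : ∀ᶠ t in 𝓝 (0 : ℂ), ∀ i, dist (F.f i t) (F.f i 0) < ε := by
      rw [eventually_all]
      intro i
      exact (F.an i).continuousAt.eventually (Metric.ball_mem_nhds _ hε)
    obtain ⟨δ', ⟨h2, h3⟩⟩ := ((eventually_tt_nhds h1).and self_mem_nhdsWithin).exists
    exact ⟨δ', h3, fun ρ hρ _ φ i => h2 ρ hρ φ i⟩
  · intro a b hab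
    have hab' : (e.symm a).1.1 = (e.symm b).1.1 := hab
    apply hinj a b hab
    apply F.two (e.symm a).1.1 (e.symm a).1.2 (e.symm b).1.2 (hlt a).2
    · rw [hab']
      exact (hlt b).2
    · exact (hlt a).1.ne
    · rw [hab']
      exact (hlt b).1.ne
  · intro a b hab
    have hab' : (e.symm a).1.2 = (e.symm b).1.2 := hab
    apply hinj a b _ hab
    apply F.two (e.symm a).1.2 (e.symm a).1.1 (e.symm b).1.1 (hlt a).2.symm
    · rw [hab']
      exact (hlt b).2.symm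
    · exact (hlt a).1.ne'
    · rw [hab']
      exact (hlt b).1.ne'
  · intro a b hab
    have hab' : (e.symm a).1.1 = (e.symm b).1.2 := hab
    have h1 := F.two (e.symm a).1.1 (e.symm a).1.2 (e.symm b).1.1 (hlt a).2
      (by rw [hab']; exact (hlt b).2.symm) (hlt a).1.ne (by rw [hab']; exact (hlt b).1.ne')
    have h2 := (hlt a).1
    have h3 := (hlt b).1
    rw [hab', h1] at h2
    exact absurd (h2.trans h3) (lt_irrefl _)
  · intro a
    exact (hlt a).2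
  · intro i j hij
    have hij : F.f i 0 = F.f j 0 := hij
    rcases lt_trichotomy i j with h | h | h
    · right
      refine ⟨e ⟨(i, j), (hP _).2 ⟨h, hij⟩⟩, Or.inl ?_⟩
      simp
    · exact Or.inl h
    · right
      refine ⟨e ⟨(j, i), (hP _).2 ⟨h, hij.symm⟩⟩, Or.inr ?_⟩
      simp
  · intro a
    exact (d5 (e.symm a)).1
  · intro a ρ hρ φ
    exact ((d5 (e.symm a)).2 ρ hρ φ).1
  · intro a ρ hρ φ
    exact ((d5 (e.symm a)).2 ρ hρ φ).2.1
  · intro i j hij h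
    refine ⟨e ⟨(i, j), (hP _).2 ⟨hij, h⟩⟩, ?_⟩
    simp
  · intro a
    exact ⟨(hlt a).1, (hlt a).2, c (e.symm a), hkc (e.symm a), rfl,
      fun ρ hρ φ => ((d5 (e.symm a)).2 ρ hρ φ).2.2⟩

end Pool.Agent.HK
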