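import Pool.Agent.H.MP_cd3d06_an.K.D.Node
import Pool.Agent.H.MP_cd3d06_an.K.D.Fam
import Pool.Agent.H.MP_cd3d06_an.K.D.Mod

/-! MP_cd3d06_an, part D: special parameters in the open upper half plane. -/

namespace Pool.Agent.HK

open Polynomial Complex Set Metric Filter Topology
open scoped ComplexConjugate

/-- Summing over disjoint pairs of base points.

Proof. The finsets `{b (x a), b (y a)}`, `a ∈ A`, are pairwise disjoint (`hdis`), contained in `B`;
`Finset.sum_biUnion`, `Finset.sum_le_sum_of_subset`, and `k a ≤ ∑ over the finset`. -/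
theorem sum_pairs_le_ord {ι : Type} [DecidableEq ι] (A : Finset ι) (B : Finset ℂ) (w : ℂ → ℕ)
    (k : ι → ℕ) (E : ι → Finset ℂ) (hE : ∀ a ∈ A, E a ⊆ B)
    (hdis : ∀ a ∈ A, ∀ a' ∈ A, a ≠ a' → Disjoint (E a) (E a'))
    (hk : ∀ a ∈ A, k a ≤ ∑ z ∈ E a, w z) :
    ∑ a ∈ A, k a ≤ ∑ z ∈ B, w z := by
  calc ∑ a ∈ A, k a ≤ ∑ a ∈ A, ∑ z ∈ E a, w z := Finset.sum_le_sum hk
    _ = ∑ z ∈ A.biUnion E, w z := (Finset.sum_biUnion hdis).symm
    _ ≤ ∑ z ∈ B, w z := Finset.sum_le_sum_of_subset (Finset.biUnion_subset.2 hE)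

/-- the values at `t = 0` -/
theorem Fam.at_zero {H S : ℂ[X]} {n : ℕ} {ζ0 : ℂ} (F : Fam H S (Fin (2 * n)) ζ0) (i : Fin (2 * n)) :
    (F.ty i = 1 ∧ H.eval (F.b i 0) = ζ0 ∧ F.f i 0 = S.eval (F.b i 0)) ∨
      (F.ty i = 0 ∧ H.eval (F.b i 0) = conj ζ0 ∧ F.f i 0 = -conj (S.eval (F.b i 0))) := by
  rcases zmod2_cases (F.ty i) with h | h
  · right
    obtain ⟨h1, h2⟩ := (F.b0 i h).self_of_nhds
    refine ⟨h, ?_, h2⟩
    rw [h1]; simp
  · left
    obtain ⟨h1, h2⟩ := (F.b1 i h).self_of_nhds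
    refine ⟨h, ?_, h2⟩
    rw [h1]; simp

/-- over a nonreal parameter the base point determines the type and the value -/
theorem Fam.f_eq_of_b {H S : ℂ[X]} {n : ℕ} {ζ0 : ℂ} (F : Fam H S (Fin (2 * n)) ζ0)
    (h0 : 0 < ζ0.im) {i j : Fin (2 * n)} (hb : F.b i 0 = F.b j 0) : F.f i 0 = F.f j 0 := by
  have hne : ζ0 ≠ conj ζ0 := by
    intro h
    have h1 : ζ0.im = (conj ζ0).im := by rw [← h]
    rw [Complex.conj_im] at h1
    linarith
  rcases F.at_zero i with ⟨-, h1, h2⟩ | ⟨-, h1, h2⟩ <;> rcases F.at_zero j with ⟨-, h3, h4⟩ | ⟨-, h3, h4⟩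
  · rw [h2, h4, hb]
  · exact absurd (h1.symm.trans (hb ▸ h3)) hne
  · exact absurd (h3.symm.trans (hb ▸ h1)) hne
  · rw [h2, h4, hb]

/-- two pairs with the same limit point are equal -/
theorem Fam.pair_unique {H S : ℂ[X]} {n : ℕ} {ζ0 : ℂ} (F : Fam H S (Fin (2 * n)) ζ0)
    {i j i' j' : Fin (2 * n)} (h1 : i < j) (h2 : F.f i 0 = F.f j 0) (h1' : i' < j')
    (h2' : F.f i' 0 = F.f j' 0) (h : F.f i 0 = F.f i' 0) : i = i' := by
  have key : ∀ u, F.f i 0 = F.f u 0 → u = i ∨ u = j := by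
    intro u hu
    by_cases hui : u = i
    · exact Or.inl hui
    · exact Or.inr (F.two i j u h2 hu h1.ne (Ne.symm hui)).symm
  rcases key i' h with h3 | h3
  · exact h3.symm
  · rcases key j' (h.trans h2') with h4 | h4
    · rw [h3, h4] at h1'
      exact absurd h1' (lt_asymm h1)
    · rw [h3, h4] at h1'
      exact absurd h1' (lt_irrefl _)

/-- Special parameters.

Proof. `F` from `exists_fam'`, `L` from `F.exists_lmod` (with `ev = True`). Let `a` be a pair, `i = x a`,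
`j = y a`, `DArg` for the difference. `F.par i j`:
branch pair (same type, same base point `z`, `H' z = 0`): `k a = 1` by `DArg.one` (the difference is `0` at
`0`), odd; `1 ≤ R.rootMultiplicity z` (`hR.branch`, `hR.ne`) and `1 ≤ H.derivative.rootMultiplicity z`;
`E a = {z}`. Otherwise the difference is even, `k a = 2 l` by `DArg.even`; if the types are equal then the base
points are different and `F.node_le` for `(i, j)` and for `(j, i)` (with `DArg.bd`) gives
`l ≤ R.rootMultiplicity (b i 0)`, `l ≤ R.rootMultiplicity (b j 0)`; `E a = {b i 0, b j 0}`.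
First clause: different types implies the second alternative, so `k a` is even. Second clause:
`sum_pairs_le_ord` with `w = R.rootMultiplicity`, `B = fib2 H ζ0`, `E a = {b i 0, b j 0}` (the same formula in
both cases). Third clause: odd `k a` implies branch pair; `card ≤ ∑ 1`, `w = H.derivative.rootMultiplicity`.
Disjointness of the `E a`: a common element of `E a` and `E a'` gives `i ∈ {x a, y a}`, `i' ∈ {x a', y a'}` with
the same base point; the types are equal since `H (b) = ζ0` for type `1` and `conj ζ0 ≠ ζ0` for type `0`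
(`0 < ζ0.im`; `F.b1`, `F.b0` at `t = 0`), so `f i 0 = f i' 0`; if `i = i'` then `F.two` with the partners
(or `xinj, yinj, xy`) gives `a = a'`; if `i ≠ i'`, then `i'` is the partner of `i` by `F.two`, and the same. -/
theorem isSpecial_of {p q H S : ℂ[X]} (hG : Gen p q H S) {n : ℕ} (hn : H.natDegree = n)
    (hn1 : 1 ≤ n) {R : ℂ[X]} {D : ℕ} (hR : IsDisc H S R D) {ζ0 : ℂ} (h0 : 0 < ζ0.im) :
    IsSpecial n (PtsOf H S) ζ0 (EEof H R ζ0) (EEof H H.derivative ζ0) := by
  classical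
  obtain ⟨F⟩ := exists_fam' hG hn hn1 ζ0
  obtain ⟨L, hty, -, -, -, hL⟩ := F.exists_lmod (fun _ => True) (Eventually.of_forall fun _ => trivial)
  -- the two cases
  have hcase : ∀ a, (F.ty (L.x a) = F.ty (L.y a) ∧ F.b (L.x a) 0 = F.b (L.y a) 0 ∧
      H.derivative.eval (F.b (L.x a) 0) = 0 ∧ L.k a = 1) ∨
      ((F.ty (L.x a) ≠ F.ty (L.y a) ∨ F.b (L.x a) 0 ≠ F.b (L.y a) 0) ∧
        H.derivative.eval (F.b (L.x a) 0) ≠ 0 ∧ H.derivative.eval (F.b (L.y a) 0) ≠ 0 ∧
        Even (L.k a)) := by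
    intro a
    obtain ⟨h1, h2, c, h3, -, -⟩ := hL a
    rcases F.par (L.x a) (L.y a) h1.ne h2 with ⟨h4, h5, h6, -, h8⟩ | ⟨h4, h5, h6, h7⟩
    · refine Or.inl ⟨h4, h5, h6, h3.one ?_ h8⟩
      show F.f (L.y a) 0 - F.f (L.x a) 0 = 0
      rw [h2, sub_self]
    · exact Or.inr ⟨h4, h5, h6, h3.even h7⟩
  have hsub : ∀ a, ({F.b (L.x a) 0, F.b (L.y a) 0} : Finset ℂ) ⊆ fib2 H ζ0 := by
    intro a z hz
    rw [mem_fib2 (hn ▸ hn1)]
    rw [Finset.mem_insert, Finset.mem_singleton] at hz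
    rcases hz with rfl | rfl
    · rcases F.at_zero (L.x a) with ⟨-, h1, -⟩ | ⟨-, h1, -⟩
      · exact Or.inl h1
      · exact Or.inr h1
    · rcases F.at_zero (L.y a) with ⟨-, h1, -⟩ | ⟨-, h1, -⟩
      · exact Or.inl h1
      · exact Or.inr h1
  have hdis : ∀ a a', a ≠ a' → Disjoint ({F.b (L.x a) 0, F.b (L.y a) 0} : Finset ℂ)
      {F.b (L.x a') 0, F.b (L.y a') 0} := by
    intro a a' hne
    rw [Finset.disjoint_left]
    intro z hz hz'
    rw [Finset.mem_insert, Finset.mem_singleton] at hz hz'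
    obtain ⟨h1, h2, -⟩ := hL a
    obtain ⟨h1', h2', -⟩ := hL a'
    have h3 : F.f (L.x a) 0 = F.f (L.x a') 0 := by
      rcases hz with hz | hz <;> rcases hz' with hz' | hz'
      · exact F.f_eq_of_b h0 (hz.symm.trans hz')
      · rw [h2']; exact F.f_eq_of_b h0 (hz.symm.trans hz')
      · rw [h2]; exact F.f_eq_of_b h0 (hz.symm.trans hz')
      · rw [h2, h2']; exact F.f_eq_of_b h0 (hz.symm.trans hz')
    exact hne (L.xinj (F.pair_unique h1 h2 h1' h2' h3))
  refine ⟨L, ?_, ?_, ?_⟩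
  · intro a ha
    rw [hty] at ha
    rcases hcase a with ⟨h1, -⟩ | ⟨-, -, -, h4⟩
    · exact absurd h1 ha
    · exact h4
  · refine sum_pairs_le_ord _ _ (fun z => R.rootMultiplicity z) _
      (fun a => {F.b (L.x a) 0, F.b (L.y a) 0}) (fun a _ => hsub a)
      (fun a _ a' _ h => hdis a a' h) ?_
    intro a ha
    rw [Finset.mem_filter, hty] at ha
    have hta := ha.2
    rcases hcase a with ⟨-, h2, h3, h4⟩ | ⟨h1, h2, h3, h4⟩
    · rw [h4]
      have h5 : 1 ≤ R.rootMultiplicity (F.b (L.x a) 0) :=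
        (Polynomial.rootMultiplicity_pos hR.ne).2 (hR.branch _ h3)
      exact h5.trans (Finset.single_le_sum (f := fun z => R.rootMultiplicity z)
        (fun _ _ => Nat.zero_le _) (Finset.mem_insert_self _ _))
    · have hb : F.b (L.x a) 0 ≠ F.b (L.y a) 0 := by
        rcases h1 with h1 | h1
        · exact absurd hta h1
        · exact h1
      obtain ⟨-, -, c, h5, -, -⟩ := hL a
      obtain ⟨l, hl⟩ := h4
      have hl2 : L.k a = 2 * l := by omega
      obtain ⟨C, hC⟩ := h5.bd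
      rw [hl2] at hC
      have e1 := F.node_le hR hta hb h2 (l := l) (C := C) hC
      have e2 := F.node_le hR hta.symm (Ne.symm hb) h3 (l := l) (C := C) (by
        filter_upwards [hC] with t ht
        rw [norm_sub_rev]
        exact ht)
      rw [Finset.sum_pair hb, hl2]
      omega
  · rw [Finset.card_eq_sum_ones]
    refine sum_pairs_le_ord _ _ (fun z => H.derivative.rootMultiplicity z) (fun _ => 1)
      (fun a => {F.b (L.x a) 0, F.b (L.y a) 0}) (fun a _ => hsub a)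
      (fun a _ a' _ h => hdis a a' h) ?_
    intro a ha
    rw [Finset.mem_filter] at ha
    rcases hcase a with ⟨-, h2, h3, h4⟩ | ⟨-, -, -, h4⟩
    · have h5 : 1 ≤ H.derivative.rootMultiplicity (F.b (L.x a) 0) :=
        (Polynomial.rootMultiplicity_pos hG.deriv_ne).2 h3
      exact h5.trans (Finset.single_le_sum (f := fun z => H.derivative.rootMultiplicity z)
        (fun _ _ => Nat.zero_le _) (Finset.mem_insert_self _ _))
    · exact absurd h4 (Nat.not_even_iff_odd.2 ha.2)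

end Pool.Agent.HK
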