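import Pool.Agent.H.MP_cd3d06_an.K.D.FamA
import Pool.Agent.H.MP_cd3d06_an.K.D.ArgT

/-! MP_cd3d06_an, part D: zeros of `h` (leading coefficient, half turn). -/

namespace Pool.Agent.HK

open Polynomial Complex Set Metric Filter Topology
open scoped ComplexConjugate

variable {p q H S : ℂ[X]} {n : ℕ} {ζ0 : ℂ}

/-- the quotient of the increments of two polynomials along a path that tends to `z0` -/
theorem zeroB_quot {H S : ℂ[X]} {z0 : ℂ} {b : ℂ → ℂ} (hbc : ContinuousAt b 0) (hb0 : b 0 = z0)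
    (hne : ∀ᶠ t in 𝓝[≠] (0 : ℂ), b t ≠ z0) (hH : H.derivative.eval z0 ≠ 0) :
    Tendsto (fun t => (S.eval (b t) - S.eval z0) / (H.eval (b t) - H.eval z0)) (𝓝[≠] (0 : ℂ))
      (𝓝 (S.derivative.eval z0 / H.derivative.eval z0)) := by
  have hb : Tendsto b (𝓝[≠] (0 : ℂ)) (𝓝 z0) := by
    have h1 : Tendsto b (𝓝 (0 : ℂ)) (𝓝 z0) := by
      have h2 := hbc.tendsto
      rwa [hb0] at h2
    exact h1.mono_left nhdsWithin_le_nhds
  have hd : ∀ P : ℂ[X], Tendsto (fun t => dslope (fun z => P.eval z) z0 (b t)) (𝓝[≠] (0 : ℂ))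
      (𝓝 (P.derivative.eval z0)) := by
    intro P
    have h1 : ContinuousAt (dslope (fun z => P.eval z) z0) z0 :=
      continuousAt_dslope_same.2 P.differentiableAt
    have h2 : dslope (fun z => P.eval z) z0 z0 = P.derivative.eval z0 := by
      rw [dslope_same]
      exact P.deriv
    have h3 := h1.tendsto.comp hb
    rw [h2] at h3
    exact h3
  refine ((hd S).div (hd H) hH).congr' ?_
  filter_upwards [hne] with t ht
  have e : ∀ P : ℂ[X], P.eval (b t) - P.eval z0 =
      (b t - z0) * dslope (fun z => P.eval z) z0 (b t) := by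
    intro P
    have := sub_smul_dslope (fun z => P.eval z) z0 (b t)
    rw [smul_eq_mul] at this
    exact this.symm
  rw [e S, e H, mul_div_mul_left _ _ (sub_ne_zero.2 ht)]
  rfl

/-- Leading coefficient of the difference at a zero `z0` (`i` of type `1`, `j` of type `0`).

Proof. `b i t - z0 ~ t ^ 2 / H'(z0)` (from `H (b i t) - H z0 = t ^ 2`, `b i t → z0`, difference quotient of
`H`), `S (b i t) - S z0 ~ S'(z0) (b i t - z0)`; for `j`: `H (b j t) - H z0 = conj t ^ 2`, `f j t = - conj (S (b j t))`.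
So `(f j t - f i t) / t ^ 2 → - conj (S'/H') - S'/H' = - 2 Re (S'(z0) / H'(z0))` (`- conj (S z0) = S z0`). The number is
not `0`: `Re (S' conj H') = ‖p'‖ ^ 2 - ‖q'‖ ^ 2` at `z0` (`H = p - q`, `S = p + q`), `g4`. -/
theorem Fam.zero_lim (hG : Gen p q H S) (F : Fam H S (Fin (2 * n)) ζ0) (h0 : ζ0.im = 0)
    {i j : Fin (2 * n)} (hi : F.ty i = 1) (hj : F.ty j = 0) (hb : F.b i 0 = F.b j 0)
    (hz : p.eval (F.b i 0) + conj (q.eval (F.b i 0)) = 0)
    (hH : H.derivative.eval (F.b i 0) ≠ 0) :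
    ∃ c : ℝ, c ≠ 0 ∧
      Tendsto (fun t => (F.f j t - F.f i t) / t ^ 2) (𝓝[≠] (0 : ℂ)) (𝓝 (c : ℂ)) := by
  set z0 := F.b i 0 with hz0
  have hjz : F.b j 0 = z0 := hb.symm
  have hζ : conj ζ0 = ζ0 := Complex.conj_eq_iff_im.2 h0
  -- values at `z0`
  have hHz : H.eval z0 = ζ0 := by
    have h1 := (F.b1 i hi).self_of_nhds.1
    rw [zero_pow two_ne_zero, add_zero] at h1
    exact h1
  have hSz : -conj (S.eval z0) = S.eval z0 := by
    have h1 : p.eval z0 = -conj (q.eval z0) := eq_neg_of_add_eq_zero_left hz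
    rw [hG.hS, eval_add, h1, map_add, map_neg, Complex.conj_conj]
    ring
  -- the base points move
  have hne_i : ∀ᶠ t in 𝓝[≠] (0 : ℂ), F.b i t ≠ z0 := by
    filter_upwards [(F.b1 i hi).filter_mono nhdsWithin_le_nhds, self_mem_nhdsWithin] with t ht ht0 h
    rw [h, hHz] at ht
    have h1 : t ^ 2 = 0 := by
      have := ht.1
      linear_combination this.symm
    exact ht0 (pow_eq_zero_iff two_ne_zero |>.1 h1)
  have hne_j : ∀ᶠ t in 𝓝[≠] (0 : ℂ), F.b j t ≠ z0 := by
    filter_upwards [(F.b0 j hj).filter_mono nhdsWithin_le_nhds, self_mem_nhdsWithin] with t ht ht0 h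
    rw [h, hHz, map_add, hζ] at ht
    have h1 : conj (t ^ 2) = 0 := by
      have := ht.1
      linear_combination this.symm
    rw [map_eq_zero] at h1
    exact ht0 (pow_eq_zero_iff two_ne_zero |>.1 h1)
  have li := zeroB_quot (S := S) (F.bc i) rfl hne_i hH
  have lj := zeroB_quot (S := S) (F.bc j) hjz hne_j hH
  set w := S.derivative.eval z0 / H.derivative.eval z0 with hw
  have lj' : Tendsto (fun t => -conj ((S.eval (F.b j t) - S.eval z0) /
      (H.eval (F.b j t) - H.eval z0))) (𝓝[≠] (0 : ℂ)) (𝓝 (-conj w)) :=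
    ((Complex.continuous_conj.tendsto w).comp lj).neg
  refine ⟨-2 * w.re, ?_, ?_⟩
  · -- nonzero
    obtain ⟨hg, -⟩ := hG.g4 z0 hz
    have hS' : S.derivative.eval z0 = p.derivative.eval z0 + q.derivative.eval z0 := by
      rw [hG.hS, derivative_add, eval_add]
    have hH' : H.derivative.eval z0 = p.derivative.eval z0 - q.derivative.eval z0 := by
      rw [hG.hH, derivative_sub, eval_sub]
    intro h
    have h1 : w.re = 0 := by linarith
    have h2 : w * (H.derivative.eval z0 * conj (H.derivative.eval z0)) =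
        S.derivative.eval z0 * conj (H.derivative.eval z0) := by
      rw [hw]
      field_simp
    have h3 : (S.derivative.eval z0 * conj (H.derivative.eval z0)).re = 0 := by
      rw [← h2, Complex.mul_conj, Complex.re_mul_ofReal, h1, zero_mul]
    rw [hS', hH', map_sub] at h3
    simp only [Complex.mul_re, Complex.add_re, Complex.sub_re, Complex.conj_re, Complex.add_im,
      Complex.sub_im, Complex.conj_im] at h3
    apply hg
    have e1 := Complex.sq_norm (p.derivative.eval z0)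
    have e2 := Complex.sq_norm (q.derivative.eval z0)
    rw [Complex.normSq_apply] at e1 e2
    have h4 : ‖p.derivative.eval z0‖ ^ 2 = ‖q.derivative.eval z0‖ ^ 2 := by
      rw [e1, e2]
      linarith
    exact (pow_left_inj₀ (norm_nonneg _) (norm_nonneg _) two_ne_zero).1 h4
  · have hlim := lj'.sub li
    have hval : -conj w - w = ((-2 * w.re : ℝ) : ℂ) := by
      apply Complex.ext
      · simp only [Complex.sub_re, Complex.neg_re, Complex.conj_re, Complex.ofReal_re]
        ring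
      · simp only [Complex.sub_im, Complex.neg_im, Complex.conj_im, Complex.ofReal_im]
        ring
    rw [hval] at hlim
    refine hlim.congr' ?_
    filter_upwards [(F.b1 i hi).filter_mono nhdsWithin_le_nhds,
      (F.b0 j hj).filter_mono nhdsWithin_le_nhds, self_mem_nhdsWithin] with t ht1 ht2 ht0
    have ht0' : t ≠ 0 := ht0
    have ei : H.eval (F.b i t) - H.eval z0 = t ^ 2 := by
      rw [ht1.1, hHz]; ring
    have ej : H.eval (F.b j t) - H.eval z0 = conj (t ^ 2) := by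
      rw [ht2.1, hHz, map_add, hζ]; ring
    rw [ei, ej, map_div₀, Complex.conj_conj, map_sub, ht1.2, ht2.2]
    have h2 : conj (S.eval z0) = -S.eval z0 := by rw [← hSz, neg_neg]; exact congrArg _ hSz
    rw [h2]
    field_simp
    ring

/-- The half turn. `D` has leading term `c t ^ 2`, `c` real (up to sign), and is real at `sqrt ρ` and at
`i sqrt ρ`.

Proof. `k = 2` and `c = c'` by uniqueness of limits (`D t / t ^ k → c ≠ 0`, `D t / t ^ 2 → c' ≠ 0`). At `φ = 0`
`t = sqrt ρ`, `t ^ 2 = ρ`, and at `φ = π` `t ^ 2 = - ρ` (`tt ρ π ^ 2 = ρ exp (i π)`): the quotient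
`D t / (c t ^ 2)` is real and within distance `< 1` of `1`, so it is positive and its argument is `0`.
`θ ρ π - θ ρ 0 = k π / 2 = π`. -/
theorem half_turn {D : ℂ → ℂ} {k : ℕ} {c : ℂ} (h : DArg D k c) {c' : ℝ} (hc' : c' ≠ 0)
    (hl : Tendsto (fun t => D t / t ^ 2) (𝓝[≠] (0 : ℂ)) (𝓝 (c' : ℂ))) {ρ : ℝ} (hρ : 0 < ρ)
    (h1 : (D (tt ρ 0)).im = 0) (h2 : (D (tt ρ Real.pi)).im = 0)
    (h3 : ∀ φ : ℝ, ‖D (tt ρ φ) / (c * tt ρ φ ^ k) - 1‖ < 1) :
    thet D k c ρ Real.pi = thet D k c ρ 0 + Real.pi := by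
  have hid : Tendsto (fun t : ℂ => t) (𝓝[≠] (0 : ℂ)) (𝓝 0) :=
    tendsto_id.mono_left nhdsWithin_le_nhds
  have hk : k = 2 := by
    rcases lt_trichotomy k 2 with h3 | h3 | h3
    · exfalso
      -- `D t / t ^ k = (D t / t ^ 2) * t ^ (2 - k) → 0`
      have h4 : Tendsto (fun t : ℂ => D t / t ^ 2 * t ^ (2 - k)) (𝓝[≠] (0 : ℂ))
          (𝓝 ((c' : ℂ) * 0 ^ (2 - k))) := hl.mul (hid.pow _)
      rw [zero_pow (by omega), mul_zero] at h4
      have h5 : Tendsto (fun t : ℂ => D t / t ^ k) (𝓝[≠] (0 : ℂ)) (𝓝 0) := by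
        refine h4.congr' ?_
        filter_upwards [self_mem_nhdsWithin] with t ht
        have ht' : t ≠ 0 := ht
        have e : t ^ 2 = t ^ k * t ^ (2 - k) := by rw [← pow_add]; congr 1; omega
        rw [e]
        field_simp
      exact h.hc (tendsto_nhds_unique h.lim h5)
    · exact h3
    · exfalso
      have h4 : Tendsto (fun t : ℂ => D t / t ^ k * t ^ (k - 2)) (𝓝[≠] (0 : ℂ))
          (𝓝 (c * 0 ^ (k - 2))) := h.lim.mul (hid.pow _)
      rw [zero_pow (by omega), mul_zero] at h4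
      have h5 : Tendsto (fun t : ℂ => D t / t ^ 2) (𝓝[≠] (0 : ℂ)) (𝓝 0) := by
        refine h4.congr' ?_
        filter_upwards [self_mem_nhdsWithin] with t ht
        have ht' : t ≠ 0 := ht
        have e : t ^ k = t ^ 2 * t ^ (k - 2) := by rw [← pow_add]; congr 1; omega
        rw [e]
        field_simp
      have h6 := tendsto_nhds_unique hl h5
      exact hc' (by exact_mod_cast h6)
  subst hk
  have hc : c = (c' : ℂ) := tendsto_nhds_unique h.lim hl
  subst hc
  have hs : ((Real.sqrt ρ : ℝ) : ℂ) ^ 2 = (ρ : ℂ) := by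
    rw [← Complex.ofReal_pow, Real.sq_sqrt hρ.le]
  have e0 : tt ρ 0 ^ 2 = ((ρ : ℝ) : ℂ) := by
    rw [tt, mul_pow, hs]
    simp
  have e1 : tt ρ Real.pi ^ 2 = ((-ρ : ℝ) : ℂ) := by
    rw [tt, mul_pow, hs, ← Complex.exp_nat_mul]
    have h3 : ((2 : ℕ) : ℂ) * (((Real.pi / 2 : ℝ) : ℂ) * Complex.I) = Real.pi * Complex.I := by
      push_cast
      ring
    rw [h3, Complex.exp_pi_mul_I]
    push_cast
    ring
  -- a real number within distance `< 1` of `1` has argument `0`
  have key : ∀ (x : ℂ) (r : ℝ), x.im = 0 → r ≠ 0 → ‖x / ((c' : ℂ) * (r : ℂ)) - 1‖ < 1 →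
      Complex.arg (x / ((c' : ℂ) * (r : ℂ))) = 0 := by
    intro x r hx hr hlt
    have hxr : x = ((x.re : ℝ) : ℂ) := Complex.ext rfl (by simpa using hx)
    have e : x / ((c' : ℂ) * (r : ℂ)) = ((x.re / (c' * r) : ℝ) : ℂ) := by
      rw [hxr]
      push_cast
      simp
    rw [e] at hlt ⊢
    apply Complex.arg_ofReal_of_nonneg
    rw [← Complex.ofReal_one, ← Complex.ofReal_sub, Complex.norm_real, Real.norm_eq_abs,
      abs_lt] at hlt
    linarith [hlt.1]
  have k0 : Complex.arg (D (tt ρ 0) / ((c' : ℂ) * tt ρ 0 ^ 2)) = 0 := by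
    have h4 := h3 0
    rw [e0] at h4 ⊢
    exact key _ ρ h1 hρ.ne' h4
  have k1 : Complex.arg (D (tt ρ Real.pi) / ((c' : ℂ) * tt ρ Real.pi ^ 2)) = 0 := by
    have h4 := h3 Real.pi
    rw [e1] at h4 ⊢
    exact key _ (-ρ) h2 (neg_ne_zero.2 hρ.ne') h4
  rw [thet, thet, k0, k1]
  push_cast
  ring

end Pool.Agent.HK
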