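import Pool.Agent.H.MP_cd3d06_an.K.D.ZeroA
import Pool.Agent.H.MP_cd3d06_an.K.D.ZeroB
import Pool.Agent.H.MP_cd3d06_an.K.D.Fam
import Pool.Agent.H.MP_cd3d06_an.K.D.Mod

/-! MP_cd3d06_an, part D: real special parameters (zeros of `h`). -/

namespace Pool.Agent.HK

open Polynomial Complex Set Metric Filter Topology
open scoped ComplexConjugate

variable {p q H S : ℂ[X]} {n : ℕ} {ζ0 : ℂ}

/-- Real special parameters.

Proof. `z0` from `hz`; `H' z0 ≠ 0` by `g3` (with `w = z = z0`, `zero_props`). `F` from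
`exists_fam'`; `i1` of type `1` and `i0` of type `0` with base point `z0` (`surj1`, `surj0`, `conj ζ0 = ζ0`);
`f i1 0 = S z0 = - conj (S z0) = f i0 0`, purely imaginary. If `(f i 0).re = 0` then the base point of `i` is
a zero of `h` over `ζ0` (`zero_of_re`), so it is `z0` (`g4`), and `f i 0 = f i1 0`; by `F.two` `i = i1` or
`i = i0`. If `f i 0 = f j 0`, `i ≠ j`: by `F.par` the types are different or the base points are different; over
a real parameter there are no nodes (`g2`) and no branch points (`g1`), and collisions have equal base points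
(`g3`), which are zeros of `h`, so `{i, j} = {i1, i0}`. `L` from `F.exists_lmod` with `ev ρ` = realness of
`f i0 - f i1` at `tt ρ 0` and `tt ρ π` (`F.zero_real`; the difference `F.dif (x a) (y a)` is this one up to
sign). `np = 1`. The half turn: `half_turn` with `F.zero_lim` (sign!). -/
theorem isZeroPt_of (hG : Gen p q H S) (hn : H.natDegree = n) (hn1 : 1 ≤ n) (h0 : ζ0.im = 0)
    (hz : ∃ z, p.eval z + conj (q.eval z) = 0 ∧ H.eval z = ζ0) : IsZeroPt n (PtsOf H S) ζ0 := by
  obtain ⟨z0, hz0, hHz0⟩ := hz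
  have hcζ : conj ζ0 = ζ0 := Complex.conj_eq_iff_im.mpr h0
  obtain ⟨p1, p2, p3⟩ := zero_props hG hz0
  have hHc : H.eval z0 = conj (H.eval z0) := by rw [hHz0, hcζ]
  have hH' : H.derivative.eval z0 ≠ 0 := (hG.g3 z0 z0 hHc p2).1
  obtain ⟨F⟩ := exists_fam' hG hn hn1 ζ0
  obtain ⟨i1, hi1, hb1⟩ := F.surj1 z0 hHz0
  obtain ⟨i0, hi0, hb0⟩ := F.surj0 z0 (by rw [hcζ]; exact hHz0)
  have hne : i1 ≠ i0 := by
    intro h
    rw [h, hi0] at hi1
    exact absurd hi1 (by decide)
  -- the values at `t = 0`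
  have v1 : ∀ i, F.ty i = 1 → H.eval (F.b i 0) = ζ0 ∧ F.f i 0 = S.eval (F.b i 0) := by
    intro i hi
    have h := (F.b1 i hi).self_of_nhds
    rw [zero_pow two_ne_zero, add_zero] at h
    exact h
  have v0 : ∀ i, F.ty i = 0 → H.eval (F.b i 0) = ζ0 ∧ F.f i 0 = -conj (S.eval (F.b i 0)) := by
    intro i hi
    have h := (F.b0 i hi).self_of_nhds
    rw [zero_pow two_ne_zero, add_zero, hcζ] at h
    exact h
  have hty : ∀ i, F.ty i = 1 ∨ F.ty i = 0 := by
    intro i
    generalize F.ty i = a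
    revert a
    decide
  have vH : ∀ i, H.eval (F.b i 0) = ζ0 := by
    intro i
    rcases hty i with h | h
    · exact (v1 i h).1
    · exact (v0 i h).1
  have hf10 : F.f i1 0 = F.f i0 0 := by
    rw [(v1 i1 hi1).2, (v0 i0 hi0).2, hb1, hb0]
    exact p2
  -- purely imaginary values
  have hK : ∀ i, (F.f i 0).re = 0 → i = i1 ∨ i = i0 := by
    intro i hi
    have hre : (S.eval (F.b i 0)).re = 0 := by
      rcases hty i with h | h
      · rw [← (v1 i h).2]; exact hi
      · rw [(v0 i h).2, Complex.neg_re, Complex.conj_re] at hi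
        linarith
    have hzi := zero_of_re hG (z := F.b i 0) (by rw [vH i]; exact h0) hre
    have hbi : F.b i 0 = z0 := (hG.g4 _ hzi).2 z0 hz0 (by rw [vH i, hHz0])
    have hfi : F.f i1 0 = F.f i 0 := by
      rw [(v1 i1 hi1).2, hb1]
      rcases hty i with h | h
      · rw [(v1 i h).2, hbi]
      · rw [(v0 i h).2, hbi]; exact p2
    by_cases h1 : i1 = i
    · exact Or.inl h1.symm
    · exact Or.inr (F.two i1 i0 i hf10 hfi hne h1).symm
  -- coincidences are purely imaginary
  have hre : ∀ i j, i ≠ j → F.f i 0 = F.f j 0 → (F.f i 0).re = 0 := by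
    intro i j hij hfij
    rcases F.par i j hij hfij with ⟨-, -, h, -, -⟩ | ⟨h, -, -, -⟩
    · exact absurd (by rw [vH i]; exact h0) (hG.g1 _ h).2.2
    · by_cases htt : F.ty i = F.ty j
      · have hbb : F.b i 0 ≠ F.b j 0 := h.resolve_left (fun h' => h' htt)
        have hSS : S.eval (F.b i 0) = S.eval (F.b j 0) := by
          rcases hty i with h1 | h1
          · rw [← (v1 i h1).2, ← (v1 j (htt ▸ h1)).2]; exact hfij
          · have h2 := hfij
            rw [(v0 i h1).2, (v0 j (htt ▸ h1)).2, neg_inj] at h2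
            exact star_injective h2
        exact absurd (by rw [vH i]; exact h0)
          (hG.g2 _ _ hbb (by rw [vH i, vH j]) hSS).2.1
      · have key : ∀ i j, F.ty i = 1 → F.ty j = 0 → F.f i 0 = F.f j 0 → (F.f i 0).re = 0 := by
          intro i j h1 h2 h3
          rw [(v1 i h1).2, (v0 j h2).2] at h3
          have h4 := hG.g3 (F.b i 0) (F.b j 0) (by rw [vH i, vH j, hcζ]) h3
          have h5 : F.b i 0 = F.b j 0 := by
            by_contra h6
            exact h4.2.1 h6 (by rw [vH i]; exact h0)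
          rw [← h5] at h3
          have h6 := congrArg Complex.re h3
          rw [Complex.neg_re, Complex.conj_re] at h6
          rw [(v1 i h1).2]
          linarith
        rcases hty i with h1 | h1 <;> rcases hty j with h2 | h2
        · exact absurd (h1.trans h2.symm) htt
        · exact key i j h1 h2 hfij
        · rw [hfij]; exact key j i h2 h1 hfij.symm
        · exact absurd (h1.trans h2.symm) htt
  have hev := F.zero_real h0 hi1 hi0 (hb1.trans hb0.symm) (by rw [hb1]; exact hH')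
  obtain ⟨L, l1, l2, l3, l4, l5⟩ := F.exists_lmod _ hev
  -- the pair of each index
  have hpair : ∀ a, (L.x a = i1 ∧ L.y a = i0) ∨ (L.x a = i0 ∧ L.y a = i1) := by
    intro a
    obtain ⟨h1, h2, -⟩ := l5 a
    have h3 := hK _ (hre _ _ h1.ne h2)
    have h4 := hK _ (hre _ _ h1.ne' h2.symm)
    rcases h3 with h3 | h3 <;> rcases h4 with h4 | h4
    · rw [h3, h4] at h1; exact absurd h1 (lt_irrefl _)
    · exact Or.inl ⟨h3, h4⟩
    · exact Or.inr ⟨h3, h4⟩
    · rw [h3, h4] at h1; exact absurd h1 (lt_irrefl _)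
  have hsub : ∀ a b : Fin L.np, a = b := by
    intro a b
    apply L.xinj
    have h1 := (l5 a).1
    have h2 := (l5 b).1
    rcases hpair a with ⟨h3, h4⟩ | ⟨h3, h4⟩ <;> rcases hpair b with ⟨h5, h6⟩ | ⟨h5, h6⟩
    · rw [h3, h5]
    · rw [h3, h4] at h1; rw [h5, h6] at h2
      exact absurd h1 h2.not_gt
    · rw [h3, h4] at h1; rw [h5, h6] at h2
      exact absurd h1 h2.not_gt
    · rw [h3, h5]
  have hex : ∃ a : Fin L.np, True := by
    rcases lt_or_gt_of_ne hne with h | h
    · obtain ⟨a, -⟩ := l4 i1 i0 h hf10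
      exact ⟨a, trivial⟩
    · obtain ⟨a, -⟩ := l4 i0 i1 h hf10.symm
      exact ⟨a, trivial⟩
  obtain ⟨a0, -⟩ := hex
  have hnp : L.np = 1 := by
    have h1 : Fintype.card (Fin L.np) = 1 := Fintype.card_eq_one_iff.mpr ⟨a0, fun b => hsub b a0⟩
    rwa [Fintype.card_fin] at h1
  refine ⟨L, hnp, ?_, ?_, ?_, ?_⟩
  · intro a
    rw [l1]
    rcases hpair a with ⟨h3, h4⟩ | ⟨h3, h4⟩
    · rw [h3, h4, hi1, hi0]; decide
    · rw [h3, h4, hi1, hi0]; decide
  · intro a
    rw [l2]
    exact hre _ _ (l5 a).1.ne (l5 a).2.1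
  · intro i hi
    rw [l2] at hi
    refine ⟨a0, ?_⟩
    rcases hK i hi with h | h <;> rcases hpair a0 with ⟨h3, h4⟩ | ⟨h3, h4⟩
    · exact Or.inl (h.trans h3.symm)
    · exact Or.inr (h.trans h4.symm)
    · exact Or.inr (h.trans h4.symm)
    · exact Or.inl (h.trans h3.symm)
  · intro a ρ hρ
    obtain ⟨h1, h2, c, h3, h4, h5⟩ := l5 a
    obtain ⟨c', hc', hl⟩ := F.zero_lim hG h0 hi1 hi0 (hb1.trans hb0.symm)
      (by rw [hb1]; exact hz0) (by rw [hb1]; exact hH')
    obtain ⟨e1, e2⟩ := l3 ρ hρ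
    rw [h4]
    rcases hpair a with ⟨h6, h7⟩ | ⟨h6, h7⟩
    · have hd : F.dif (L.x a) (L.y a) = fun t => F.f i0 t - F.f i1 t := by
        funext t; rw [Fam.dif, h6, h7]
      rw [hd] at h3 h5 ⊢
      exact half_turn h3 hc' hl hρ.1 e1 e2 (h5 ρ hρ)
    · have hd : F.dif (L.x a) (L.y a) = fun t => -(F.f i0 t - F.f i1 t) := by
        funext t; rw [Fam.dif, h6, h7]; ring
      rw [hd] at h3 h5 ⊢
      refine half_turn h3 (c' := -c') (neg_ne_zero.mpr hc') ?_ hρ.1 ?_ ?_ (h5 ρ hρ)
      · have h8 := hl.neg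
        refine (tendsto_congr fun t => ?_).mpr (h8.trans_eq ?_)
        · ring
        · push_cast; rfl
      · rw [Complex.neg_im, e1, neg_zero]
      · rw [Complex.neg_im, e2, neg_zero]

end Pool.Agent.HK
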