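import Pool.Agent.H.MP_cd3d06_an.K.D.Final
import Pool.Agent.H.MP_cd3d06_an.K.D.Reg
import Pool.Agent.H.MP_cd3d06_an.K.D.Special
import Pool.Agent.H.MP_cd3d06_an.K.D.Zero

/-! MP_cd3d06_an, part D: the final statement. -/

namespace Pool.Agent.HK

open Polynomial Complex Set Metric
open scoped ComplexConjugate

/-- PART D. -/
theorem partD (hF : TheoremF) {p q H S R : ℂ[X]} {D n : ℕ} (hn1 : 1 ≤ n)
    (hdeg : p.natDegree = n) (hpq : q.degree < p.degree) (hG : Gen p q H S)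
    (hR : IsDisc H S R D) (Z : Finset ℂ) (hZ : ∀ z ∈ Z, p.eval z + conj (q.eval z) = 0) :
    Z.card ≤ 2 * n - 1 + D := by
  have hHdeg : H.natDegree = n := by
    rw [hG.hH, natDegree_sub_eq_left_of_natDegree_lt, hdeg]
    rcases eq_or_ne q 0 with h0 | h0
    · rw [h0, natDegree_zero, hdeg]; omega
    · exact (natDegree_lt_natDegree_iff h0).mpr hpq
  exact count_of_models hF hn1 hdeg hpq hG hR (fun ζ h => isRegPt_of hG hHdeg hn1 h)
    (fun ζ h => isSpecial_of hG hHdeg hn1 hR h) (fun ζ h hz => isZeroPt_of hG hHdeg hn1 h hz) Z hZ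

end Pool.Agent.HK
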