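import Pool.Agent.H.MP_cd3d06_an.K.D.Count

/-!
MP_cd3d06_an, part D: assembly.
-/

namespace Pool.Agent.HK

open Polynomial Complex Set Metric
open scoped ComplexConjugate

/-- PART D. Theorem F for the family of a generic pair bounds the number of zeros. -/
theorem count_of_models (hF : TheoremF) {p q H S R : ℂ[X]} {D n : ℕ} (hn1 : 1 ≤ n)
    (hdeg : p.natDegree = n) (hpq : q.degree < p.degree) (hG : Gen p q H S)
    (hR : IsDisc H S R D)
    (hreg : ∀ ζ, (∀ z, Bad H S z → H.eval z ≠ ζ ∧ H.eval z ≠ conj ζ) → IsRegPt n (PtsOf H S) ζ)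
    (hspec : ∀ ζ : ℂ, 0 < ζ.im →
      IsSpecial n (PtsOf H S) ζ (EEof H R ζ) (EEof H (derivative H) ζ))
    (hzero : ∀ ζ : ℂ, ζ.im = 0 → (∃ z, p.eval z + conj (q.eval z) = 0 ∧ H.eval z = ζ) →
      IsZeroPt n (PtsOf H S) ζ)
    (Z : Finset ℂ) (hZ : ∀ z ∈ Z, p.eval z + conj (q.eval z) = 0) :
    Z.card ≤ 2 * n - 1 + D := by
  classical
  obtain ⟨Sp, hSp⟩ := exists_Sp hG
  have hHdeg : H.natDegree = n := by
    rw [hG.hH, natDegree_sub_eq_left_of_natDegree_lt, hdeg]
    rcases eq_or_ne q 0 with h0 | h0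
    · rw [h0, natDegree_zero, hdeg]; omega
    · exact (natDegree_lt_natDegree_iff h0).mpr hpq
  have hH1 : 1 ≤ H.natDegree := by rw [hHdeg]; exact hn1
  have main := hF n hn1 (PtsOf H S) (PtsOf_conj H S) Sp ?_ (EEof H R) (EEof H (derivative H))
    ?_ ?_ (isFar_PtsOf hpq hG.hH hG.hS)
  · have h1 : Z.card ≤ (Sp.filter (fun ζ => ζ.im = 0)).card := by
      apply Finset.card_le_card_of_injOn (fun z => H.eval z)
      · intro z hz
        obtain ⟨h2, h3⟩ := zero_bad hG (hZ z hz)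
        rw [Finset.mem_coe, Finset.mem_filter]
        exact ⟨(hSp _).mpr ⟨h2.ge, z, h3, Or.inl rfl⟩, h2⟩
      · intro z hz w hw hzw
        exact (hG.g4 z (hZ z hz)).2 w (hZ w hw) hzw
    have h2 : ∑ ζ ∈ Sp.filter (fun ζ => 0 < ζ.im), (EEof H R ζ + EEof H (derivative H) ζ) ≤
        D + (n - 1) := by
      rw [Finset.sum_add_distrib]
      apply add_le_add
      · exact (sum_EEof_le hH1 _ (fun ζ hζ => (Finset.mem_filter.mp hζ).2)).trans hR.deg
      · refine (sum_EEof_le hH1 _ (fun ζ hζ => (Finset.mem_filter.mp hζ).2)).trans ?_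
        rw [← hHdeg]
        exact natDegree_derivative_le H
    have h3 := h1.trans (main.trans (Nat.add_le_add_left h2 n))
    omega
  · intro ζ hζ hn
    apply hreg
    intro z hz
    constructor
    · intro h
      exact hn ((hSp ζ).mpr ⟨hζ, z, hz, Or.inl h⟩)
    · intro h
      exact hn ((hSp ζ).mpr ⟨hζ, z, hz, Or.inr h⟩)
  · intro ζ _ h2
    exact hspec ζ h2
  · intro ζ h1 h2
    obtain ⟨-, z, hz, h3⟩ := (hSp ζ).mp h1
    have h4 : H.eval z = ζ := by
      rcases h3 with h3 | h3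
      · exact h3
      · rw [h3]; exact Complex.conj_eq_iff_im.mpr h2
    exact hzero ζ h2 ⟨z, zero_of_bad hG hz (by rw [h4]; exact h2), h4⟩

end Pool.Agent.HK
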