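import Pool.Agent.H.MP_cd3d06_an.K.D.Sqrt

/-! MP_cd3d06_an, part D: local parametrizations. -/

namespace Pool.Agent.HK

open Polynomial Complex Set Metric Filter Topology
open scoped ComplexConjugate

/-- local inverse of an analytic function of one variable -/
theorem dinv {f : ℂ → ℂ} {a : ℂ} (hf : AnalyticAt ℂ f a) (hf' : deriv f a ≠ 0) :
    ∃ g : ℂ → ℂ, AnalyticAt ℂ g (f a) ∧ g (f a) = a ∧ (∀ᶠ z in 𝓝 a, g (f z) = z) ∧
      (∀ᶠ w in 𝓝 (f a), f (g w) = w) ∧ HasDerivAt g (deriv f a)⁻¹ (f a) :=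
  ⟨hf.hasStrictDerivAt.localInverse _ _ _ hf', hf.analyticAt_localInverse hf',
    HasStrictFDerivAt.localInverse_apply_image .., HasStrictDerivAt.eventually_left_inverse ..,
    HasStrictDerivAt.eventually_right_inverse ..,
    (hf.hasStrictDerivAt.to_localInverse hf').hasDerivAt⟩

/-- An analytic function with nonzero derivative is injective near the point. -/
theorem dinj {f : ℂ → ℂ} {a : ℂ} (hf : AnalyticAt ℂ f a) (hf' : deriv f a ≠ 0) :
    ∃ r > 0, ∀ z ∈ ball a r, ∀ w ∈ ball a r, f z = f w → z = w := by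
  obtain ⟨g, -, -, h1, -, -⟩ := dinv hf hf'
  obtain ⟨r, hr, h2⟩ := Metric.eventually_nhds_iff_ball.mp h1
  refine ⟨r, hr, fun z hz w hw hzw => ?_⟩
  rw [← h2 z hz, hzw, h2 w hw]

/-- Square root branch at a simple critical point.

Proof. `H - C (H.eval c) = (X - C c) ^ 2 * K` with `K.eval c ≠ 0` (divide twice: `H - H(c)` has the
root `c`, quotient `Q`, `Q.eval c = H'(c) = 0`, so `Q = (X - C c) * K`; `2 K(c) = H''(c)`).
With `κ = K.eval c` and a square root `s` of `κ`, `r z = s * (K.eval z / κ) ^ (1/2 : ℂ)` (or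
`s * exp (log (K z / κ) / 2)`) is analytic at `c` and `r z ^ 2 = K z` near `c` (the quotient is near `1`,
in the slit plane). `E z = (z - c) * r z` is analytic, `E c = 0`, `E' c = r c = s ≠ 0`,
`E z ^ 2 = H z - H c`. `ψ` = local inverse of `E` (`dinv`): `H (ψ t) - H c = (E (ψ t)) ^ 2 = t ^ 2`. -/
theorem dsqrt {H : ℂ[X]} {c : ℂ} (h1 : H.derivative.eval c = 0)
    (h2 : H.derivative.derivative.eval c ≠ 0) :
    ∃ ψ : ℂ → ℂ, AnalyticAt ℂ ψ 0 ∧ ψ 0 = c ∧ deriv ψ 0 ≠ 0 ∧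
      ∀ᶠ t in 𝓝 (0 : ℂ), H.eval (ψ t) = H.eval c + t ^ 2 := by
  exact exists_sqrt_coord rfl h1 h2

/-- Local parametrization by `t`, `H = H c + t ^ 2`.

Proof. `H' c ≠ 0`: `φ t = g (H c + t ^ 2)` with the local inverse `g` (`dinv`), an even function.
`H' c = 0`: `dsqrt`. -/
theorem dpar {H : ℂ[X]} {c : ℂ}
    (h : H.derivative.eval c = 0 → H.derivative.derivative.eval c ≠ 0) :
    ∃ φ : ℂ → ℂ, AnalyticAt ℂ φ 0 ∧ φ 0 = c ∧
      (∀ᶠ t in 𝓝 (0 : ℂ), H.eval (φ t) = H.eval c + t ^ 2) ∧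
      (H.derivative.eval c ≠ 0 → ∀ t, φ (-t) = φ t) ∧
      (H.derivative.eval c = 0 → deriv φ 0 ≠ 0) := by
  by_cases hd : H.derivative.eval c = 0
  · obtain ⟨ψ, h1, h2, h3, h4⟩ := dsqrt hd (h hd)
    exact ⟨ψ, h1, h2, h4, fun h5 => absurd hd h5, fun _ => h3⟩
  · obtain ⟨g, h1, h2, h3⟩ := exists_reg_coord (H := H) (c := c) rfl hd
    have hinn : AnalyticAt ℂ (fun t : ℂ => H.eval c + t ^ 2) 0 :=
      analyticAt_const.add (analyticAt_id.pow 2)
    have h00 : H.eval c + (0 : ℂ) ^ 2 = H.eval c := by ring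
    refine ⟨fun t => g (H.eval c + t ^ 2), ?_, ?_, ?_, fun _ t => ?_, fun h => absurd h hd⟩
    · exact AnalyticAt.comp (g := g) (f := fun t : ℂ => H.eval c + t ^ 2)
        (by rw [h00]; exact h1) hinn
    · show g (H.eval c + (0 : ℂ) ^ 2) = c
      rw [h00, h2]
    · have h5 : Tendsto (fun t : ℂ => H.eval c + t ^ 2) (𝓝 0) (𝓝 (H.eval c)) := by
        have := hinn.continuousAt.tendsto
        rwa [h00] at this
      exact h5.eventually h3
    · show g (H.eval c + (-t) ^ 2) = g (H.eval c + t ^ 2)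
      rw [neg_sq]

/-- `t ↦ conj (F (conj t))` is analytic.

Proof. For instance from differentiability near the point (`HasDerivAt.conj_conj` or
`hasDerivAt_conj_conj_iff` type lemmas of Mathlib and `analyticAt_iff_eventually_differentiableAt`). -/
theorem analyticAt_cc {F : ℂ → ℂ} {a : ℂ} (hF : AnalyticAt ℂ F (conj a)) :
    AnalyticAt ℂ (fun t => conj (F (conj t))) a := by
  rw [analyticAt_iff_eventually_differentiableAt] at hF ⊢
  have h1 : Tendsto (fun t : ℂ => conj t) (𝓝 a) (𝓝 (conj a)) :=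
    Complex.continuous_conj.tendsto a
  filter_upwards [h1.eventually hF] with t ht
  have h2 := ht.conj_conj
  rw [Complex.conj_conj] at h2
  exact h2

end Pool.Agent.HK
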