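import Pool.Agent.H.MP_cd3d06_an.K.D.FamA
import Pool.Agent.H.MP_cd3d06_an.K.D.Inv

/-! MP_cd3d06_an, part D: the order of a node pair is bounded by the discriminant. -/

namespace Pool.Agent.HK

open Polynomial Complex Set Metric Filter Topology
open scoped ComplexConjugate

variable {H S : ℂ[X]} {n : ℕ} {ζ0 : ℂ}

theorem zmod2_cases (a : ZMod 2) : a = 0 ∨ a = 1 := by
  fin_cases a
  · exact Or.inl rfl
  · exact Or.inr rfl

/-- the image of `b i t` under `H` only depends on the type -/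
theorem Fam.Hb_eq (F : Fam H S (Fin (2 * n)) ζ0) {i j : Fin (2 * n)} (hty : F.ty i = F.ty j) :
    ∀ᶠ t in 𝓝 (0 : ℂ), H.eval (F.b i t) = H.eval (F.b j t) ∧
      ‖F.f j t - F.f i t‖ = ‖S.eval (F.b j t) - S.eval (F.b i t)‖ := by
  rcases zmod2_cases (F.ty i) with h | h
  · filter_upwards [F.b0 i h, F.b0 j (hty ▸ h)] with t h1 h2
    refine ⟨by rw [h1.1, h2.1], ?_⟩
    rw [h1.2, h2.2]
    have e : -conj (S.eval (F.b j t)) - -conj (S.eval (F.b i t)) =
        -conj (S.eval (F.b j t) - S.eval (F.b i t)) := by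
      rw [map_sub]; ring
    rw [e, norm_neg, Complex.norm_conj]
  · filter_upwards [F.b1 i h, F.b1 j (hty ▸ h)] with t h1 h2
    exact ⟨by rw [h1.1, h2.1], by rw [h1.2, h2.2]⟩

/-- A continuous branch of the square root of the parameter along the source: for `z` near the base point
`z1 = b i 0` (not a critical point) there is `t = τ z` with `b i t = z`, `τ z → 0`, `‖τ z‖ ^ 2 ≤ C ‖z - z1‖`.

Proof. Type `1`: `τ z = (H z - ζ0) ^ (1/2 : ℂ)`; type `0`: `τ z = conj ((H z - conj ζ0) ^ (1/2 : ℂ))`. So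
`ζ0 + τ ^ 2 = H z` resp. `conj (ζ0 + τ ^ 2) = H z`, `‖τ z‖ ^ 2 = ‖H z - H z1‖ ≤ C ‖z - z1‖` near `z1`
(polynomials are differentiable), `τ z → 0`. `b i (τ z)` and `z` are both close to `z1` (`F.bc`) and have the
same image under `H`; `H` is injective near `z1` (`dinj`). -/
theorem Fam.exists_tau (F : Fam H S (Fin (2 * n)) ζ0) (i : Fin (2 * n))
    (hi : H.derivative.eval (F.b i 0) ≠ 0) :
    ∃ (τ : ℂ → ℂ) (C : ℝ), Tendsto τ (𝓝 (F.b i 0)) (𝓝 0) ∧
      (∀ᶠ z in 𝓝 (F.b i 0), F.b i (τ z) = z) ∧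
      ∀ᶠ z in 𝓝 (F.b i 0), ‖τ z‖ ^ 2 ≤ C * ‖z - F.b i 0‖ := by
  -- a square root of the parameter
  have key : ∃ τ : ℂ → ℂ, (∀ z, ‖τ z‖ ^ 2 = ‖H.eval z - H.eval (F.b i 0)‖) ∧
      ∀ᶠ t in 𝓝 (0 : ℂ), ∀ z, τ z = t → H.eval (F.b i t) = H.eval z := by
    have hs : ∀ w : ℂ, (w ^ ((2 : ℕ) : ℂ)⁻¹) ^ 2 = w := fun w =>
      Complex.cpow_nat_inv_pow w (by norm_num)
    rcases zmod2_cases (F.ty i) with h | h
    · have h0 : H.eval (F.b i 0) = conj ζ0 := by
        have := (F.b0 i h).self_of_nhds.1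
        rw [this]; simp
      refine ⟨fun z => conj ((H.eval z - conj ζ0) ^ ((2 : ℕ) : ℂ)⁻¹), fun z => ?_, ?_⟩
      · rw [Complex.norm_conj, ← norm_pow, hs, h0]
      · filter_upwards [F.b0 i h] with t ht z hz
        rw [ht.1, ← hz, map_add, map_pow, Complex.conj_conj, hs]
        ring
    · have h0 : H.eval (F.b i 0) = ζ0 := by
        have := (F.b1 i h).self_of_nhds.1
        rw [this]; simp
      refine ⟨fun z => (H.eval z - ζ0) ^ ((2 : ℕ) : ℂ)⁻¹, fun z => ?_, ?_⟩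
      · rw [← norm_pow, hs, h0]
      · filter_upwards [F.b1 i h] with t ht z hz
        rw [ht.1, ← hz, hs]
        ring
  obtain ⟨τ, hτ, hH⟩ := key
  have hdiff : DifferentiableAt ℂ (fun z => H.eval z) (F.b i 0) := H.differentiable.differentiableAt
  obtain ⟨C, hC⟩ := hdiff.isBigO_sub.bound
  have htend : Tendsto τ (𝓝 (F.b i 0)) (𝓝 0) := by
    rw [tendsto_zero_iff_norm_tendsto_zero]
    have h1 : ∀ z, ‖τ z‖ = Real.sqrt ‖H.eval z - H.eval (F.b i 0)‖ := by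
      intro z
      rw [← hτ, Real.sqrt_sq (norm_nonneg _)]
    have h2 : Continuous (fun z => Real.sqrt ‖H.eval z - H.eval (F.b i 0)‖) := by
      have := H.continuous
      fun_prop
    have h3 := h2.tendsto (F.b i 0)
    rw [sub_self, norm_zero, Real.sqrt_zero] at h3
    exact h3.congr fun z => (h1 z).symm
  refine ⟨τ, C, htend, ?_, ?_⟩
  · have han : AnalyticAt ℂ (fun z => H.eval z) (F.b i 0) :=
      H.differentiable.analyticAt _
    have hd : deriv (fun z => H.eval z) (F.b i 0) ≠ 0 := by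
      rw [Polynomial.deriv]; exact hi
    obtain ⟨r, hr, hinj⟩ := dinj han hd
    have h1 : Tendsto (fun z => F.b i (τ z)) (𝓝 (F.b i 0)) (𝓝 (F.b i 0)) :=
      (F.bc i).tendsto.comp htend
    filter_upwards [h1.eventually (ball_mem_nhds _ hr), ball_mem_nhds _ hr,
      htend.eventually hH] with z h2 h3 h4
    exact hinj _ h2 _ h3 (h4 z rfl)
  · filter_upwards [hC] with z hz
    rw [hτ]
    exact hz

/-- The bound for the order of a node pair.

Proof. `τ` from `exists_tau` for `i`, `w z = b j (τ z)`. `w z → b j 0 ≠ b i 0`. `H (w z) = H (b i (τ z)) = H z`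
(both are `ζ0 + t ^ 2`, resp. its conjugate, `t = τ z`; same type). `S (w z) - S z`: `f j t - f i t` resp. minus
its conjugate, so `‖S (w z) - S z‖ = ‖f j t - f i t‖ ≤ C ‖t‖ ^ (2 l) ≤ C' ‖z - z1‖ ^ l`. `hR.node`. -/
theorem Fam.node_le (F : Fam H S (Fin (2 * n)) ζ0) {R : ℂ[X]} {D : ℕ} (hR : IsDisc H S R D)
    {i j : Fin (2 * n)} (hty : F.ty i = F.ty j) (hb : F.b i 0 ≠ F.b j 0)
    (hi : H.derivative.eval (F.b i 0) ≠ 0) {l : ℕ} {C : ℝ}
    (hC : ∀ᶠ t in 𝓝 (0 : ℂ), ‖F.f j t - F.f i t‖ ≤ C * ‖t‖ ^ (2 * l)) :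
    l ≤ R.rootMultiplicity (F.b i 0) := by
  obtain ⟨τ, C2, h1, h2, h3⟩ := F.exists_tau i hi
  refine hR.node (F.b i 0) (F.b j 0) (fun z => F.b j (τ z)) l (|C| * C2 ^ l) hb
    ((F.bc j).tendsto.comp h1) ?_ ?_
  · filter_upwards [h2, h1.eventually (F.Hb_eq hty)] with z h4 h5
    rw [← h5.1, h4]
  · filter_upwards [h2, h3, h1.eventually (F.Hb_eq hty), h1.eventually hC] with z h4 h5 h6 h7
    have h8 := h6.2
    rw [h4] at h8
    rw [← h8]
    calc ‖F.f j (τ z) - F.f i (τ z)‖ ≤ C * ‖τ z‖ ^ (2 * l) := h7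
      _ ≤ |C| * ‖τ z‖ ^ (2 * l) := mul_le_mul_of_nonneg_right (le_abs_self C) (by positivity)
      _ = |C| * (‖τ z‖ ^ 2) ^ l := by rw [pow_mul]
      _ ≤ |C| * (C2 * ‖z - F.b i 0‖) ^ l :=
          mul_le_mul_of_nonneg_left (pow_le_pow_left₀ (by positivity) h5 l) (abs_nonneg C)
      _ = |C| * C2 ^ l * ‖z - F.b i 0‖ ^ l := by rw [mul_pow]; ring

end Pool.Agent.HK
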