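import Pool.Agent.H.MP_cd3d06_an.K.D.Count

/-! MP_cd3d06_an, part D: the index set of the branches. -/

namespace Pool.Agent.HK

open Polynomial Complex Set Metric Filter Topology
open scoped ComplexConjugate

theorem puisA_ne {H : ℂ[X]} (hH : 1 ≤ H.natDegree) (ζ0 : ℂ) : H - C ζ0 ≠ 0 := by
  intro h
  have h1 : (H - C ζ0).natDegree = H.natDegree := natDegree_sub_C
  rw [h, natDegree_zero] at h1
  omega

/-- Multiplicities of the roots of `H - ζ0` when all critical points over `ζ0` are simple.

Proof. `rootMultiplicity z P ≥ 1` iff root; `≥ 2` iff root of `P` and `P'`; `≥ 3` iff root of `P, P', P''`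
(`Polynomial.one_lt_rootMultiplicity_iff_isRoot`, `Polynomial.lt_rootMultiplicity_iff_isRoot_iterate_derivative`,
characteristic zero), `P = H - C ζ0`. -/
theorem mult_eq {H : ℂ[X]} (hH : 1 ≤ H.natDegree) {ζ0 z : ℂ} (hz : H.eval z = ζ0)
    (hc : H.derivative.eval z = 0 → H.derivative.derivative.eval z ≠ 0) :
    (H - C ζ0).rootMultiplicity z = if H.derivative.eval z = 0 then 2 else 1 := by
  have hne : H - C ζ0 ≠ 0 := puisA_ne hH ζ0
  have hroot : (H - C ζ0).IsRoot z := by
    rw [IsRoot, eval_sub, eval_C, hz, sub_self]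
  have hd : (H - C ζ0).derivative = H.derivative := by
    rw [derivative_sub, derivative_C, sub_zero]
  have h0 : 0 < (H - C ζ0).rootMultiplicity z := (rootMultiplicity_pos hne).mpr hroot
  have h1 := one_lt_rootMultiplicity_iff_isRoot (t := z) hne
  rw [hd] at h1
  have h2 := lt_rootMultiplicity_iff_isRoot_iterate_derivative (t := z) (n := 2) hne
  by_cases hh : H.derivative.eval z = 0
  · rw [if_pos hh]
    have h3 : 1 < (H - C ζ0).rootMultiplicity z := h1.mpr ⟨hroot, hh⟩
    have h4 : ¬ 2 < (H - C ζ0).rootMultiplicity z := by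
      intro h5
      have h6 := h2.mp h5 2 le_rfl
      rw [Function.iterate_succ, Function.iterate_one, Function.comp_apply, hd] at h6
      exact hc hh h6
    omega
  · rw [if_neg hh]
    have h3 : ¬ 1 < (H - C ζ0).rootMultiplicity z := fun h4 => hh (h1.mp h4).2
    omega

/-- The index set of the branches: `(z, b)` with `H z = ζ0`, and `b = true` only if `H' z = 0`. -/
noncomputable def pidx (H : ℂ[X]) (ζ0 : ℂ) : Finset (ℂ × Bool) :=
  open Classical in
  ((H - C ζ0).roots.toFinset ×ˢ Finset.univ).filter fun x =>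
    x.2 = true → H.derivative.eval x.1 = 0

theorem mem_pidx {H : ℂ[X]} (hH : 1 ≤ H.natDegree) {ζ0 : ℂ} {x : ℂ × Bool} :
    x ∈ pidx H ζ0 ↔ H.eval x.1 = ζ0 ∧ (x.2 = true → H.derivative.eval x.1 = 0) := by
  unfold pidx
  rw [Finset.mem_filter, Finset.mem_product, Multiset.mem_toFinset, mem_roots (puisA_ne hH ζ0),
    IsRoot, eval_sub, eval_C, sub_eq_zero]
  simp only [Finset.mem_univ, and_true]

/-- Proof. The number of elements over a root `z` is its multiplicity (`mult_eq`), the sum of the
multiplicities is `card (H - C ζ0).roots = natDegree (H - C ζ0) = n`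
(`IsAlgClosed.card_roots_eq_natDegree` or `splits_iff_card_roots`; `Multiset.toFinset_sum_count_eq`). -/
theorem card_pidx {H : ℂ[X]} {n : ℕ} (hn : H.natDegree = n) (hn1 : 1 ≤ n) (ζ0 : ℂ)
    (hc : ∀ z, H.eval z = ζ0 → H.derivative.eval z = 0 → H.derivative.derivative.eval z ≠ 0) :
    (pidx H ζ0).card = n := by
  classical
  have hH : 1 ≤ H.natDegree := by rw [hn]; exact hn1
  have hne := puisA_ne hH ζ0
  have hcard : ((H - C ζ0).roots).card = n := by
    rw [IsAlgClosed.card_roots_eq_natDegree, natDegree_sub_C, hn]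
  rw [← hcard, ← Multiset.toFinset_sum_count_eq]
  unfold pidx
  rw [Finset.card_filter, Finset.sum_product]
  apply Finset.sum_congr rfl
  intro z hz
  rw [Multiset.mem_toFinset, mem_roots hne, IsRoot, eval_sub, eval_C, sub_eq_zero] at hz
  rw [count_roots, mult_eq hH hz (hc z hz), Fintype.sum_bool]
  by_cases hh : H.derivative.eval z = 0
  · simp [hh]
  · simp [hh]

end Pool.Agent.HK
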