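import Pool.Agent.H.MP_cd3d06_an.K.D.Sqrt

/-!
MP_cd3d06_an, part D: the sections of a polynomial over `ζ0 + t ^ 2`.
-/

namespace Pool.Agent.HK

open Polynomial Complex Set Filter Topology

/-- local sections of `H` over `ζ0 + t ^ 2` -/
structure PuisS (H : ℂ[X]) (n : ℕ) (ζ0 : ℂ) where
  G : Fin n → ℂ → ℂ
  an : ∀ i, AnalyticAt ℂ (G i) 0
  eq : ∀ i, ∀ᶠ t in 𝓝 (0 : ℂ), H.eval (G i t) = ζ0 + t ^ 2
  inj : ∀ᶠ t in 𝓝[≠] (0 : ℂ), Function.Injective (fun i => G i t)
  exh : ∀ᶠ t in 𝓝[≠] (0 : ℂ), ∀ z, H.eval z = ζ0 + t ^ 2 → ∃ i, G i t = z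
  surj0 : ∀ z, H.eval z = ζ0 → ∃ i, G i 0 = z
  reg : ∀ i, H.derivative.eval (G i 0) ≠ 0 → (∀ j, G j 0 = G i 0 → j = i) ∧
    ∃ g : ℂ → ℂ, AnalyticAt ℂ g ζ0 ∧ (∀ᶠ ζ in 𝓝 ζ0, H.eval (g ζ) = ζ) ∧
      (∀ᶠ t in 𝓝 (0 : ℂ), G i t = g (ζ0 + t ^ 2))
  crit : ∀ i, H.derivative.eval (G i 0) = 0 → deriv (G i) 0 ≠ 0 ∧
    ∃ j, j ≠ i ∧ (∀ᶠ t in 𝓝 (0 : ℂ), G j t = G i (-t)) ∧ ∀ k, G k 0 = G i 0 → k = i ∨ k = j

theorem count_reg {H : ℂ[X]} {x ζ0 : ℂ} (hH : H - C ζ0 ≠ 0) (h1 : H.derivative.eval x ≠ 0) :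
    (H - C ζ0).roots.count x ≤ 1 := by
  classical
  rw [count_roots]
  by_contra hlt
  rw [not_le] at hlt
  have h2 := (one_lt_rootMultiplicity_iff_isRoot hH).mp hlt
  apply h1
  have h3 := h2.2
  rw [IsRoot.def, derivative_sub, derivative_C, sub_zero] at h3
  exact h3

theorem count_crit {H : ℂ[X]} {x ζ0 : ℂ} (hH : H - C ζ0 ≠ 0) (h0 : H.eval x = ζ0)
    (h1 : H.derivative.eval x = 0) (h2 : H.derivative.derivative.eval x ≠ 0) :
    (H - C ζ0).roots.count x = 2 := by
  classical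
  rw [count_roots]
  apply le_antisymm
  · by_contra hlt
    rw [not_le] at hlt
    have h3 := (lt_rootMultiplicity_iff_isRoot_iterate_derivative hH).mp hlt 2 le_rfl
    apply h2
    rw [Function.iterate_succ, Function.iterate_one, Function.comp_apply, IsRoot.def,
      derivative_sub, derivative_C, sub_zero] at h3
    exact h3
  · have h3 : 1 < (H - C ζ0).rootMultiplicity x := by
      rw [one_lt_rootMultiplicity_iff_isRoot hH, IsRoot.def, IsRoot.def, eval_sub, eval_C, h0,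
        sub_self, derivative_sub, derivative_C, sub_zero]
      exact ⟨rfl, h1⟩
    exact h3

theorem exh_of_inj {H : ℂ[X]} {n : ℕ} (hn : H.natDegree = n) (hn1 : 1 ≤ n) {ζ : ℂ}
    {f : Fin n → ℂ} (hf : Function.Injective f) (h : ∀ i, H.eval (f i) = ζ) {z : ℂ}
    (hz : H.eval z = ζ) : ∃ i, f i = z := by
  classical
  have hne : H - C ζ ≠ 0 := by
    intro h0
    rw [sub_eq_zero.mp h0, natDegree_C] at hn
    omega
  by_contra hno
  push Not at hno
  have h1 : insert z (Finset.univ.image f) ⊆ (H - C ζ).roots.toFinset := by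
    intro w hw
    rw [Multiset.mem_toFinset, mem_roots hne, IsRoot.def, eval_sub, eval_C, sub_eq_zero]
    rcases Finset.mem_insert.mp hw with rfl | hw
    · exact hz
    · obtain ⟨i, -, rfl⟩ := Finset.mem_image.mp hw
      exact h i
  have h2 := Finset.card_le_card h1
  rw [Finset.card_insert_of_notMem (by
    intro hmem
    obtain ⟨i, -, hi⟩ := Finset.mem_image.mp hmem
    exact hno i hi), Finset.card_image_of_injective _ hf, Finset.card_univ, Fintype.card_fin] at h2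
  have h3 : (H - C ζ).roots.toFinset.card ≤ n := by
    refine (Multiset.toFinset_card_le _).trans ((card_roots' _).trans ?_)
    rw [natDegree_sub_C, hn]
  omega

theorem exists_puisS {H : ℂ[X]} {n : ℕ} (hn : H.natDegree = n) (hn1 : 1 ≤ n) {ζ0 : ℂ}
    (hc : ∀ z, H.eval z = ζ0 → H.derivative.eval z = 0 → H.derivative.derivative.eval z ≠ 0) :
    Nonempty (PuisS H n ζ0) := by
  classical
  have hne : H - C ζ0 ≠ 0 := by
    intro h0
    rw [sub_eq_zero.mp h0, natDegree_C] at hn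
    omega
  -- coordinates
  have hψ : ∀ x : ℂ, ∃ ψ : ℂ → ℂ, H.eval x = ζ0 → (AnalyticAt ℂ ψ 0 ∧ ψ 0 = x ∧
      (∀ᶠ t in 𝓝 (0 : ℂ), H.eval (ψ t) = ζ0 + t ^ 2) ∧
      (H.derivative.eval x ≠ 0 → ∃ g : ℂ → ℂ, AnalyticAt ℂ g ζ0 ∧
        (∀ᶠ ζ in 𝓝 ζ0, H.eval (g ζ) = ζ) ∧ ∀ t, ψ t = g (ζ0 + t ^ 2)) ∧
      (H.derivative.eval x = 0 → deriv ψ 0 ≠ 0)) := by
    intro x
    by_cases hx : H.eval x = ζ0
    · by_cases hd : H.derivative.eval x = 0
      · obtain ⟨ψ, h1, h2, h3, h4⟩ := exists_sqrt_coord hx hd (hc x hx hd)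
        exact ⟨ψ, fun _ => ⟨h1, h2, h4, fun h => absurd hd h, fun _ => h3⟩⟩
      · obtain ⟨g, h1, h2, h3⟩ := exists_reg_coord hx hd
        have hinn : AnalyticAt ℂ (fun t : ℂ => ζ0 + t ^ 2) 0 :=
          analyticAt_const.add (analyticAt_id.pow 2)
        have h00 : ζ0 + (0 : ℂ) ^ 2 = ζ0 := by ring
        refine ⟨fun t => g (ζ0 + t ^ 2), fun _ => ⟨?_, ?_, ?_, fun _ => ⟨g, h1, h3, fun _ => rfl⟩,
          fun h => absurd h hd⟩⟩
        · exact AnalyticAt.comp (g := g) (f := fun t : ℂ => ζ0 + t ^ 2) (by rw [h00]; exact h1) hinn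
        · show g (ζ0 + (0 : ℂ) ^ 2) = x
          rw [zero_pow (by norm_num), add_zero, h2]
        · have h5 : Tendsto (fun t : ℂ => ζ0 + t ^ 2) (𝓝 0) (𝓝 ζ0) := by
            have := hinn.continuousAt.tendsto
            rwa [h00] at this
          exact h5.eventually h3
    · exact ⟨fun _ => 0, fun h => absurd h hx⟩
  choose Ψ hΨ using hψ
  -- the index set
  obtain ⟨m, hm⟩ : ∃ m : Multiset ℂ, m = (H - C ζ0).roots := ⟨_, rfl⟩
  have hmem : ∀ x, x ∈ m ↔ H.eval x = ζ0 := by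
    intro x
    rw [hm, mem_roots hne, IsRoot.def, eval_sub, eval_C, sub_eq_zero]
  have hcard : m.toEnumFinset.card = n := by
    rw [Multiset.card_toEnumFinset, hm, ← hn, ← natDegree_sub_C (p := H) (a := ζ0)]
    exact splits_iff_card_roots.mp (IsAlgClosed.splits _)
  obtain ⟨e⟩ : Nonempty (Fin n ≃ m.toEnumFinset) := ⟨(Finset.equivFinOfCardEq hcard).symm⟩
  have hx : ∀ i, H.eval (e i).1.1 = ζ0 := by
    intro i
    rw [← hmem]
    have h1 := (Multiset.mem_toEnumFinset m (e i).1).mp (e i).2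
    exact Multiset.count_pos.mp (lt_of_le_of_lt (Nat.zero_le _) h1)
  have hk : ∀ i, (e i).1.2 < m.count (e i).1.1 := fun i =>
    (Multiset.mem_toEnumFinset m (e i).1).mp (e i).2
  have hmk : ∀ (x : ℂ) (k : ℕ), k < m.count x → ∃ i, (e i).1 = (x, k) := by
    intro x k hk
    refine ⟨e.symm ⟨(x, k), (Multiset.mem_toEnumFinset m (x, k)).mpr hk⟩, ?_⟩
    rw [e.apply_symm_apply]
  have hext : ∀ i j, (e i).1.1 = (e j).1.1 → (e i).1.2 = (e j).1.2 → i = j := by
    intro i j h1 h2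
    apply e.injective
    apply Subtype.ext
    exact Prod.ext h1 h2
  obtain ⟨sg, hsg⟩ : ∃ sg : Fin n → ℂ, ∀ i, sg i = (-1) ^ (e i).1.2 := ⟨_, fun _ => rfl⟩
  have hsg2 : ∀ i, sg i ^ 2 = 1 := by
    intro i
    rw [hsg, ← pow_mul, mul_comm, pow_mul]; norm_num
  obtain ⟨G, hG⟩ : ∃ G : Fin n → ℂ → ℂ, ∀ i, G i = fun t => Ψ (e i).1.1 (sg i * t) :=
    ⟨_, fun _ => rfl⟩
  have hG0 : ∀ i, G i 0 = (e i).1.1 := by
    intro i
    rw [hG]
    show Ψ (e i).1.1 (sg i * 0) = _
    rw [mul_zero]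
    exact (hΨ _ (hx i)).2.1
  have hlin : ∀ i, Tendsto (fun t : ℂ => sg i * t) (𝓝 0) (𝓝 0) := by
    intro i
    have : Continuous fun t : ℂ => sg i * t := by fun_prop
    have h1 := this.tendsto 0
    rwa [mul_zero] at h1
  have hGan : ∀ i, AnalyticAt ℂ (G i) 0 := by
    intro i
    rw [hG]
    have h1 : AnalyticAt ℂ (fun t : ℂ => sg i * t) 0 := analyticAt_const.mul analyticAt_id
    exact AnalyticAt.comp (g := Ψ (e i).1.1) (f := fun t : ℂ => sg i * t)
      (by rw [mul_zero]; exact (hΨ _ (hx i)).1) h1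
  have hGeq : ∀ i, ∀ᶠ t in 𝓝 (0 : ℂ), H.eval (G i t) = ζ0 + t ^ 2 := by
    intro i
    filter_upwards [(hlin i).eventually (hΨ _ (hx i)).2.2.1] with t ht
    rw [hG]
    rw [mul_pow, hsg2, one_mul] at ht
    exact ht
  have hcrit2 : ∀ x, H.eval x = ζ0 → H.derivative.eval x = 0 → m.count x = 2 := by
    intro x h1 h2
    rw [hm]; exact count_crit hne h1 h2 (hc x h1 h2)
  have hreg1 : ∀ x, H.derivative.eval x ≠ 0 → m.count x ≤ 1 := by
    intro x h1
    rw [hm]; exact count_reg hne h1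
  have hinj : ∀ᶠ t in 𝓝[≠] (0 : ℂ), Function.Injective (fun i => G i t) := by
    have h1 : ∀ i j, i ≠ j → ∀ᶠ t in 𝓝[≠] (0 : ℂ), G i t ≠ G j t := by
      intro i j hij
      by_cases hxx : (e i).1.1 = (e j).1.1
      · have hd : H.derivative.eval (e i).1.1 = 0 := by
          by_contra hd
          have h2 := hreg1 _ hd
          have h3 := hk i
          have h4 := hk j
          rw [← hxx] at h4
          exact hij (hext i j hxx (by omega))
        have h2 := hcrit2 _ (hx i) hd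
        have h3 := hk i
        have h4 := hk j
        rw [← hxx, h2] at h4
        rw [h2] at h3
        have h5 : (e i).1.2 ≠ (e j).1.2 := fun h => hij (hext i j hxx h)
        have hs : sg j = -sg i := by
          rw [hsg, hsg]
          have h6 : ((e i).1.2 = 0 ∧ (e j).1.2 = 1) ∨ ((e i).1.2 = 1 ∧ (e j).1.2 = 0) := by omega
          rcases h6 with ⟨h6, h7⟩ | ⟨h6, h7⟩
          · rw [h6, h7]; norm_num
          · rw [h6, h7]; norm_num
        obtain ⟨h6, h7, -, -, h8⟩ := hΨ _ (hx i)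
        obtain ⟨η, -, -, -, -, h9⟩ := exists_local_inv h6 (h8 hd)
        have h10 : ∀ᶠ t in 𝓝 (0 : ℂ), η (Ψ (e i).1.1 (sg i * t)) = sg i * t :=
          (hlin i).eventually h9
        have h11 : ∀ᶠ t in 𝓝 (0 : ℂ), η (Ψ (e i).1.1 (sg j * t)) = sg j * t :=
          (hlin j).eventually h9
        filter_upwards [h10.filter_mono nhdsWithin_le_nhds, h11.filter_mono nhdsWithin_le_nhds,
          self_mem_nhdsWithin] with t i1 i2 i3
        intro h12
        rw [hG, hG] at h12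
        have h13 : Ψ (e i).1.1 (sg i * t) = Ψ (e i).1.1 (sg j * t) := by
          have : Ψ (e i).1.1 (sg i * t) = Ψ (e j).1.1 (sg j * t) := h12
          rw [this, hxx]
        rw [h13, i2, hs] at i1
        have h14 : sg i * t = 0 := by linear_combination (-1 / 2 : ℂ) * i1
        rcases mul_eq_zero.mp h14 with h15 | h15
        · have := hsg2 i
          rw [h15] at this
          norm_num at this
        · exact i3 h15
      · have h2 : Tendsto (fun t => G i t - G j t) (𝓝 0) (𝓝 (G i 0 - G j 0)) :=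
          ((hGan i).continuousAt.sub (hGan j).continuousAt).tendsto
        have h3 : G i 0 - G j 0 ≠ 0 := by
          rw [hG0, hG0]; exact sub_ne_zero.mpr hxx
        have h4 := h2.eventually_ne h3
        filter_upwards [h4.filter_mono nhdsWithin_le_nhds] with t ht
        exact sub_ne_zero.mp ht
    have h2 : ∀ᶠ t in 𝓝[≠] (0 : ℂ), ∀ i j, i ≠ j → G i t ≠ G j t := by
      rw [eventually_all]
      intro i
      rw [eventually_all]
      intro j
      by_cases hij : i = j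
      · exact Eventually.of_forall fun t h => absurd hij h
      · filter_upwards [h1 i j hij] with t ht _
        exact ht
    filter_upwards [h2] with t ht
    intro i j hij
    by_contra hne'
    exact ht i j hne' hij
  refine ⟨{
    G := G
    an := hGan
    eq := hGeq
    inj := hinj
    exh := ?_
    surj0 := ?_
    reg := ?_
    crit := ?_ }⟩
  · have h1 : ∀ᶠ t in 𝓝 (0 : ℂ), ∀ i, H.eval (G i t) = ζ0 + t ^ 2 := eventually_all.mpr hGeq
    filter_upwards [hinj, h1.filter_mono nhdsWithin_le_nhds] with t i1 i2 z hz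
    exact exh_of_inj hn hn1 i1 i2 hz
  · intro z hz
    obtain ⟨i, hi⟩ := hmk z 0 (Multiset.count_pos.mpr ((hmem z).mpr hz))
    refine ⟨i, ?_⟩
    rw [hG0, hi]
  · intro i hd
    rw [hG0] at hd
    constructor
    · intro j hj
      rw [hG0, hG0] at hj
      have h2 := hreg1 _ hd
      have h3 := hk i
      have h4 := hk j
      rw [hj] at h4
      exact hext j i hj (by omega)
    · obtain ⟨g, h1, h2, h3⟩ := (hΨ _ (hx i)).2.2.2.1 hd
      refine ⟨g, h1, h2, Eventually.of_forall fun t => ?_⟩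
      rw [hG]
      show Ψ (e i).1.1 (sg i * t) = _
      rw [h3, mul_pow, hsg2, one_mul]
  · intro i hd
    rw [hG0] at hd
    have h2 := hcrit2 _ (hx i) hd
    have h3 := hk i
    rw [h2] at h3
    have hsne : sg i ≠ 0 := by
      intro h0
      have := hsg2 i
      rw [h0] at this
      norm_num at this
    refine ⟨?_, ?_⟩
    · obtain ⟨h6, h7, -, -, h8⟩ := hΨ _ (hx i)
      have h9 : HasDerivAt (fun t : ℂ => sg i * t) (sg i) 0 := by
        have := (hasDerivAt_id (0 : ℂ)).const_mul (sg i)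
        rwa [mul_one] at this
      have h10 : HasDerivAt (Ψ (e i).1.1) (deriv (Ψ (e i).1.1) 0) (sg i * 0) := by
        rw [mul_zero]; exact h6.differentiableAt.hasDerivAt
      have h11 := h10.comp 0 h9
      have h12 : deriv (G i) 0 = deriv (Ψ (e i).1.1) 0 * sg i := by
        rw [hG]; exact h11.deriv
      rw [h12]
      exact mul_ne_zero (h8 hd) hsne
    · obtain ⟨j, hj⟩ := hmk (e i).1.1 (1 - (e i).1.2) (by rw [h2]; omega)
      have hj1 : (e j).1.1 = (e i).1.1 := by rw [hj]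
      have hj2 : (e j).1.2 = 1 - (e i).1.2 := by rw [hj]
      refine ⟨j, ?_, ?_, ?_⟩
      · rintro rfl
        omega
      · refine Eventually.of_forall fun t => ?_
        have hs : sg j = -sg i := by
          rw [hsg, hsg, hj2]
          have h6 : (e i).1.2 = 0 ∨ (e i).1.2 = 1 := by omega
          rcases h6 with h6 | h6
          · rw [h6]; norm_num
          · rw [h6]; norm_num
        rw [hG, hG]
        show Ψ (e j).1.1 (sg j * t) = Ψ (e i).1.1 (sg i * (-t))
        rw [hj1, hs]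
        congr 1
        ring
      · intro k hk'
        rw [hG0, hG0] at hk'
        have h4 := hk k
        rw [hk', h2] at h4
        by_cases h5 : (e k).1.2 = (e i).1.2
        · left; exact hext k i hk' h5
        · right; exact hext k j (by rw [hk', hj1]) (by omega)

/-- sections near a regular value -/
theorem exists_reg_sections {H : ℂ[X]} {n : ℕ} (hn : H.natDegree = n) (hn1 : 1 ≤ n) {ζ0 : ℂ}
    (hc : ∀ z, H.eval z = ζ0 → H.derivative.eval z ≠ 0) :
    ∃ g : Fin n → ℂ → ℂ, (∀ i, AnalyticAt ℂ (g i) ζ0) ∧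
      ∀ᶠ ζ in 𝓝 ζ0, (∀ i, H.eval (g i ζ) = ζ) ∧ Function.Injective (fun i => g i ζ) ∧
        ∀ z, H.eval z = ζ → ∃ i, g i ζ = z := by
  classical
  obtain ⟨P⟩ := exists_puisS hn hn1 (ζ0 := ζ0) (fun z h1 h2 => absurd h2 (hc z h1))
  have h0 : ∀ i, H.eval (P.G i 0) = ζ0 := by
    intro i
    have := (P.eq i).self_of_nhds
    rw [this]; ring
  have h1 : ∀ i, ∃ g : ℂ → ℂ, AnalyticAt ℂ g ζ0 ∧ (∀ᶠ ζ in 𝓝 ζ0, H.eval (g ζ) = ζ) ∧
      g ζ0 = P.G i 0 := by
    intro i
    obtain ⟨g, h2, h3, h4⟩ := (P.reg i (hc _ (h0 i))).2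
    refine ⟨g, h2, h3, ?_⟩
    have := h4.self_of_nhds
    rw [this]
    congr 1
    ring
  choose g hg1 hg2 hg3 using h1
  refine ⟨g, hg1, ?_⟩
  have h2 : ∀ᶠ ζ in 𝓝 ζ0, ∀ i, H.eval (g i ζ) = ζ := eventually_all.mpr hg2
  have h3 : ∀ᶠ ζ in 𝓝 ζ0, ∀ i j, i ≠ j → g i ζ ≠ g j ζ := by
    rw [eventually_all]
    intro i
    rw [eventually_all]
    intro j
    by_cases hij : i = j
    · exact Eventually.of_forall fun t h => absurd hij h
    · have h4 : Tendsto (fun ζ => g i ζ - g j ζ) (𝓝 ζ0) (𝓝 (g i ζ0 - g j ζ0)) :=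
        ((hg1 i).continuousAt.sub (hg1 j).continuousAt).tendsto
      have h5 : g i ζ0 - g j ζ0 ≠ 0 := by
        rw [hg3, hg3, sub_ne_zero]
        intro h6
        exact hij ((P.reg j (hc _ (h0 j))).1 i h6)
      filter_upwards [h4.eventually_ne h5] with t ht _
      exact sub_ne_zero.mp ht
  filter_upwards [h2, h3] with ζ i1 i2
  have i3 : Function.Injective (fun i => g i ζ) := by
    intro i j hij
    by_contra hne'
    exact i2 i j hne' hij
  exact ⟨i1, i3, fun z hz => exh_of_inj hn hn1 i3 i1 hz⟩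

end Pool.Agent.HK
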