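import Pool.Agent.H.MP_cd3d06_an.K.D.Inv
import Pool.Agent.H.MP_cd3d06_an.K.D.PuisA
import Pool.Agent.H.MP_cd3d06_an.K.D.PuisS

/-! MP_cd3d06_an, part D: the branches of `H = ζ` near `ζ0`, as analytic functions of `t`,
`ζ = ζ0 + t ^ 2`. -/

namespace Pool.Agent.HK

open Polynomial Complex Set Metric Filter Topology
open scoped ComplexConjugate

/-- `n` analytic branches in the variable `t`, `ζ = ζ0 + t ^ 2` -/
structure Puis (H : ℂ[X]) (n : ℕ) (ζ0 : ℂ) where
  G : Fin n → ℂ → ℂ
  an : ∀ i, AnalyticAt ℂ (G i) 0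
  eq : ∀ i, ∀ᶠ t in 𝓝 (0 : ℂ), H.eval (G i t) = ζ0 + t ^ 2
  fib : ∀ᶠ t in 𝓝[≠] (0 : ℂ), Function.Injective (fun i => G i t) ∧
    ∀ z, H.eval z = ζ0 + t ^ 2 → ∃ i, G i t = z
  surj : ∀ z, H.eval z = ζ0 → ∃ i, G i 0 = z
  even : ∀ i, H.derivative.eval (G i 0) ≠ 0 → ∀ᶠ t in 𝓝 (0 : ℂ), G i (-t) = G i t
  inj0 : ∀ i j, H.derivative.eval (G i 0) ≠ 0 → G j 0 = G i 0 → j = i
  br : ∀ i j, i ≠ j → G j 0 = G i 0 → ∀ᶠ t in 𝓝 (0 : ℂ), G j t = G i (-t)
  brd : ∀ i, H.derivative.eval (G i 0) = 0 → deriv (G i) 0 ≠ 0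
  br2 : ∀ i j k, i ≠ j → i ≠ k → G j 0 = G i 0 → G k 0 = G i 0 → j = k

/-- Existence of the branches.

Proof. Choose `φ z` from `dpar` for every root `z` of `H - ζ0`; an equivalence
`e : Fin n ≃ pidx H ζ0` (`card_pidx`); `G i t = φ z (± t)`, `(z, b) = e i`, sign `-` iff `b = true`.
`G i 0 = z`. `fib`: for small `t ≠ 0` the values are different: for different `z` because they are close
to the different points `z` (continuity at `0`, finitely many pairs); for the same `z` (then `H' z = 0`,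
`deriv (φ z) 0 ≠ 0`) `φ z` is injective near `0` (`dinj`) and `t ≠ -t`. They are `n` different roots of
`H - C (ζ0 + t ^ 2)`, of degree `n`, so they are all the roots (a finset with `n` elements contained in
the finset of the roots, which has at most `n` elements, is equal to it: `Finset.eq_of_subset_of_card_le`,
`card_roots'`). The other fields are direct: `G i 0 = z`, and the elements of `pidx` over `z` are
`(z, false)` and, if `H' z = 0`, `(z, true)`. -/
theorem exists_puis {H : ℂ[X]} {n : ℕ} (hn : H.natDegree = n) (hn1 : 1 ≤ n) (ζ0 : ℂ)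
    (hc : ∀ z, H.eval z = ζ0 → H.derivative.eval z = 0 → H.derivative.derivative.eval z ≠ 0) :
    Nonempty (Puis H n ζ0) := by
  obtain ⟨P⟩ := exists_puisS hn hn1 (ζ0 := ζ0) hc
  have h0 : ∀ i, H.eval (P.G i 0) = ζ0 := by
    intro i
    have := (P.eq i).self_of_nhds
    rw [this]; ring
  refine ⟨{
    G := P.G
    an := P.an
    eq := P.eq
    fib := ?_
    surj := P.surj0
    even := ?_
    inj0 := fun i j h1 h2 => (P.reg i h1).1 j h2
    br := ?_
    brd := fun i h => (P.crit i h).1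
    br2 := ?_ }⟩
  · filter_upwards [P.inj, P.exh] with t h1 h2
    exact ⟨h1, h2⟩
  · intro i hd
    obtain ⟨g, -, -, h1⟩ := (P.reg i hd).2
    have h2 : Tendsto (fun t : ℂ => -t) (𝓝 0) (𝓝 0) := by
      have := (continuous_neg (G := ℂ)).tendsto 0
      rwa [neg_zero] at this
    filter_upwards [h1, h2.eventually h1] with t i1 i2
    rw [i1, i2, neg_sq]
  · intro i j hij h
    have hd : H.derivative.eval (P.G i 0) = 0 := by
      by_contra hd
      exact hij ((P.reg i hd).1 j h).symm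
    obtain ⟨-, k, -, h2, h3⟩ := P.crit i hd
    rcases h3 j h with h4 | h4
    · exact absurd h4.symm hij
    · rw [h4]; exact h2
  · intro i j k hij hik h1 h2
    have hd : H.derivative.eval (P.G i 0) = 0 := by
      by_contra hd
      exact hij ((P.reg i hd).1 j h1).symm
    obtain ⟨-, l, -, -, h3⟩ := P.crit i hd
    rcases h3 j h1 with h4 | h4
    · exact absurd h4.symm hij
    · rcases h3 k h2 with h5 | h5
      · exact absurd h5.symm hik
      · rw [h4, h5]

end Pool.Agent.HK
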