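import Pool.Agent.H.MP_cd3d06_an.K.D.Inv
import Pool.Agent.H.MP_cd3d06_an.K.D.Count

/-! MP_cd3d06_an, part D: branches at a value without critical points. -/

namespace Pool.Agent.HK

open Polynomial Complex Set Metric Filter Topology
open scoped ComplexConjugate

/-- Local branches at a value with `n` simple roots.

Proof. `H - C ζ0` has `n` different roots: all roots are simple (`Polynomial.one_lt_rootMultiplicity_iff_isRoot`
or: `H - C ζ0` and its derivative have no common root, so it is separable and has `n` different roots,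
`card_rootSet_eq_natDegree` / `nodup_roots` with `IsAlgClosed.card_roots...`). For each root `z` a local
inverse `g z` (`dinv`, `deriv H.eval z = H.derivative.eval z`), `H (g z ζ) = ζ` near `ζ0`. For `ζ` near
`ζ0` the `n` values are different (they are close to different points), so they are all the roots of
`H - C ζ`. -/
theorem exists_reg {H : ℂ[X]} {n : ℕ} (hn : H.natDegree = n) (hn1 : 1 ≤ n) (ζ0 : ℂ)
    (hc : ∀ z, H.eval z = ζ0 → H.derivative.eval z ≠ 0) :
    ∃ g : Fin n → ℂ → ℂ, (∀ i, AnalyticAt ℂ (g i) ζ0) ∧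
      ∀ᶠ ζ in 𝓝 ζ0, (∀ i, H.eval (g i ζ) = ζ) ∧ Function.Injective (fun i => g i ζ) ∧
        ∀ z, H.eval z = ζ → ∃ i, g i ζ = z := by
  classical
  have hdeg : ∀ ζ : ℂ, (H - C ζ).natDegree = n := fun ζ => by rw [natDegree_sub_C, hn]
  have hne : ∀ ζ : ℂ, H - C ζ ≠ 0 := by
    intro ζ h0
    have h1 := hdeg ζ
    rw [h0, natDegree_zero] at h1
    omega
  -- the roots at `ζ0`
  have hnodup : (H - C ζ0).roots.Nodup := by
    rw [Multiset.nodup_iff_count_le_one]
    intro z
    rw [count_roots]
    by_contra hlt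
    push Not at hlt
    rw [Polynomial.one_lt_rootMultiplicity_iff_isRoot (hne ζ0)] at hlt
    obtain ⟨h1, h2⟩ := hlt
    rw [IsRoot.def, eval_sub, eval_C, sub_eq_zero] at h1
    rw [IsRoot.def, derivative_sub, derivative_C, sub_zero] at h2
    exact hc z h1 h2
  have hcard : (H - C ζ0).roots.toFinset.card = n := by
    rw [Multiset.toFinset_card_of_nodup hnodup]
    rw [← (IsAlgClosed.splits (H - C ζ0)).natDegree_eq_card_roots, hdeg]
  obtain ⟨e⟩ : Nonempty (Fin n ≃ (H - C ζ0).roots.toFinset) :=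
    ⟨(Finset.equivFinOfCardEq hcard).symm⟩
  have hz : ∀ i, H.eval (e i : ℂ) = ζ0 := by
    intro i
    have h1 := (e i).2
    rw [Multiset.mem_toFinset, mem_roots (hne ζ0), IsRoot.def, eval_sub, eval_C,
      sub_eq_zero] at h1
    exact h1
  have hinj : ∀ i j, i ≠ j → (e i : ℂ) ≠ (e j : ℂ) := by
    intro i j hij h
    exact hij (e.injective (Subtype.ext h))
  -- local inverses
  have hex : ∀ i, ∃ g : ℂ → ℂ, AnalyticAt ℂ g ζ0 ∧ g ζ0 = e i ∧ ∀ᶠ w in 𝓝 ζ0, H.eval (g w) = w := by
    intro i
    have han : AnalyticAt ℂ (fun z => H.eval z) (e i : ℂ) :=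
      H.differentiable.analyticAt _
    have hd : deriv (fun z => H.eval z) (e i : ℂ) ≠ 0 := by
      rw [Polynomial.deriv]
      exact hc _ (hz i)
    obtain ⟨g, h1, h2, _, h3, _⟩ := dinv han hd
    simp only [hz i] at h1 h2 h3
    exact ⟨g, h1, h2, h3⟩
  choose g hg1 hg2 hg3 using hex
  refine ⟨g, hg1, ?_⟩
  have hE1 : ∀ᶠ ζ in 𝓝 ζ0, ∀ i, H.eval (g i ζ) = ζ := Filter.eventually_all.2 hg3
  have hE2 : ∀ᶠ ζ in 𝓝 ζ0, ∀ i j, i ≠ j → g i ζ ≠ g j ζ := by
    rw [Filter.eventually_all]
    intro i
    rw [Filter.eventually_all]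
    intro j
    by_cases hij : i = j
    · exact Filter.Eventually.of_forall (fun ζ h => absurd hij h)
    · have t1 : Tendsto (g i) (𝓝 ζ0) (𝓝 (e i : ℂ)) := by
        have := (hg1 i).continuousAt.tendsto
        rwa [hg2 i] at this
      have t2 : Tendsto (g j) (𝓝 ζ0) (𝓝 (e j : ℂ)) := by
        have := (hg1 j).continuousAt.tendsto
        rwa [hg2 j] at this
      filter_upwards [(t1.sub t2).eventually_ne (sub_ne_zero.2 (hinj i j hij))] with ζ h _
      exact sub_ne_zero.1 h
  filter_upwards [hE1, hE2] with ζ h1 h2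
  have hI : Function.Injective (fun i => g i ζ) := by
    intro i j hij
    by_contra hne'
    exact h2 i j hne' hij
  refine ⟨h1, hI, fun z hzz => ?_⟩
  by_contra hcon
  push Not at hcon
  have hnot : z ∉ Finset.univ.image (fun i => g i ζ) := by
    intro hmem
    obtain ⟨i, _, hi⟩ := Finset.mem_image.1 hmem
    exact hcon i hi
  have hsub : insert z (Finset.univ.image (fun i => g i ζ)) ⊆ (H - C ζ).roots.toFinset := by
    intro w hw
    rw [Multiset.mem_toFinset, mem_roots (hne ζ), IsRoot.def, eval_sub, eval_C, sub_eq_zero]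
    rcases Finset.mem_insert.1 hw with hw | hw
    · rw [hw]
      exact hzz
    · obtain ⟨i, _, hi⟩ := Finset.mem_image.1 hw
      rw [← hi]
      exact h1 i
  have hc1 := Finset.card_le_card hsub
  rw [Finset.card_insert_of_notMem hnot, Finset.card_image_of_injective _ hI, Finset.card_univ,
    Fintype.card_fin] at hc1
  have hc2 : (H - C ζ).roots.toFinset.card ≤ n := by
    refine le_trans (Multiset.toFinset_card_le _) ?_
    rw [← hdeg ζ]
    exact card_roots' _
  omega

end Pool.Agent.HK
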