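import Mathlib

/-!
MP_cd3d06_an, part D: local inverse functions and the square root coordinate at a simple
critical point.
-/

namespace Pool.Agent.HK

open Polynomial Complex Set Filter Topology

theorem exists_local_inv {F : ℂ → ℂ} {c : ℂ} (hF : AnalyticAt ℂ F c) (hd : deriv F c ≠ 0) :
    ∃ ψ : ℂ → ℂ, AnalyticAt ℂ ψ (F c) ∧ ψ (F c) = c ∧ deriv ψ (F c) = (deriv F c)⁻¹ ∧
      (∀ᶠ w in 𝓝 (F c), F (ψ w) = w) ∧ ∀ᶠ z in 𝓝 c, ψ (F z) = z := by
  refine ⟨hF.hasStrictDerivAt.localInverse _ _ _ hd, hF.analyticAt_localInverse hd,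
    HasStrictFDerivAt.localInverse_apply_image .., ?_,
    HasStrictDerivAt.eventually_right_inverse .., HasStrictDerivAt.eventually_left_inverse ..⟩
  exact (HasStrictDerivAt.to_localInverse ..).hasDerivAt.deriv

theorem exists_sqrt_at {g : ℂ → ℂ} {c : ℂ} (hg : AnalyticAt ℂ g c) (h0 : g c ≠ 0) :
    ∃ r : ℂ → ℂ, AnalyticAt ℂ r c ∧ r c ≠ 0 ∧ ∀ᶠ z in 𝓝 c, r z ^ 2 = g z := by
  obtain ⟨s, hs⟩ := IsAlgClosed.exists_pow_nat_eq (g c) (n := 2) (by norm_num)
  have hq : AnalyticAt ℂ (fun z => g z / g c) c := hg.div analyticAt_const h0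
  have hl : AnalyticAt ℂ (fun z => Complex.log (g z / g c)) c := by
    apply hq.clog
    rw [div_self h0]
    exact Complex.one_mem_slitPlane
  refine ⟨fun z => s * Complex.exp (Complex.log (g z / g c) / 2), ?_, ?_, ?_⟩
  · exact analyticAt_const.mul (hl.div analyticAt_const (by norm_num)).cexp
  · apply mul_ne_zero _ (Complex.exp_ne_zero _)
    rintro rfl
    apply h0
    rw [← hs]; norm_num
  · have h1 : ∀ᶠ z in 𝓝 c, g z ≠ 0 := hg.continuousAt.eventually_ne h0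
    filter_upwards [h1] with z hz
    rw [mul_pow, hs, ← Complex.exp_nat_mul]
    have e1 : ((2 : ℕ) : ℂ) * (Complex.log (g z / g c) / 2) = Complex.log (g z / g c) := by
      push_cast; ring
    rw [e1, Complex.exp_log (div_ne_zero hz h0), mul_div_cancel₀ _ h0]

theorem analyticAt_eval (H : ℂ[X]) (c : ℂ) : AnalyticAt ℂ (fun z => H.eval z) c :=
  (Polynomial.differentiable H).analyticAt c

/-- the regular case -/
theorem exists_reg_coord {H : ℂ[X]} {c ζ0 : ℂ} (h0 : H.eval c = ζ0)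
    (h1 : H.derivative.eval c ≠ 0) :
    ∃ g : ℂ → ℂ, AnalyticAt ℂ g ζ0 ∧ g ζ0 = c ∧ ∀ᶠ ζ in 𝓝 ζ0, H.eval (g ζ) = ζ := by
  subst h0
  obtain ⟨ψ, h2, h3, -, h4, -⟩ := exists_local_inv (F := fun z => H.eval z)
    (analyticAt_eval H c) (by rw [Polynomial.deriv]; exact h1)
  exact ⟨ψ, h2, h3, h4⟩

/-- the square root coordinate -/
theorem exists_sqrt_coord {H : ℂ[X]} {c ζ0 : ℂ} (h0 : H.eval c = ζ0)
    (h1 : H.derivative.eval c = 0) (h2 : H.derivative.derivative.eval c ≠ 0) :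
    ∃ ψ : ℂ → ℂ, AnalyticAt ℂ ψ 0 ∧ ψ 0 = c ∧ deriv ψ 0 ≠ 0 ∧
      ∀ᶠ t in 𝓝 (0 : ℂ), H.eval (ψ t) = ζ0 + t ^ 2 := by
  obtain ⟨K1, hK1⟩ : (X - C c) ∣ (H - C ζ0) := by
    rw [dvd_iff_isRoot, IsRoot.def, eval_sub, eval_C, h0, sub_self]
  have hd : H.derivative = K1 + (X - C c) * K1.derivative := by
    have e1 : (H - C ζ0).derivative = H.derivative := by simp
    rw [← e1, hK1, derivative_mul]; simp
  obtain ⟨K2, hK2⟩ : (X - C c) ∣ K1 := by
    rw [dvd_iff_isRoot, IsRoot.def]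
    have e1 := h1
    rw [hd, eval_add, eval_mul, eval_sub, eval_X, eval_C, sub_self, zero_mul, add_zero] at e1
    exact e1
  have hH : ∀ z, H.eval z = ζ0 + (z - c) ^ 2 * K2.eval z := by
    intro z
    have e1 : H = C ζ0 + (X - C c) * ((X - C c) * K2) := by
      rw [← hK2, ← hK1]; ring
    rw [e1]
    simp only [eval_add, eval_mul, eval_sub, eval_X, eval_C]
    ring
  have hK2c : K2.eval c ≠ 0 := by
    intro h3
    apply h2
    have e1 : H = C ζ0 + (X - C c) * ((X - C c) * K2) := by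
      rw [← hK2, ← hK1]; ring
    rw [e1]
    simp [derivative_mul, h3]
  obtain ⟨r, hr1, hr2, hr3⟩ := exists_sqrt_at (analyticAt_eval K2 c) hK2c
  have hFa : AnalyticAt ℂ (fun z => (z - c) * r z) c :=
    (analyticAt_id.sub analyticAt_const).mul hr1
  have hFd : deriv (fun z => (z - c) * r z) c = r c := by
    have e1 : HasDerivAt (fun z : ℂ => z - c) 1 c := (hasDerivAt_id c).sub_const c
    have e2 := e1.mul hr1.differentiableAt.hasDerivAt
    have e3 := e2.deriv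
    rw [sub_self, zero_mul, add_zero, one_mul] at e3
    exact e3
  obtain ⟨ψ, i1, i2, i3, i4, -⟩ := exists_local_inv hFa (by rw [hFd]; exact hr2)
  have hF0 : (c - c) * r c = 0 := by rw [sub_self, zero_mul]
  rw [hF0] at i1 i2 i3 i4
  refine ⟨ψ, i1, i2, by rw [i3, hFd]; exact inv_ne_zero hr2, ?_⟩
  have hr3' : ∀ᶠ t in 𝓝 (0 : ℂ), r (ψ t) ^ 2 = K2.eval (ψ t) := by
    have e1 : Tendsto ψ (𝓝 0) (𝓝 c) := by
      have := i1.continuousAt.tendsto
      rwa [i2] at this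
    exact e1.eventually hr3
  filter_upwards [i4, hr3'] with t h3 h4
  rw [hH, ← h4, ← mul_pow]
  have h5 : (ψ t - c) * r (ψ t) = t := h3
  rw [h5]

end Pool.Agent.HK
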