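import Pool.Agent.H.MP_cd3d06_an.K.D.FamA
import Pool.Agent.H.MP_cd3d06_an.K.D.Inv
import Pool.Agent.H.MP_cd3d06_an.K.D.ArgT

/-! MP_cd3d06_an, part D: zeros of `h` (elementary facts, realness). -/

namespace Pool.Agent.HK

open Polynomial Complex Set Metric Filter Topology
open scoped ComplexConjugate

variable {p q H S : ℂ[X]} {n : ℕ} {ζ0 : ℂ}

/-- A zero of `h` has real `H z` and purely imaginary `S z`. -/
theorem zero_props (hG : Gen p q H S) {z : ℂ} (hz : p.eval z + conj (q.eval z) = 0) :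
    (H.eval z).im = 0 ∧ S.eval z = -conj (S.eval z) ∧ (S.eval z).re = 0 := by
  have hp : p.eval z = -conj (q.eval z) := eq_neg_of_add_eq_zero_left hz
  have hH : H.eval z = -conj (q.eval z) - q.eval z := by rw [hG.hH, eval_sub, hp]
  have hS : S.eval z = -conj (q.eval z) + q.eval z := by rw [hG.hS, eval_add, hp]
  refine ⟨?_, ?_, ?_⟩
  · rw [hH, Complex.sub_im, Complex.neg_im, Complex.conj_im]
    ring
  · rw [hS, map_add, map_neg, Complex.conj_conj]
    ring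
  · rw [hS, Complex.add_re, Complex.neg_re, Complex.conj_re]
    ring

/-- A point over a real parameter with purely imaginary `S` is a zero of `h`. -/
theorem zero_of_re {z : ℂ} (hG : Gen p q H S) (h1 : (H.eval z).im = 0) (h2 : (S.eval z).re = 0) :
    p.eval z + conj (q.eval z) = 0 := by
  rw [hG.hH, eval_sub, Complex.sub_im] at h1
  rw [hG.hS, eval_add, Complex.add_re] at h2
  apply Complex.ext
  · rw [Complex.add_re, Complex.conj_re, Complex.zero_re]
    exact h2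
  · rw [Complex.add_im, Complex.conj_im, Complex.zero_im]
    linarith

/-- the coordinate `tt ρ φ` tends to `0` -/
theorem zeroA_tendsto_tt (φ : ℝ) : Tendsto (fun ρ : ℝ => tt ρ φ) (𝓝[>] (0 : ℝ)) (𝓝 (0 : ℂ)) := by
  apply tendsto_zero_iff_norm_tendsto_zero.2
  have h1 : Tendsto (fun ρ : ℝ => Real.sqrt ρ) (𝓝[>] (0 : ℝ)) (𝓝 0) := by
    have h2 : Tendsto (fun ρ : ℝ => Real.sqrt ρ) (𝓝 (0 : ℝ)) (𝓝 (Real.sqrt 0)) :=
      Real.continuous_sqrt.tendsto 0
    rw [Real.sqrt_zero] at h2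
    exact h2.mono_left nhdsWithin_le_nhds
  exact h1.congr fun ρ => (norm_tt ρ φ).symm

/-- the difference of the two sections is real where `t ^ 2` is real -/
theorem Fam.zeroA_real_aux (F : Fam H S (Fin (2 * n)) ζ0) (h0 : ζ0.im = 0) {i j : Fin (2 * n)}
    (hi : F.ty i = 1) (hj : F.ty j = 0) (hb : F.b i 0 = F.b j 0)
    (hH : H.derivative.eval (F.b i 0) ≠ 0) :
    ∀ᶠ t in 𝓝 (0 : ℂ), (t ^ 2).im = 0 → (F.f j t - F.f i t).im = 0 := by
  have han : AnalyticAt ℂ (fun z => H.eval z) (F.b i 0) := by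
    have h3 : AnalyticAt ℂ (fun z => Polynomial.aeval z H) (F.b i 0) :=
      AnalyticAt.aeval_polynomial analyticAt_id H
    simpa [Polynomial.coe_aeval_eq_eval] using h3
  have hd : deriv (fun z => H.eval z) (F.b i 0) ≠ 0 := by
    rw [Polynomial.deriv]
    exact hH
  obtain ⟨r, hr, hinj⟩ := dinj han hd
  have ei : ∀ᶠ t in 𝓝 (0 : ℂ), F.b i t ∈ ball (F.b i 0) r :=
    (F.bc i) (ball_mem_nhds _ hr)
  have ej : ∀ᶠ t in 𝓝 (0 : ℂ), F.b j t ∈ ball (F.b i 0) r := by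
    rw [hb]
    exact (F.bc j) (ball_mem_nhds _ hr)
  filter_upwards [ei, ej, F.b1 i hi, F.b0 j hj] with t hti htj h1 h2 ht
  have e1 : conj (ζ0 + t ^ 2) = ζ0 + t ^ 2 := by
    rw [Complex.conj_eq_iff_im, Complex.add_im, h0, ht, add_zero]
  have e2 : F.b i t = F.b j t := by
    apply hinj _ hti _ htj
    show H.eval (F.b i t) = H.eval (F.b j t)
    rw [h1.1, h2.1, e1]
  rw [h2.2, h1.2, e2, Complex.sub_im, Complex.neg_im, Complex.conj_im]
  ring

/-- the squares of the two special points are real -/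
theorem zeroA_tt_sq_im {ρ : ℝ} (hρ : 0 ≤ ρ) : (tt ρ 0 ^ 2).im = 0 ∧ (tt ρ Real.pi ^ 2).im = 0 := by
  have key : ∀ φ : ℝ, tt ρ φ ^ 2 = (ρ : ℂ) * Complex.exp (φ * Complex.I) := by
    intro φ
    have h := pol_eq 0 hρ φ
    rw [pol, zero_add, zero_add] at h
    exact h.symm
  constructor
  · rw [key]
    simp
  · rw [key, Complex.exp_pi_mul_I]
    simp

/-- The pair of sections at a zero `z0`: `i` of type `1`, `j` of type `0`, both with base point `z0`.

(a) For real `ρ > 0` small the two source points coincide at `t = sqrt ρ` and at `t = i sqrt ρ`, so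
`f j t = - conj (f i t)` and the difference is real.
Proof: `H (b i t) = ζ0 + t ^ 2` is real, `= conj (ζ0 + t ^ 2) = H (b j t)`; both points are near `z0` (`F.bc`),
`H' z0 ≠ 0`, `dinj`.
(b) `(f j t - f i t) / t ^ 2` tends to `- 2 Re (S'(z0) / H'(z0)) ≠ 0`.
Proof: `b i t - z0 ~ t ^ 2 / H'(z0)` (from `H (b i t) - H z0 = t ^ 2`, `b i t → z0`, difference quotient of
`H`), `S (b i t) - S z0 ~ S'(z0) (b i t - z0)`; for `j`: `H (b j t) - H z0 = conj t ^ 2`. The number is not `0`: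
`Re (S' conj H') = ‖p'‖ ^ 2 - ‖q'‖ ^ 2` at `z0`, `g4`. -/
theorem Fam.zero_real (F : Fam H S (Fin (2 * n)) ζ0) (h0 : ζ0.im = 0) {i j : Fin (2 * n)}
    (hi : F.ty i = 1) (hj : F.ty j = 0) (hb : F.b i 0 = F.b j 0)
    (hH : H.derivative.eval (F.b i 0) ≠ 0) :
    ∀ᶠ ρ in 𝓝[>] (0 : ℝ), (F.f j (tt ρ 0) - F.f i (tt ρ 0)).im = 0 ∧
      (F.f j (tt ρ Real.pi) - F.f i (tt ρ Real.pi)).im = 0 := by
  have h := F.zeroA_real_aux h0 hi hj hb hH
  have hpos : ∀ᶠ ρ in 𝓝[>] (0 : ℝ), ρ ∈ Ioi (0 : ℝ) := self_mem_nhdsWithin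
  filter_upwards [(zeroA_tendsto_tt 0).eventually h, (zeroA_tendsto_tt Real.pi).eventually h, hpos]
    with ρ h1 h2 h3
  have h4 := zeroA_tt_sq_im (le_of_lt h3)
  exact ⟨h1 h4.1, h2 h4.2⟩

end Pool.Agent.HK
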